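import Mathlib

/-!
# The choice of the right end
-/

set_option autoImplicit false

open Finset

namespace Pool.Agent.V5helper55.DM

/-- Given points `q i`, one finds `M ≤ m` such that no point lies in `[M, M + η]` and the points
left of `M` do not cluster at `M`. -/
theorem cut {ι : Type} [DecidableEq ι] {η w : ℝ} (hη : 0 < η) (q : ι → ℝ) (F : Finset ι) :
    ∀ m : ℝ, 1 + F.card * η + w < m →
    ∃ M ≤ m, ∃ S ⊆ F, (∀ i ∈ S, q i < M) ∧ (∀ i ∈ F, i ∉ S → M + η < q i) ∧
      (∀ j ∈ S, ((S.filter fun i => i ≠ j ∧ q j ≤ q i).card : ℝ) * η < M - q j) ∧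
      1 + S.card * η + w < M := by
  induction F using Finset.strongInduction with
  | H F ih =>
    intro m hm
    set τ : ℝ := (m - (1 + F.card * η + w)) / 2 with hτ
    have hτ0 : 0 < τ := by rw [hτ]; linarith
    have hτm : 1 + F.card * η + w = m - 2 * τ := by rw [hτ]; ring
    by_cases hA : ∃ i ∈ F, m ≤ q i ∧ q i ≤ m + η
    · obtain ⟨i, hi, h1, h2⟩ := hA
      have hcard : ((F.erase i).card : ℝ) = F.card - 1 := by
        rw [Finset.card_erase_of_mem hi, Nat.cast_sub (Finset.card_pos.2 ⟨i, hi⟩)]
        simp
      obtain ⟨M, hM, S, hS, h3, h4, h5, h6⟩ := ih (F.erase i) (Finset.erase_ssubset hi)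
        (q i - η - τ) (by rw [hcard]; nlinarith)
      refine ⟨M, by linarith, S, hS.trans (Finset.erase_subset _ _), h3, ?_, h5, h6⟩
      intro i' hi' hi'S
      by_cases he : i' = i
      · rw [he]; linarith
      · exact h4 i' (Finset.mem_erase.2 ⟨he, hi'⟩) hi'S
    · by_cases hB : ∃ j ∈ F, q j < m ∧
        m - q j ≤ ((F.filter fun i => i ≠ j ∧ q j ≤ q i ∧ q i < m).card : ℝ) * η
      · obtain ⟨j, hj, h1, h2⟩ := hB
        have hss : (F.filter fun i => q i < q j) ⊂ F := by
          refine Finset.ssubset_iff_subset_ne.2 ⟨Finset.filter_subset _ _, ?_⟩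
          intro h
          have h3 : j ∈ F.filter fun i => q i < q j := by rw [h]; exact hj
          exact absurd (Finset.mem_filter.1 h3).2 (lt_irrefl _)
        have hcard : (F.filter fun i => q i < q j).card +
            ((F.filter fun i => i ≠ j ∧ q j ≤ q i ∧ q i < m).card + 1) ≤ F.card := by
          have h3 : (insert j (F.filter fun i => i ≠ j ∧ q j ≤ q i ∧ q i < m)).card =
              (F.filter fun i => i ≠ j ∧ q j ≤ q i ∧ q i < m).card + 1 := by
            apply Finset.card_insert_of_notMem
            simp
          rw [← h3, ← Finset.card_union_of_disjoint]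
          · apply Finset.card_le_card
            intro i hi
            rcases Finset.mem_union.1 hi with h | h
            · exact (Finset.mem_filter.1 h).1
            · rcases Finset.mem_insert.1 h with h | h
              · rw [h]; exact hj
              · exact (Finset.mem_filter.1 h).1
          · rw [Finset.disjoint_left]
            intro i hi hi'
            have h4 := (Finset.mem_filter.1 hi).2
            rcases Finset.mem_insert.1 hi' with h | h
            · rw [h] at h4; exact lt_irrefl _ h4
            · have := (Finset.mem_filter.1 h).2.2.1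
              linarith
        have hcardR : ((F.filter fun i => q i < q j).card : ℝ) +
            (((F.filter fun i => i ≠ j ∧ q j ≤ q i ∧ q i < m).card : ℝ) + 1) ≤ F.card := by
          exact_mod_cast hcard
        obtain ⟨M, hM, S, hS, h3, h4, h5, h6⟩ := ih _ hss (q j - η - τ) (by nlinarith)
        refine ⟨M, by linarith, S, hS.trans (Finset.filter_subset _ _), h3, ?_, h5, h6⟩
        intro i' hi' hi'S
        by_cases he : q i' < q j
        · exact h4 i' (Finset.mem_filter.2 ⟨hi', he⟩) hi'S
        · push Not at he
          linarith
      · refine ⟨m, le_refl _, F.filter (fun i => q i < m), Finset.filter_subset _ _, ?_, ?_, ?_, ?_⟩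
        · intro i hi
          exact (Finset.mem_filter.1 hi).2
        · intro i hi hi'
          by_contra h
          push Not at h
          refine hA ⟨i, hi, ?_, h⟩
          by_contra h'
          push Not at h'
          exact hi' (Finset.mem_filter.2 ⟨hi, h'⟩)
        · intro j hj
          by_contra h
          push Not at h
          refine hB ⟨j, (Finset.mem_filter.1 hj).1, (Finset.mem_filter.1 hj).2, ?_⟩
          refine h.trans (mul_le_mul_of_nonneg_right ?_ hη.le)
          have h3 : (F.filter (fun i => q i < m)).filter (fun i => i ≠ j ∧ q j ≤ q i) =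
              F.filter fun i => i ≠ j ∧ q j ≤ q i ∧ q i < m := by
            ext i
            simp only [Finset.mem_filter]
            tauto
          rw [h3]
        · have h3 : ((F.filter (fun i => q i < m)).card : ℝ) ≤ F.card := by
            exact_mod_cast Finset.card_le_card (Finset.filter_subset _ _)
          nlinarith

end Pool.Agent.V5helper55.DM
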