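import Mathlib

/-!
# The identity for the values at `b` of a relation between digits
-/

set_option autoImplicit false

open Finset

namespace Pool.Agent.V5helper55.DM

/-- the block `c` of length `L` of the value at `b` of a polynomial -/
def tA (b M L : ℕ) (y : ℕ → ℤ) (c : ℕ) : ℤ :=
  ∑ r ∈ range L, y (c * L + r) * (b : ℤ) ^ (M + (c * L + r))

/-- the contribution of one changed place -/
def tE {κ : Type} [Fintype κ] (b N M L : ℕ) (y : κ → ℕ → ℤ) (pl : ℕ) (ev : κ → ℤ) (c : ℕ) : ℤ :=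
  ∑ i, ev i * ∑ r ∈ range L, if N + (c * L + r) < pl ∧ pl ≤ M + (c * L + r) then
    y i (c * L + r) * (b : ℤ) ^ (M + (c * L + r) - pl) else 0

/-- the contribution of the left end -/
def tP {κ : Type} [Fintype κ] (b N M W : ℕ) (y P : κ → ℕ → ℤ) : ℤ :=
  -((b : ℤ) ^ (M - N) * ∑ i, ∑ j ∈ range W, y i j * P i (N + j))

/-- the contribution of the places where the relation fails -/
def tG (b N M L : ℕ) (v : ℕ → ℤ) (c : ℕ) : ℤ :=
  -∑ r ∈ range L, if N < c * L + r ∧ c * L + r ≤ M then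
    v (c * L + r) * (b : ℤ) ^ (M - (c * L + r)) else 0

lemma range_blocks {A : Type} [AddCommMonoid A] (f : ℕ → A) (R L : ℕ) :
    ∑ j ∈ range (R * L), f j = ∑ c ∈ range R, ∑ r ∈ range L, f (c * L + r) := by
  induction R with
  | zero => simp
  | succ R ih => rw [Nat.succ_mul, Finset.sum_range_add, ih, Finset.sum_range_succ]

lemma tele (b : ℕ) (P : ℕ → ℤ) (N j K : ℕ) :
    ∑ n ∈ range K, (b : ℤ) ^ (K - 1 - n) * (P (N + n + j + 1) - b * P (N + n + j)) =
      P (N + K + j) - (b : ℤ) ^ K * P (N + j) := by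
  induction K with
  | zero => simp
  | succ K ih =>
    rw [Finset.sum_range_succ]
    have h1 : ∑ n ∈ range K, (b : ℤ) ^ (K + 1 - 1 - n) * (P (N + n + j + 1) - b * P (N + n + j)) =
        b * ∑ n ∈ range K, (b : ℤ) ^ (K - 1 - n) * (P (N + n + j + 1) - b * P (N + n + j)) := by
      rw [Finset.mul_sum]
      refine Finset.sum_congr rfl fun n hn => ?_
      have hn' := Finset.mem_range.1 hn
      rw [show K + 1 - 1 - n = (K - 1 - n) + 1 by omega, pow_succ]
      ring
    rw [h1, ih, show K + 1 - 1 - K = 0 by omega, pow_zero]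
    rw [show N + (K + 1) + j = N + K + j + 1 by ring, pow_succ]
    ring

lemma tele_err (b : ℕ) (N j K pl : ℕ) (e : ℤ) :
    ∑ n ∈ range K, (b : ℤ) ^ (K - 1 - n) * (if N + n + j + 1 = pl then e else 0) =
      if N + j < pl ∧ pl ≤ N + K + j then e * (b : ℤ) ^ (N + K + j - pl) else 0 := by
  split_ifs with h
  · rw [Finset.sum_eq_single (pl - N - j - 1)]
    · rw [if_pos (by omega), show K - 1 - (pl - N - j - 1) = N + K + j - pl by omega]
      ring
    · intro n _ hn
      rw [if_neg (by omega), mul_zero]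
    · intro hn
      rw [Finset.mem_range] at hn
      exfalso
      omega
  · refine Finset.sum_eq_zero fun n hn => ?_
    have hn' := Finset.mem_range.1 hn
    rw [if_neg (by omega), mul_zero]

/-- the identity -/
lemma identity {κ : Type} [Fintype κ] {E : ℕ} (b N K W : ℕ) (y P s : κ → ℕ → ℤ)
    (pl : Fin E → ℕ) (ev : Fin E → κ → ℤ)
    (hs : ∀ i n, s i (n + 1) = P i (n + 1) - b * P i n +
      ∑ l, if n + 1 = pl l then ev l i else 0) :
    ∑ i, ∑ j ∈ range W, y i j * P i (N + K + j) + tP b N (N + K) W y P +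
      ∑ l, ∑ i, ev l i * ∑ j ∈ range W, (if N + j < pl l ∧ pl l ≤ N + K + j then
        y i j * (b : ℤ) ^ (N + K + j - pl l) else 0) =
      ∑ n ∈ range K, (b : ℤ) ^ (K - 1 - n) *
        ∑ i, ∑ j ∈ range W, y i j * s i (N + n + 1 + j) := by
  have h1 : ∀ n ∈ range K, (b : ℤ) ^ (K - 1 - n) *
      ∑ i, ∑ j ∈ range W, y i j * s i (N + n + 1 + j) =
      ∑ i, ∑ j ∈ range W, y i j *
        ((b : ℤ) ^ (K - 1 - n) * (P i (N + n + j + 1) - b * P i (N + n + j)) +
        ∑ l, (b : ℤ) ^ (K - 1 - n) * (if N + n + j + 1 = pl l then ev l i else 0)) := by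
    intro n _
    rw [Finset.mul_sum]
    refine Finset.sum_congr rfl fun i _ => ?_
    rw [Finset.mul_sum]
    refine Finset.sum_congr rfl fun j _ => ?_
    rw [show N + n + 1 + j = N + n + j + 1 by ring, hs, ← Finset.mul_sum]
    ring
  rw [Finset.sum_congr rfl h1, Finset.sum_comm (s := range K) (t := (Finset.univ : Finset κ))]
  have h2 : ∀ i ∈ (Finset.univ : Finset κ), ∑ n ∈ range K, ∑ j ∈ range W, y i j *
        ((b : ℤ) ^ (K - 1 - n) * (P i (N + n + j + 1) - b * P i (N + n + j)) +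
        ∑ l, (b : ℤ) ^ (K - 1 - n) * (if N + n + j + 1 = pl l then ev l i else 0)) =
      (∑ j ∈ range W, y i j * P i (N + K + j) -
        (b : ℤ) ^ K * ∑ j ∈ range W, y i j * P i (N + j)) +
      ∑ l, ev l i * ∑ j ∈ range W, (if N + j < pl l ∧ pl l ≤ N + K + j then
        y i j * (b : ℤ) ^ (N + K + j - pl l) else 0) := by
    intro i _
    rw [Finset.sum_comm]
    have h3 : ∀ j ∈ range W, ∑ n ∈ range K, y i j *
        ((b : ℤ) ^ (K - 1 - n) * (P i (N + n + j + 1) - b * P i (N + n + j)) +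
        ∑ l, (b : ℤ) ^ (K - 1 - n) * (if N + n + j + 1 = pl l then ev l i else 0)) =
        y i j * (P i (N + K + j) - (b : ℤ) ^ K * P i (N + j)) +
        ∑ l, y i j * (if N + j < pl l ∧ pl l ≤ N + K + j then
          ev l i * (b : ℤ) ^ (N + K + j - pl l) else 0) := by
      intro j _
      rw [← Finset.mul_sum, Finset.sum_add_distrib, tele, Finset.sum_comm, mul_add]
      congr 1
      rw [Finset.mul_sum]
      refine Finset.sum_congr rfl fun l _ => ?_
      rw [tele_err]
    rw [Finset.sum_congr rfl h3, Finset.sum_add_distrib]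
    congr 1
    · rw [Finset.mul_sum, ← Finset.sum_sub_distrib]
      refine Finset.sum_congr rfl fun j _ => ?_
      ring
    · rw [Finset.sum_comm]
      refine Finset.sum_congr rfl fun l _ => ?_
      rw [Finset.mul_sum]
      refine Finset.sum_congr rfl fun j _ => ?_
      split_ifs
      · ring
      · simp
  rw [Finset.sum_congr rfl h2, Finset.sum_add_distrib, Finset.sum_sub_distrib]
  unfold tP
  rw [Nat.add_sub_cancel_left, ← Finset.mul_sum, Finset.sum_comm (s := (Finset.univ : Finset κ))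
    (t := (Finset.univ : Finset (Fin E)))]
  ring

lemma gap_blocks (b N K L R : ℕ) (hR : N + K < R * L) (v : ℕ → ℤ) :
    ∑ n ∈ range K, (b : ℤ) ^ (K - 1 - n) * v (N + n + 1) =
      -∑ c : Fin R, tG b N (N + K) L v c := by
  unfold tG
  rw [Finset.sum_neg_distrib, neg_neg]
  rw [Fin.sum_univ_eq_sum_range (fun c => ∑ r ∈ range L,
    if N < c * L + r ∧ c * L + r ≤ N + K then
      v (c * L + r) * (b : ℤ) ^ (N + K - (c * L + r)) else 0)]
  rw [← range_blocks (fun j => if N < j ∧ j ≤ N + K then v j * (b : ℤ) ^ (N + K - j) else 0) R L,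
    ← Finset.sum_filter]
  have h1 : (range (R * L)).filter (fun j => N < j ∧ j ≤ N + K) = Finset.Ico (N + 1) (N + 1 + K) := by
    ext j
    simp only [mem_filter, mem_range, mem_Ico]
    omega
  rw [h1, Finset.sum_Ico_eq_sum_range, Nat.add_sub_cancel_left]
  refine Finset.sum_congr rfl fun n hn => ?_
  have hn' := Finset.mem_range.1 hn
  rw [show N + K - (N + 1 + n) = K - 1 - n by omega, show N + 1 + n = N + n + 1 by ring, mul_comm]

/-- the identity, in blocks -/
lemma identity_blocks {κ : Type} [Fintype κ] {E R R' : ℕ} (b N K L : ℕ) (hR : N + K < R' * L)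
    (x : κ → ℝ)
    (y P s : κ → ℕ → ℤ) (pl : Fin E → ℕ) (ev : Fin E → κ → ℤ)
    (hs : ∀ i n, s i (n + 1) = P i (n + 1) - b * P i n +
      ∑ l, if n + 1 = pl l then ev l i else 0) :
    ∑ p : κ × Fin R, x p.1 * (tA b (N + K) L (y p.1) p.2 : ℝ) +
      ((∑ p : Fin E × Fin R, (tE b N (N + K) L y (pl p.1) (ev p.1) p.2 : ℝ) +
        ∑ c : Fin R', (tG b N (N + K) L
          (fun n => ∑ i, ∑ j ∈ range (R * L), y i j * s i (n + j)) c : ℝ)) +
        (tP b N (N + K) (R * L) y P : ℝ)) =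
      ∑ i, ∑ j ∈ range (R * L), (y i j : ℝ) * (x i * (b : ℝ) ^ (N + K + j) - P i (N + K + j)) := by
  have h := identity b N K (R * L) y P s pl ev hs
  have hgap := gap_blocks b N K L R' hR (fun n => ∑ i, ∑ j ∈ range (R * L), y i j * s i (n + j))
  rw [hgap] at h
  have h1 : ((∑ i, ∑ j ∈ range (R * L), y i j * P i (N + K + j) : ℤ) : ℝ) +
      (tP b N (N + K) (R * L) y P : ℝ) +
      ((∑ l, ∑ i, ev l i * ∑ j ∈ range (R * L), (if N + j < pl l ∧ pl l ≤ N + K + j then
        y i j * (b : ℤ) ^ (N + K + j - pl l) else 0) : ℤ) : ℝ) =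
      -∑ c : Fin R', (tG b N (N + K) L
          (fun n => ∑ i, ∑ j ∈ range (R * L), y i j * s i (n + j)) c : ℝ) := by
    exact_mod_cast h
  have h2 : (∑ l, ∑ i, ev l i * ∑ j ∈ range (R * L), (if N + j < pl l ∧ pl l ≤ N + K + j then
        y i j * (b : ℤ) ^ (N + K + j - pl l) else 0)) =
      ∑ p : Fin E × Fin R, tE b N (N + K) L y (pl p.1) (ev p.1) p.2 := by
    rw [Fintype.sum_prod_type]
    refine Finset.sum_congr rfl fun l _ => ?_
    unfold tE
    rw [Finset.sum_comm]
    refine Finset.sum_congr rfl fun i _ => ?_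
    dsimp only
    rw [← Finset.mul_sum, range_blocks, ← Fin.sum_univ_eq_sum_range (fun c => ∑ r ∈ range L,
      (if N + (c * L + r) < pl l ∧ pl l ≤ N + K + (c * L + r) then
        y i (c * L + r) * (b : ℤ) ^ (N + K + (c * L + r) - pl l) else 0))]
  have h3 : ∑ p : κ × Fin R, x p.1 * (tA b (N + K) L (y p.1) p.2 : ℝ) =
      ∑ i, ∑ j ∈ range (R * L), x i * ((y i j : ℝ) * (b : ℝ) ^ (N + K + j)) := by
    rw [Fintype.sum_prod_type]
    refine Finset.sum_congr rfl fun i _ => ?_
    rw [range_blocks, ← Fin.sum_univ_eq_sum_range (fun c => ∑ r ∈ range L,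
      x i * ((y i (c * L + r) : ℝ) * (b : ℝ) ^ (N + K + (c * L + r))))]
    refine Finset.sum_congr rfl fun c _ => ?_
    unfold tA
    push_cast
    rw [Finset.mul_sum]
  rw [h2] at h1
  rw [h3]
  have h4 : ∑ i, ∑ j ∈ range (R * L),
      (y i j : ℝ) * (x i * (b : ℝ) ^ (N + K + j) - P i (N + K + j)) =
      ∑ i, ∑ j ∈ range (R * L), x i * ((y i j : ℝ) * (b : ℝ) ^ (N + K + j)) -
      ((∑ i, ∑ j ∈ range (R * L), y i j * P i (N + K + j) : ℤ) : ℝ) := by
    push_cast
    rw [← Finset.sum_sub_distrib]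
    refine Finset.sum_congr rfl fun i _ => ?_
    rw [← Finset.sum_sub_distrib]
    refine Finset.sum_congr rfl fun j _ => ?_
    ring
  rw [h4]
  push_cast at h1 ⊢
  linarith

end Pool.Agent.V5helper55.DM
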