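import Mathlib
import Pool.Agent.V5helper55.TB.Conv2
import Pool.Agent.V5helper55.DM.Ident

/-!
# Sizes of the coordinates
-/

set_option autoImplicit false

open Filter Topology Finset

namespace Pool.Agent.V5helper55.DM

section single

variable {κ : Type} [Fintype κ] {b N M L W : ℕ}

lemma dvd_tA (y : ℕ → ℤ) (c : ℕ) : ((b ^ (M + c * L) : ℕ) : ℤ) ∣ tA b M L y c := by
  unfold tA
  refine Finset.dvd_sum fun r _ => ?_
  refine Dvd.dvd.mul_left ?_ _
  push_cast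
  exact pow_dvd_pow _ (by omega)

lemma dvd_tE (y : κ → ℕ → ℤ) (pl : ℕ) (ev : κ → ℤ) (c : ℕ) :
    ((b ^ (M + c * L - pl) : ℕ) : ℤ) ∣ tE b N M L y pl ev c := by
  unfold tE
  refine Finset.dvd_sum fun i _ => Dvd.dvd.mul_left (Finset.dvd_sum fun r _ => ?_) _
  split_ifs
  · refine Dvd.dvd.mul_left ?_ _
    push_cast
    exact pow_dvd_pow _ (by omega)
  · exact dvd_zero _

lemma dvd_tP (y P : κ → ℕ → ℤ) : ((b ^ (M - N) : ℕ) : ℤ) ∣ tP b N M W y P := by
  unfold tP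
  push_cast
  rw [dvd_neg]
  exact Dvd.intro _ rfl

lemma abs_tA (hb : 1 ≤ b) {y : ℕ → ℤ} {H : ℝ} (hy : ∀ j, |(y j : ℝ)| ≤ H) (c : ℕ) :
    |(tA b M L y c : ℝ)| ≤ ((b ^ (M + c * L) : ℕ) : ℝ) * (L * (H * ((b ^ L : ℕ) : ℝ))) := by
  have hbR : (1 : ℝ) ≤ b := by exact_mod_cast hb
  have hH : 0 ≤ H := (abs_nonneg _).trans (hy 0)
  unfold tA
  push_cast
  calc |∑ r ∈ range L, (y (c * L + r) : ℝ) * (b : ℝ) ^ (M + (c * L + r))|
      ≤ ∑ r ∈ range L, |(y (c * L + r) : ℝ) * (b : ℝ) ^ (M + (c * L + r))| :=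
        Finset.abs_sum_le_sum_abs _ _
    _ ≤ ∑ _r ∈ range L, H * (b : ℝ) ^ (M + c * L + L) := by
        refine Finset.sum_le_sum fun r hr => ?_
        have hr' := Finset.mem_range.1 hr
        rw [abs_mul, abs_of_nonneg (by positivity : (0 : ℝ) ≤ (b : ℝ) ^ (M + (c * L + r)))]
        exact mul_le_mul (hy _) (pow_le_pow_right₀ hbR (by omega)) (by positivity) hH
    _ = (b : ℝ) ^ (M + c * L) * (L * (H * (b : ℝ) ^ L)) := by
        rw [Finset.sum_const, Finset.card_range, nsmul_eq_mul, pow_add]; ring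

lemma abs_tE (hb : 1 ≤ b) {y : κ → ℕ → ℤ} {H : ℝ} (hH : 0 ≤ H) (hy : ∀ i j, |(y i j : ℝ)| ≤ H)
    (pl : ℕ) {ev : κ → ℤ} {A : ℝ} (hev : ∀ i, |(ev i : ℝ)| ≤ A) (c : ℕ) :
    |(tE b N M L y pl ev c : ℝ)| ≤ ((b ^ (M + c * L - pl) : ℕ) : ℝ) *
      (Fintype.card κ * (A * (L * (H * ((b ^ L : ℕ) : ℝ))))) := by
  have hbR : (1 : ℝ) ≤ b := by exact_mod_cast hb
  unfold tE
  push_cast
  calc |∑ i, (ev i : ℝ) * ∑ r ∈ range L, if N + (c * L + r) < pl ∧ pl ≤ M + (c * L + r) then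
        (y i (c * L + r) : ℝ) * (b : ℝ) ^ (M + (c * L + r) - pl) else 0|
      ≤ ∑ i, |(ev i : ℝ) * ∑ r ∈ range L, if N + (c * L + r) < pl ∧ pl ≤ M + (c * L + r) then
        (y i (c * L + r) : ℝ) * (b : ℝ) ^ (M + (c * L + r) - pl) else 0| :=
        Finset.abs_sum_le_sum_abs _ _
    _ ≤ ∑ _i : κ, A * (L * (H * ((b : ℝ) ^ (M + c * L - pl) * (b : ℝ) ^ L))) := by
        refine Finset.sum_le_sum fun i _ => ?_
        rw [abs_mul]
        refine mul_le_mul (hev i) ?_ (abs_nonneg _) ((abs_nonneg _).trans (hev i))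
        calc |∑ r ∈ range L, if N + (c * L + r) < pl ∧ pl ≤ M + (c * L + r) then
              (y i (c * L + r) : ℝ) * (b : ℝ) ^ (M + (c * L + r) - pl) else 0|
            ≤ ∑ r ∈ range L, |if N + (c * L + r) < pl ∧ pl ≤ M + (c * L + r) then
              (y i (c * L + r) : ℝ) * (b : ℝ) ^ (M + (c * L + r) - pl) else 0| :=
              Finset.abs_sum_le_sum_abs _ _
          _ ≤ ∑ _r ∈ range L, H * ((b : ℝ) ^ (M + c * L - pl) * (b : ℝ) ^ L) := by
              refine Finset.sum_le_sum fun r hr => ?_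
              have hr' := Finset.mem_range.1 hr
              split_ifs with h
              · rw [abs_mul, abs_of_nonneg
                  (by positivity : (0 : ℝ) ≤ (b : ℝ) ^ (M + (c * L + r) - pl)), ← pow_add]
                exact mul_le_mul (hy _ _) (pow_le_pow_right₀ hbR (by omega)) (by positivity) hH
              · rw [abs_zero]; positivity
          _ = L * (H * ((b : ℝ) ^ (M + c * L - pl) * (b : ℝ) ^ L)) := by
              rw [Finset.sum_const, Finset.card_range, nsmul_eq_mul]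
    _ = (b : ℝ) ^ (M + c * L - pl) * (Fintype.card κ * (A * (L * (H * (b : ℝ) ^ L)))) := by
        rw [Finset.sum_const, Finset.card_univ, nsmul_eq_mul]; ring

lemma abs_tP (hb : 1 ≤ b) {y P : κ → ℕ → ℤ} {H : ℝ} (hH : 0 ≤ H) (hy : ∀ i j, |(y i j : ℝ)| ≤ H)
    {A : ℝ} (hA : 0 ≤ A) (hP : ∀ i n, |(P i n : ℝ)| ≤ A * (b : ℝ) ^ n) :
    |(tP b N M W y P : ℝ)| ≤ ((b ^ (M - N) : ℕ) : ℝ) *
      (Fintype.card κ * (W * (H * (A * ((b ^ (N + W) : ℕ) : ℝ))))) := by
  have hbR : (1 : ℝ) ≤ b := by exact_mod_cast hb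
  unfold tP
  push_cast
  rw [abs_neg, abs_mul, abs_of_nonneg (by positivity : (0 : ℝ) ≤ (b : ℝ) ^ (M - N))]
  refine mul_le_mul_of_nonneg_left ?_ (by positivity)
  calc |∑ i, ∑ j ∈ range W, (y i j : ℝ) * (P i (N + j) : ℝ)|
      ≤ ∑ i, |∑ j ∈ range W, (y i j : ℝ) * (P i (N + j) : ℝ)| := Finset.abs_sum_le_sum_abs _ _
    _ ≤ ∑ _i : κ, W * (H * (A * (b : ℝ) ^ (N + W))) := by
        refine Finset.sum_le_sum fun i _ => ?_
        calc |∑ j ∈ range W, (y i j : ℝ) * (P i (N + j) : ℝ)|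
            ≤ ∑ j ∈ range W, |(y i j : ℝ) * (P i (N + j) : ℝ)| := Finset.abs_sum_le_sum_abs _ _
          _ ≤ ∑ _j ∈ range W, H * (A * (b : ℝ) ^ (N + W)) := by
              refine Finset.sum_le_sum fun j hj => ?_
              have hj' := Finset.mem_range.1 hj
              rw [abs_mul]
              refine mul_le_mul (hy _ _) ((hP _ _).trans ?_) (abs_nonneg _) hH
              exact mul_le_mul_of_nonneg_left (pow_le_pow_right₀ hbR (by omega)) hA
          _ = W * (H * (A * (b : ℝ) ^ (N + W))) := by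
              rw [Finset.sum_const, Finset.card_range, nsmul_eq_mul]
    _ = Fintype.card κ * (W * (H * (A * (b : ℝ) ^ (N + W)))) := by
        rw [Finset.sum_const, Finset.card_univ, nsmul_eq_mul]

lemma abs_form {x : κ → ℝ} {y P : κ → ℕ → ℤ} {H A : ℝ} (hH : 0 ≤ H)
    (hy : ∀ i j, |(y i j : ℝ)| ≤ H)
    (hP : ∀ i n, |x i * (b : ℝ) ^ n - (P i n : ℝ)| ≤ A) :
    |∑ i, ∑ j ∈ range W, (y i j : ℝ) * (x i * (b : ℝ) ^ (M + j) - P i (M + j))| ≤
      Fintype.card κ * (W * (H * A)) := by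
  calc |∑ i, ∑ j ∈ range W, (y i j : ℝ) * (x i * (b : ℝ) ^ (M + j) - P i (M + j))|
      ≤ ∑ i, |∑ j ∈ range W, (y i j : ℝ) * (x i * (b : ℝ) ^ (M + j) - P i (M + j))| :=
        Finset.abs_sum_le_sum_abs _ _
    _ ≤ ∑ _i : κ, W * (H * A) := by
        refine Finset.sum_le_sum fun i _ => ?_
        calc |∑ j ∈ range W, (y i j : ℝ) * (x i * (b : ℝ) ^ (M + j) - P i (M + j))|
            ≤ ∑ j ∈ range W, |(y i j : ℝ) * (x i * (b : ℝ) ^ (M + j) - P i (M + j))| :=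
              Finset.abs_sum_le_sum_abs _ _
          _ ≤ ∑ _j ∈ range W, H * A := by
              refine Finset.sum_le_sum fun j _ => ?_
              rw [abs_mul]
              exact mul_le_mul (hy _ _) (hP _ _) (abs_nonneg _) hH
          _ = W * (H * A) := by rw [Finset.sum_const, Finset.card_range, nsmul_eq_mul]
    _ = Fintype.card κ * (W * (H * A)) := by
        rw [Finset.sum_const, Finset.card_univ, nsmul_eq_mul]

lemma dvd_tG (v : ℕ → ℤ) (c : ℕ) : ((b ^ (M - (c + 1) * L) : ℕ) : ℤ) ∣ tG b N M L v c := by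
  unfold tG
  rw [dvd_neg]
  refine Finset.dvd_sum fun r hr => ?_
  have hr' := Finset.mem_range.1 hr
  split_ifs
  · refine Dvd.dvd.mul_left ?_ _
    push_cast
    apply pow_dvd_pow
    have : (c + 1) * L = c * L + L := by ring
    omega
  · exact dvd_zero _

lemma abs_tG (hb : 1 ≤ b) {v : ℕ → ℤ} {V : ℝ} (hv : ∀ n, |(v n : ℝ)| ≤ V) (c : ℕ) :
    |(tG b N M L v c : ℝ)| ≤ ((b ^ (M - (c + 1) * L) : ℕ) : ℝ) * (L * (V * ((b ^ L : ℕ) : ℝ))) := by
  have hbR : (1 : ℝ) ≤ b := by exact_mod_cast hb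
  have hV : 0 ≤ V := (abs_nonneg _).trans (hv 0)
  unfold tG
  push_cast
  rw [abs_neg]
  calc |∑ r ∈ range L, if N < c * L + r ∧ c * L + r ≤ M then
        (v (c * L + r) : ℝ) * (b : ℝ) ^ (M - (c * L + r)) else 0|
      ≤ ∑ r ∈ range L, |if N < c * L + r ∧ c * L + r ≤ M then
        (v (c * L + r) : ℝ) * (b : ℝ) ^ (M - (c * L + r)) else 0| :=
        Finset.abs_sum_le_sum_abs _ _
    _ ≤ ∑ _r ∈ range L, V * ((b : ℝ) ^ (M - (c + 1) * L) * (b : ℝ) ^ L) := by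
        refine Finset.sum_le_sum fun r hr => ?_
        have hr' := Finset.mem_range.1 hr
        split_ifs with h
        · rw [abs_mul, abs_of_nonneg
            (by positivity : (0 : ℝ) ≤ (b : ℝ) ^ (M - (c * L + r))), ← pow_add]
          refine mul_le_mul (hv _) (pow_le_pow_right₀ hbR ?_) (by positivity) hV
          have : (c + 1) * L = c * L + L := by ring
          omega
        · rw [abs_zero]; positivity
    _ = (b : ℝ) ^ (M - (c + 1) * L) * (L * (V * (b : ℝ) ^ L)) := by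
        rw [Finset.sum_const, Finset.card_range, nsmul_eq_mul]; ring

lemma tG_zero {v : ℕ → ℤ} {c : ℕ} (h : ∀ r < L, N < c * L + r → c * L + r ≤ M → v (c * L + r) = 0) :
    tG b N M L v c = 0 := by
  unfold tG
  rw [neg_eq_zero]
  refine Finset.sum_eq_zero fun r hr => ?_
  split_ifs with h1
  · rw [h r (Finset.mem_range.1 hr) h1.1 h1.2, zero_mul]
  · rfl

lemma abs_rel {y s : κ → ℕ → ℤ} {H A : ℝ} (hH : 0 ≤ H) (hy : ∀ i j, |(y i j : ℝ)| ≤ H)
    (hs : ∀ i n, |(s i n : ℝ)| ≤ A) (n : ℕ) :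
    |((∑ i, ∑ j ∈ range W, y i j * s i (n + j) : ℤ) : ℝ)| ≤
      Fintype.card κ * (W * (H * A)) := by
  push_cast
  calc |∑ i, ∑ j ∈ range W, (y i j : ℝ) * (s i (n + j) : ℝ)|
      ≤ ∑ i, |∑ j ∈ range W, (y i j : ℝ) * (s i (n + j) : ℝ)| := Finset.abs_sum_le_sum_abs _ _
    _ ≤ ∑ _i : κ, W * (H * A) := by
        refine Finset.sum_le_sum fun i _ => ?_
        calc |∑ j ∈ range W, (y i j : ℝ) * (s i (n + j) : ℝ)|
            ≤ ∑ j ∈ range W, |(y i j : ℝ) * (s i (n + j) : ℝ)| := Finset.abs_sum_le_sum_abs _ _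
          _ ≤ ∑ _j ∈ range W, H * A := by
              refine Finset.sum_le_sum fun j _ => ?_
              rw [abs_mul]
              exact mul_le_mul (hy _ _) (hs _ _) (abs_nonneg _) hH
          _ = W * (H * A) := by rw [Finset.sum_const, Finset.card_range, nsmul_eq_mul]
    _ = Fintype.card κ * (W * (H * A)) := by
        rw [Finset.sum_const, Finset.card_univ, nsmul_eq_mul]

lemma tA_zero {y : ℕ → ℤ} {c : ℕ} (h : ∀ r < L, y (c * L + r) = 0) : tA b M L y c = 0 := by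
  unfold tA
  refine Finset.sum_eq_zero fun r hr => ?_
  rw [h r (Finset.mem_range.1 hr), zero_mul]

lemma tE_zero {y : κ → ℕ → ℤ} {pl : ℕ} {ev : κ → ℤ} {c : ℕ} (h : ∀ i, ∀ r < L, y i (c * L + r) = 0) :
    tE b N M L y pl ev c = 0 := by
  unfold tE
  refine Finset.sum_eq_zero fun i _ => ?_
  rw [Finset.sum_eq_zero, mul_zero]
  intro r hr
  rw [h i r (Finset.mem_range.1 hr), zero_mul, ite_self]

lemma tE_zero' {y : κ → ℕ → ℤ} {pl : ℕ} {ev : κ → ℤ} {c : ℕ} (h : M + (c * L + L) < pl) :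
    tE b N M L y pl ev c = 0 := by
  unfold tE
  refine Finset.sum_eq_zero fun i _ => ?_
  rw [Finset.sum_eq_zero, mul_zero]
  intro r hr
  have := Finset.mem_range.1 hr
  rw [if_neg (by omega)]

end single

section along

variable {U : Ultrafilter ℕ}

/-- powers of the base -/
lemma eq_pow (hU : (U : Filter ℕ) ≤ atTop) {b N : ℕ → ℕ} (hb : ∀ᶠ m in U, 2 ≤ b m)
    (hN : ∀ᶠ m in U, 1 ≤ N m)
    (hlog : Tendsto (fun m => (N m : ℝ) * Real.log (b m) / m) U (𝓝 1))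
    {u : ℕ → ℕ} {d : ℝ} (hu : Tendsto (fun m => (u m : ℝ) / N m) U (𝓝 d)) :
    TB.Eq U (fun m => b m ^ u m) d := by
  have h1 := hu.mul hlog
  rw [mul_one] at h1
  intro ε hε
  have h2 := (tendsto_order.1 h1).1 (d - ε) (by linarith)
  have h3 := (tendsto_order.1 h1).2 (d + ε) (by linarith)
  filter_upwards [h2, h3, hb, hN, TB.ev_ge hU 1] with m a1 a2 a3 a4 a5
  have hm : (0 : ℝ) < m := by linarith
  have hNm : (0 : ℝ) < N m := by exact_mod_cast a4
  have hbm : (0 : ℝ) < b m := by exact_mod_cast (by omega : 0 < b m)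
  have h4 : (u m : ℝ) / N m * (N m * Real.log (b m) / m) = u m * Real.log (b m) / m := by
    field_simp
  rw [h4] at a1 a2
  rw [lt_div_iff₀ hm] at a1
  rw [div_lt_iff₀ hm] at a2
  push_cast
  have h5 : (b m : ℝ) ^ u m = Real.exp (u m * Real.log (b m)) := by
    rw [← Real.rpow_natCast, Real.rpow_def_of_pos hbm]; congr 1; ring
  rw [h5]
  exact ⟨Real.exp_le_exp.2 a1.le, Real.exp_le_exp.2 a2.le⟩

lemma sz_N (hU : (U : Filter ℕ) ≤ atTop) {b N : ℕ → ℕ} (hb : ∀ᶠ m in U, 2 ≤ b m)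
    (hlog : Tendsto (fun m => (N m : ℝ) * Real.log (b m) / m) U (𝓝 1)) :
    TB.Sz U (fun m => (N m : ℝ)) 0 := by
  have hl2 : 0 < Real.log 2 := Real.log_pos (by norm_num)
  have h3 := (tendsto_order.1 hlog).2 2 (by norm_num)
  refine TB.Sz.of_le (w := fun m : ℕ => (2 / Real.log 2) * (m : ℝ)) ?_ ?_
  · have := (TB.Sz.const hU (2 / Real.log 2)).mul (TB.Sz.nat hU)
    rwa [add_zero] at this
  · filter_upwards [hb, h3, TB.ev_ge hU 1] with m a1 a2 a3
    have hm : (0 : ℝ) < m := by linarith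
    rw [div_lt_iff₀ hm] at a2
    have h4 : Real.log 2 ≤ Real.log (b m) := Real.log_le_log (by norm_num) (by exact_mod_cast a1)
    have h5 : (N m : ℝ) * Real.log 2 ≤ N m * Real.log (b m) :=
      mul_le_mul_of_nonneg_left h4 (Nat.cast_nonneg _)
    rw [abs_of_nonneg (Nat.cast_nonneg _), abs_of_nonneg (by positivity), div_mul_eq_mul_div,
      le_div_iff₀ hl2]
    linarith

lemma sz_b (hU : (U : Filter ℕ) ≤ atTop) {b N : ℕ → ℕ} (hb : ∀ᶠ m in U, 2 ≤ b m)
    (hN : Tendsto N U atTop)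
    (hlog : Tendsto (fun m => (N m : ℝ) * Real.log (b m) / m) U (𝓝 1)) :
    TB.Sz U (fun m => (b m : ℝ)) 0 := by
  have h1 : Tendsto (fun m => ((1 : ℕ) : ℝ) / (N m : ℝ)) U (𝓝 0) := by
    have := (tendsto_natCast_atTop_atTop (R := ℝ)).comp hN
    exact tendsto_const_nhds.div_atTop this
  have h2 := (eq_pow hU hb (hN.eventually_ge_atTop 1) hlog (u := fun _ => 1) h1).toSz
  simpa using h2

end along

end Pool.Agent.V5helper55.DM
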