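import Mathlib
import Pool.Agent.V5helper55.DM.Cut
import Pool.Agent.V5helper55.DM.Sizes

/-!
# The subspace theorem for relations between digits
-/

set_option autoImplicit false

open Filter Topology Finset

namespace Pool.Agent.V5helper55.DM

variable {U : Ultrafilter ℕ}

lemma exists_lim_ratio {u N : ℕ → ℕ} {C : ℝ} (hN : ∀ᶠ m in U, 1 ≤ N m)
    (hu : ∀ᶠ m in U, (u m : ℝ) ≤ C * N m) :
    ∃ τ : ℝ, Tendsto (fun m => (u m : ℝ) / N m) U (𝓝 τ) := by
  obtain ⟨τ, _, hlim⟩ := (isCompact_Icc (a := (0 : ℝ)) (b := C)).ultrafilter_le_nhds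
    (U.map fun m => (u m : ℝ) / N m) (by
      rw [le_principal_iff]
      change ∀ᶠ m in U, (u m : ℝ) / N m ∈ Set.Icc (0 : ℝ) C
      filter_upwards [hN, hu] with m h1 h2
      have hNm : (0 : ℝ) < N m := by exact_mod_cast h1
      exact ⟨by positivity, by rwa [div_le_iff₀ hNm]⟩)
  exact ⟨τ, hlim⟩

lemma cast_sub_max (a c : ℕ) : ((a - c : ℕ) : ℝ) = max ((a : ℝ) - c) 0 := by
  rcases le_total c a with h | h
  · rw [Nat.cast_sub h, max_eq_left]
    have : (c : ℝ) ≤ a := by exact_mod_cast h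
    linarith
  · rw [Nat.sub_eq_zero_of_le h, Nat.cast_zero, max_eq_right]
    have : (a : ℝ) ≤ c := by exact_mod_cast h
    linarith

/-- the condition of the subspace theorem for all sets of coordinates -/
lemma gain {α β : Type} [DecidableEq α] [DecidableEq β] {η μ C : ℝ} (hη : 0 < η)
    (𝓒 : Finset α) (S : Finset β) (a : α → ℝ) (ha : ∀ p, 0 ≤ a p) (q dE : β → ℝ)
    (hdE : ∀ p ∈ S, dE p = μ - q p)
    (hbal : ∀ j ∈ S, ((S.filter fun i => i ≠ j ∧ q j ≤ q i).card : ℝ) * η < μ - q j)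
    (htot : 1 + S.card * η + 𝓒.card * η < μ) :
    ∀ I ⊆ 𝓒.disjSum (S.disjSum (Finset.univ : Finset Unit)), I.Nonempty → ∃ j ∈ I,
      ∑ i ∈ I.erase j, (Sum.elim (fun _ => η) (Sum.elim (fun _ => η) (fun _ => C)) :
        α ⊕ (β ⊕ Unit) → ℝ) i + 0 -
        (Sum.elim (fun p => μ + a p) (Sum.elim dE (fun _ => μ - 1)) : α ⊕ (β ⊕ Unit) → ℝ) j < 0 := by
  classical
  intro I hI hne
  have hcard : ∀ I' ⊆ 𝓒.disjSum (S.disjSum (Finset.univ : Finset Unit)),
      Sum.inr (Sum.inr ()) ∉ I' →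
      ∑ i ∈ I', (Sum.elim (fun _ => η) (Sum.elim (fun _ => η) (fun _ => C)) :
        α ⊕ (β ⊕ Unit) → ℝ) i = I'.card * η := by
    intro I' _ hnot
    rw [Finset.sum_congr rfl (g := fun _ => η), Finset.sum_const, nsmul_eq_mul]
    intro i hi
    rcases i with p | p | p
    · rfl
    · rfl
    · exact absurd hi hnot
  have hle : ∀ I' ⊆ 𝓒.disjSum (S.disjSum (Finset.univ : Finset Unit)),
      Sum.inr (Sum.inr ()) ∉ I' → (I'.card : ℝ) ≤ 𝓒.card + S.card := by
    intro I' hI' hnot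
    have h1 : I'.card ≤ (𝓒.disjSum (S.disjSum (∅ : Finset Unit))).card := by
      apply Finset.card_le_card
      intro i hi
      have h2 := hI' hi
      rcases i with p | p | p
      · simpa using h2
      · simpa using h2
      · exact absurd hi hnot
    rw [Finset.card_disjSum, Finset.card_disjSum, Finset.card_empty] at h1
    exact_mod_cast (by omega : I'.card ≤ 𝓒.card + S.card)
  by_cases hp : (Sum.inr (Sum.inr ()) : α ⊕ (β ⊕ Unit)) ∈ I
  · refine ⟨_, hp, ?_⟩
    have h1 := hcard (I.erase (Sum.inr (Sum.inr ()))) ((Finset.erase_subset _ _).trans hI) (by simp)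
    have h2 := hle (I.erase (Sum.inr (Sum.inr ()))) ((Finset.erase_subset _ _).trans hI) (by simp)
    rw [h1]
    simp only [Sum.elim_inr]
    nlinarith
  · by_cases hA : ∃ p : α, (Sum.inl p : α ⊕ (β ⊕ Unit)) ∈ I
    · obtain ⟨p, hpI⟩ := hA
      refine ⟨_, hpI, ?_⟩
      have hsub : I.erase (Sum.inl p) ⊆ I := Finset.erase_subset _ _
      have h1 := hcard (I.erase (Sum.inl p)) (hsub.trans hI) (fun h => hp (hsub h))
      have h2 := hle (I.erase (Sum.inl p)) (hsub.trans hI) (fun h => hp (hsub h))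
      rw [h1]
      simp only [Sum.elim_inl]
      have := ha p
      nlinarith
    · -- only changed places
      push Not at hA
      have hall : ∀ i ∈ I, ∃ p ∈ S, i = Sum.inr (Sum.inl p) := by
        intro i hi
        have h2 := hI hi
        rcases i with p | p | p
        · exact absurd hi (hA p)
        · exact ⟨p, by simpa using h2, rfl⟩
        · exact absurd hi hp
      let I' : Finset β := S.filter fun p => (Sum.inr (Sum.inl p) : α ⊕ (β ⊕ Unit)) ∈ I
      have hI'ne : I'.Nonempty := by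
        obtain ⟨i, hi⟩ := hne
        obtain ⟨p, hpS, rfl⟩ := hall i hi
        exact ⟨p, Finset.mem_filter.2 ⟨hpS, hi⟩⟩
      obtain ⟨j, hj, hmin⟩ := Finset.exists_min_image I' q hI'ne
      obtain ⟨hjS, hjI⟩ := Finset.mem_filter.1 hj
      refine ⟨_, hjI, ?_⟩
      have hsub : I.erase (Sum.inr (Sum.inl j)) ⊆ I := Finset.erase_subset _ _
      rw [hcard _ (hsub.trans hI) (fun h => hp (hsub h))]
      simp only [Sum.elim_inr, Sum.elim_inl]
      rw [hdE j hjS]
      have h1 : (I.erase (Sum.inr (Sum.inl j))).card ≤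
          (S.filter fun i => i ≠ j ∧ q j ≤ q i).card := by
        have h2 : I.erase (Sum.inr (Sum.inl j)) ⊆
            (S.filter fun i => i ≠ j ∧ q j ≤ q i).image
              (fun p => (Sum.inr (Sum.inl p) : α ⊕ (β ⊕ Unit))) := by
          intro i hi
          obtain ⟨h3, h4⟩ := Finset.mem_erase.1 hi
          obtain ⟨p, hpS, rfl⟩ := hall i h4
          refine Finset.mem_image.2 ⟨p, Finset.mem_filter.2 ⟨hpS, ?_, ?_⟩, rfl⟩
          · rintro rfl
            exact h3 rfl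
          · exact hmin p (Finset.mem_filter.2 ⟨hpS, h4⟩)
        exact (Finset.card_le_card h2).trans Finset.card_image_le
      have h1R : ((I.erase (Sum.inr (Sum.inl j))).card : ℝ) ≤
          ((S.filter fun i => i ≠ j ∧ q j ≤ q i).card : ℝ) := by exact_mod_cast h1
      have h2 := hbal j hjS
      nlinarith

/-- **The core.** -/
theorem core {κ : Type} [Fintype κ] [DecidableEq κ] {E R R' : ℕ} (hU : (U : Filter ℕ) ≤ atTop)
    (x : κ → ℝ) (hx : ∀ i, IsAlgebraic ℚ (x i))
    (hlin : ∀ (c : κ → ℤ) (z : ℤ), ∑ i, x i * (c i : ℝ) = z → ∀ i, c i = 0)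
    (b N : ℕ → ℕ) (hb : ∀ᶠ m in U, 2 ≤ b m) (hN : Tendsto N U atTop)
    (hlog : Tendsto (fun m => (N m : ℝ) * Real.log (b m) / m) U (𝓝 1))
    {B κ₀ : ℕ} (hB : 2 ≤ B) (hBdiv : ∀ᶠ m in U, b m ^ N m ∣ B ^ (κ₀ * m))
    (P s : ℕ → κ → ℕ → ℤ) {A₀ : ℝ}
    (hP : ∀ᶠ m in U, ∀ i n, |x i * (b m : ℝ) ^ n - (P m i n : ℝ)| ≤ A₀)
    (pl : ℕ → Fin E → ℕ) (ev : ℕ → Fin E → κ → ℤ)
    (hs : ∀ᶠ m in U, ∀ i n, s m i (n + 1) = P m i (n + 1) - b m * P m i n +
      ∑ l, if n + 1 = pl m l then ev m l i else 0)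
    {A : ℝ} (hev : ∀ᶠ m in U, ∀ l i, |(ev m l i : ℝ)| ≤ A * b m)
    (hsb : ∀ᶠ m in U, ∀ i n, |(s m i n : ℝ)| ≤ A * b m)
    {C₁ : ℝ} (hpl : ∀ᶠ m in U, ∀ l, (pl m l : ℝ) ≤ C₁ * N m)
    (y : ℕ → κ → ℕ → ℤ) (H : ℕ → ℝ) (hH : TB.Sz U H 0)
    (hy : ∀ᶠ m in U, ∀ i j, |(y m i j : ℝ)| ≤ H m)
    {η : ℝ} (hη : 0 < η) (L : ℕ → ℕ) (hL : Tendsto (fun m => (L m : ℝ) / N m) U (𝓝 η))
    {μ w gg : ℝ} (hR' : μ < R' * η)
    (hgap : ∀ᶠ m in U, (((univ : Finset (Fin R')).filter fun c : Fin R' =>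
      ∃ r < L m, N m < (c : ℕ) * L m + r ∧ (((c : ℕ) * L m + r : ℕ) : ℝ) ≤ μ * N m ∧
        ∑ i, ∑ j ∈ range (R * L m), y m i j * s m i ((c : ℕ) * L m + r + j) ≠ 0).card : ℝ) * η ≤ gg)
    (hact : ∀ᶠ m in U, (((univ : Finset (κ × Fin R)).filter fun p =>
      ∃ r < L m, y m p.1 (p.2 * L m + r) ≠ 0).card : ℝ) * η ≤ w)
    (hw : (E + 1) * w + gg + 1 < μ) :
    ∀ᶠ m in U, ∀ i, ∑ j ∈ range (R * L m), y m i j * (b m : ℤ) ^ j = 0 := by
  classical
  have hN1 : ∀ᶠ m in U, 1 ≤ N m := hN.eventually_ge_atTop 1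
  have hNR : Tendsto (fun m => (N m : ℝ)) U atTop :=
    (tendsto_natCast_atTop_atTop (R := ℝ)).comp hN
  -- the limits of the changed places
  have hlim : ∀ l, ∃ τ : ℝ, Tendsto (fun m => (pl m l : ℝ) / N m) U (𝓝 τ) := fun l =>
    exists_lim_ratio hN1 (hpl.mono fun m h => h l)
  choose p hp using hlim
  -- the active blocks
  let act : ℕ → Finset (κ × Fin R) := fun m => (univ : Finset (κ × Fin R)).filter fun p =>
      ∃ r < L m, y m p.1 (p.2 * L m + r) ≠ 0
  obtain ⟨𝓒, h𝓒⟩ := Ultrafilter.eq_pure_of_finite (U.map act)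
  have h𝓒' : ∀ᶠ m in U, act m = 𝓒 := by
    have h1 : ({𝓒} : Set (Finset (κ × Fin R))) ∈ U.map act := by
      rw [h𝓒]
      exact Set.mem_singleton 𝓒
    exact h1
  have h𝓒w : (𝓒.card : ℝ) * η ≤ w := by
    obtain ⟨m, h1, h2⟩ := (hact.and h𝓒').exists
    rw [← h2]
    exact h1
  -- the gaps
  let vv : ℕ → ℕ → ℤ := fun m n => ∑ i, ∑ j ∈ range (R * L m), y m i j * s m i (n + j)
  let gact : ℕ → Finset (Fin R') := fun m => (univ : Finset (Fin R')).filter fun c : Fin R' =>
      ∃ r < L m, N m < (c : ℕ) * L m + r ∧ (((c : ℕ) * L m + r : ℕ) : ℝ) ≤ μ * N m ∧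
        vv m ((c : ℕ) * L m + r) ≠ 0
  obtain ⟨𝓖, h𝓖⟩ := Ultrafilter.eq_pure_of_finite (U.map gact)
  have h𝓖' : ∀ᶠ m in U, gact m = 𝓖 := by
    have h1 : ({𝓖} : Set (Finset (Fin R'))) ∈ U.map gact := by
      rw [h𝓖]
      exact Set.mem_singleton 𝓖
    exact h1
  have h𝓖w : (𝓖.card : ℝ) * η ≤ gg := by
    obtain ⟨m, h1, h2⟩ := (hgap.and h𝓖').exists
    rw [← h2]
    exact h1
  -- the right end
  let F : Finset ((Fin E × Fin R) ⊕ Fin R') :=
    ((univ : Finset (Fin E)) ×ˢ (𝓒.image Prod.snd)).disjSum 𝓖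
  let q : (Fin E × Fin R) ⊕ Fin R' → ℝ :=
    Sum.elim (fun c => p c.1 - (c.2 : ℕ) * η) (fun c => ((c : ℕ) + 1) * η)
  have hFcard : (F.card : ℝ) ≤ E * 𝓒.card + 𝓖.card := by
    have h1 : F.card ≤ E * 𝓒.card + 𝓖.card := by
      simp only [F]
      rw [Finset.card_disjSum, Finset.card_product, Finset.card_univ, Fintype.card_fin]
      exact Nat.add_le_add_right (Nat.mul_le_mul_left _ Finset.card_image_le) _
    exact_mod_cast h1
  obtain ⟨μ', hμ', S, hSF, hS1, hS2, hS3, hS4⟩ := cut hη q F (w := 𝓒.card * η) μ (by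
    have h1 : (F.card : ℝ) * η ≤ E * (𝓒.card * η) + 𝓖.card * η := by nlinarith
    have h2 : (E : ℝ) * (𝓒.card * η) ≤ E * w := mul_le_mul_of_nonneg_left h𝓒w (Nat.cast_nonneg _)
    nlinarith)
  have hS0 : (0 : ℝ) ≤ S.card * η := by positivity
  have h𝓒0 : (0 : ℝ) ≤ 𝓒.card * η := by positivity
  have hμ1 : 1 < μ' := by linarith
  let M : ℕ → ℕ := fun m => ⌊μ' * (N m : ℝ)⌋₊
  have hM : Tendsto (fun m => (M m : ℝ) / N m) U (𝓝 μ') :=
    (tendsto_nat_floor_mul_div_atTop (R := ℝ) (by linarith : 0 ≤ μ')).comp hNR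
  have hNM : ∀ m, N m ≤ M m := by
    intro m
    apply Nat.le_floor
    have : (0 : ℝ) ≤ N m := Nat.cast_nonneg _
    nlinarith
  have hMle : ∀ m, (M m : ℝ) ≤ μ' * N m := by
    intro m
    have h0 : (0 : ℝ) ≤ N m := Nat.cast_nonneg _
    exact Nat.floor_le (by nlinarith)
  have hMle' : ∀ m, (M m : ℝ) ≤ μ * N m := by
    intro m
    have h7 : μ' * (N m : ℝ) ≤ μ * N m := mul_le_mul_of_nonneg_right hμ' (Nat.cast_nonneg _)
    exact (hMle m).trans h7
  have hMR : ∀ᶠ m in U, M m < R' * L m := by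
    have h1 : Tendsto (fun m => (R' : ℝ) * ((L m : ℝ) / N m)) U (𝓝 (R' * η)) := hL.const_mul _
    filter_upwards [(tendsto_order.1 h1).1 μ hR', hN1] with m a1 a2
    have hNm : (0 : ℝ) < N m := by exact_mod_cast a2
    rw [← mul_div_assoc, lt_div_iff₀ hNm] at a1
    have h2 : ((M m : ℕ) : ℝ) < ((R' * L m : ℕ) : ℝ) := by
      push_cast
      exact lt_of_le_of_lt (hMle' m) a1
    exact_mod_cast h2
  -- the coordinates
  let T : ℕ → (κ × Fin R) ⊕ (((Fin E × Fin R) ⊕ Fin R') ⊕ Unit) → ℤ := fun m =>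
    Sum.elim (fun c => tA (b m) (M m) (L m) (y m c.1) c.2)
      (Sum.elim (Sum.elim
        (fun c => tE (b m) (N m) (M m) (L m) (y m) (pl m c.1) (ev m c.1) c.2)
        (fun c => tG (b m) (N m) (M m) (L m) (vv m) c))
        (fun _ => tP (b m) (N m) (M m) (R * L m) (y m) (P m)))
  let e : ℕ → (κ × Fin R) ⊕ (((Fin E × Fin R) ⊕ Fin R') ⊕ Unit) → ℕ := fun m =>
    Sum.elim (fun c => M m + c.2 * L m)
      (Sum.elim (Sum.elim (fun c => M m + c.2 * L m - pl m c.1)
        (fun c => M m - ((c : ℕ) + 1) * L m)) (fun _ => M m - N m))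
  let D : ℕ → (κ × Fin R) ⊕ (((Fin E × Fin R) ⊕ Fin R') ⊕ Unit) → ℕ := fun m i => b m ^ e m i
  let φ : (κ × Fin R) ⊕ (((Fin E × Fin R) ⊕ Fin R') ⊕ Unit) → ℝ :=
    Sum.elim (fun _ => η) (Sum.elim (fun _ => η) (fun _ => 1 + R * η))
  let dE : (Fin E × Fin R) ⊕ Fin R' → ℝ := Sum.elim
    (fun c => max (μ' + (c.2 : ℕ) * η - p c.1) 0) (fun c => max (μ' - ((c : ℕ) + 1) * η) 0)
  let d : (κ × Fin R) ⊕ (((Fin E × Fin R) ⊕ Fin R') ⊕ Unit) → ℝ :=
    Sum.elim (fun c => μ' + (c.2 : ℕ) * η) (Sum.elim dE (fun _ => μ' - 1))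
  let ν : (κ × Fin R) ⊕ (((Fin E × Fin R) ⊕ Fin R') ⊕ Unit) → ℝ :=
    Sum.elim (fun c => x c.1) (fun _ => 1)
  let J : Finset ((κ × Fin R) ⊕ (((Fin E × Fin R) ⊕ Fin R') ⊕ Unit)) :=
    𝓒.disjSum (S.disjSum (Finset.univ : Finset Unit))
  -- the limits of the exponents
  have hML : ∀ c : ℕ, Tendsto (fun m => ((M m + c * L m : ℕ) : ℝ) / N m) U (𝓝 (μ' + c * η)) := by
    intro c
    have h1 := hM.add (hL.const_mul (c : ℝ))
    refine h1.congr fun m => ?_
    push_cast
    ring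
  have he : ∀ i, Tendsto (fun m => (e m i : ℝ) / N m) U (𝓝 (d i)) := by
    intro i
    rcases i with c | (c | c) | c
    · exact hML c.2
    · have h1 : Tendsto (fun m => max (((M m + c.2 * L m : ℕ) : ℝ) / N m - (pl m c.1 : ℝ) / N m) 0)
          U (𝓝 (max (μ' + (c.2 : ℕ) * η - p c.1) 0)) :=
        ((hML c.2).sub (hp c.1)).max tendsto_const_nhds
      refine h1.congr' ?_
      filter_upwards [hN1] with m hm
      have hNm : (0 : ℝ) < N m := by exact_mod_cast hm
      simp only [e, Sum.elim_inr, Sum.elim_inl]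
      rw [cast_sub_max, ← max_div_div_right hNm.le, zero_div, sub_div]
    · have h1 : Tendsto (fun m => max ((M m : ℝ) / N m - (((c : ℕ) + 1 : ℕ) : ℝ) *
          ((L m : ℝ) / N m)) 0) U (𝓝 (max (μ' - (((c : ℕ) + 1 : ℕ) : ℝ) * η) 0)) :=
        (hM.sub (hL.const_mul _)).max tendsto_const_nhds
      have h2 : d (Sum.inr (Sum.inl (Sum.inr c))) = max (μ' - (((c : ℕ) + 1 : ℕ) : ℝ) * η) 0 := by
        simp only [d, dE, Sum.elim_inr, Sum.elim_inl]
        push_cast
        ring_nf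
      rw [h2]
      refine h1.congr' ?_
      filter_upwards [hN1] with m hm
      have hNm : (0 : ℝ) < N m := by exact_mod_cast hm
      simp only [e, Sum.elim_inr, Sum.elim_inl]
      rw [cast_sub_max, ← max_div_div_right hNm.le, zero_div, sub_div]
      push_cast
      rw [mul_div_assoc]
    · have h1 : Tendsto (fun m => (M m : ℝ) / N m - (N m : ℝ) / N m) U (𝓝 (μ' - 1)) := by
        refine hM.sub ?_
        refine tendsto_const_nhds.congr' ?_
        filter_upwards [hN1] with m hm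
        have hNm : (0 : ℝ) < N m := by exact_mod_cast hm
        rw [div_self hNm.ne']
      refine h1.congr fun m => ?_
      simp only [e, Sum.elim_inr]
      rw [Nat.cast_sub (hNM m), sub_div]
  have hd : ∀ i, TB.Eq U (fun m => D m i) (d i) := fun i => eq_pow hU hb hN1 hlog (he i)
  -- the exponent of `B`
  let Q : ℕ := ∑ i : (κ × Fin R) ⊕ (((Fin E × Fin R) ⊕ Fin R') ⊕ Unit), (⌈d i⌉₊ + 1)
  have hQ : ∀ i, d i + 1 ≤ Q := by
    intro i
    have h1 : ⌈d i⌉₊ + 1 ≤ Q := Finset.single_le_sum (f := fun i => ⌈d i⌉₊ + 1)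
      (fun _ _ => Nat.zero_le _) (Finset.mem_univ i)
    have h2 : ((⌈d i⌉₊ + 1 : ℕ) : ℝ) ≤ Q := by exact_mod_cast h1
    push_cast at h2
    have := Nat.le_ceil (d i)
    linarith
  have hD : ∀ i, ∀ᶠ m in U, D m i ∣ B ^ (κ₀ * Q * m) := by
    intro i
    have h1 := (tendsto_order.1 (he i)).2 (d i + 1) (by linarith)
    filter_upwards [h1, hN1, hBdiv] with m a1 a2 a3
    have hNm : (0 : ℝ) < N m := by exact_mod_cast a2
    rw [div_lt_iff₀ hNm] at a1
    have h2 : (e m i : ℝ) ≤ Q * N m := by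
      have := mul_le_mul_of_nonneg_right (hQ i) hNm.le
      linarith
    have h3 : e m i ≤ N m * Q := by
      have : ((e m i : ℕ) : ℝ) ≤ ((N m * Q : ℕ) : ℝ) := by push_cast; linarith
      exact_mod_cast this
    calc D m i ∣ b m ^ (N m * Q) := pow_dvd_pow _ h3
      _ = (b m ^ N m) ^ Q := pow_mul _ _ _
      _ ∣ (B ^ (κ₀ * m)) ^ Q := pow_dvd_pow_of_dvd a3 Q
      _ = B ^ (κ₀ * Q * m) := by rw [← pow_mul]; congr 1; ring
  have hdiv : ∀ i, ∀ᶠ m in U, (D m i : ℤ) ∣ T m i := by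
    intro i
    refine Eventually.of_forall fun m => ?_
    rcases i with c | (c | c) | c
    · exact dvd_tA _ _
    · exact dvd_tE _ _ _ _
    · exact dvd_tG _ _
    · exact dvd_tP _ _
  -- sizes
  have hSzN := sz_N hU hb hlog
  have hSzb := sz_b hU hb hN hlog
  have hSzL : TB.Sz U (fun m => (L m : ℝ)) 0 := by
    have h1 := (TB.Sz.const hU (η + 1)).mul hSzN
    rw [add_zero] at h1
    refine h1.of_le ?_
    filter_upwards [(tendsto_order.1 hL).2 (η + 1) (by linarith), hN1] with m a1 a2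
    have hNm : (0 : ℝ) < N m := by exact_mod_cast a2
    rw [div_lt_iff₀ hNm] at a1
    rw [abs_of_nonneg (Nat.cast_nonneg _), abs_of_nonneg (by positivity)]
    exact a1.le
  have hbL : TB.Sz U (fun m => ((b m ^ L m : ℕ) : ℝ)) η := (eq_pow hU hb hN1 hlog hL).toSz
  have hRL : Tendsto (fun m => ((N m + R * L m : ℕ) : ℝ) / N m) U (𝓝 (1 + R * η)) := by
    have h1 : Tendsto (fun m => (N m : ℝ) / N m) U (𝓝 1) := by
      refine tendsto_const_nhds.congr' ?_
      filter_upwards [hN1] with m hm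
      have hNm : (0 : ℝ) < N m := by exact_mod_cast hm
      rw [div_self hNm.ne']
    have h2 := h1.add (hL.const_mul (R : ℝ))
    refine h2.congr fun m => ?_
    push_cast
    ring
  have hbRL : TB.Sz U (fun m => ((b m ^ (N m + R * L m) : ℕ) : ℝ)) (1 + R * η) :=
    (eq_pow hU hb hN1 hlog hRL).toSz
  have hRL' : TB.Sz U (fun m => ((R * L m : ℕ) : ℝ)) 0 := by
    have h2 := (TB.Sz.const hU (R : ℝ)).mul hSzL
    rw [add_zero] at h2
    refine h2.of_le (Eventually.of_forall fun m => ?_)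
    push_cast
    exact le_refl _
  have hHabs : TB.Sz U (fun m => |H m|) 0 := hH.of_le (Eventually.of_forall fun m => by rw [abs_abs])
  have hyabs : ∀ᶠ m in U, ∀ i j, |(y m i j : ℝ)| ≤ |H m| := by
    filter_upwards [hy] with m hm i j
    exact (hm i j).trans (le_abs_self _)
  let X : ℝ := ∑ i, |x i| + |A₀|
  have hX0 : 0 ≤ X := by positivity
  have hPabs : ∀ᶠ m in U, ∀ i n, |(P m i n : ℝ)| ≤ X * (b m : ℝ) ^ n := by
    filter_upwards [hP, hb] with m h1 h2 i n
    have hbR : (1 : ℝ) ≤ (b m : ℝ) ^ n := one_le_pow₀ (by exact_mod_cast (by omega : 1 ≤ b m))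
    have h3 := (h1 i n).trans (le_abs_self A₀)
    have h4 : |(P m i n : ℝ)| ≤ |x i * (b m : ℝ) ^ n| + |A₀| := by
      have h5 : (P m i n : ℝ) = x i * (b m : ℝ) ^ n - (x i * (b m : ℝ) ^ n - P m i n) := by ring
      rw [h5]
      exact (abs_sub _ _).trans (by linarith)
    rw [abs_mul, abs_of_nonneg (by positivity : (0 : ℝ) ≤ (b m : ℝ) ^ n)] at h4
    have h6 : |x i| ≤ ∑ i, |x i| := Finset.single_le_sum (f := fun i => |x i|)
      (fun _ _ => abs_nonneg _) (Finset.mem_univ i)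
    simp only [X]
    have h7 := abs_nonneg A₀
    nlinarith
  have fin : ∀ (φ' : ℝ) (t : ℕ → ℤ) (D' : ℕ → ℕ) (z : ℕ → ℝ), TB.Sz U z φ' →
      (∀ᶠ m in U, |(t m : ℝ)| ≤ D' m * z m) →
      ∀ ε : ℝ, 0 < ε → ∀ᶠ m : ℕ in U, |(t m : ℝ)| ≤ D' m * Real.exp ((φ' + ε) * (m : ℝ)) := by
    intro φ' t D' z hz ht ε hε
    filter_upwards [hz ε hε, ht] with m h1 h2
    refine h2.trans (mul_le_mul_of_nonneg_left ?_ (Nat.cast_nonneg _))
    exact (le_abs_self _).trans h1
  have hT : ∀ i, ∀ ε : ℝ, 0 < ε → ∀ᶠ m : ℕ in U,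
      |(T m i : ℝ)| ≤ D m i * Real.exp ((φ i + ε) * (m : ℝ)) := by
    intro i
    rcases i with c | (c | c) | c
    · refine fin η _ _ (fun m => (L m : ℝ) * (|H m| * ((b m ^ L m : ℕ) : ℝ))) ?_ ?_
      · have h1 := hSzL.mul (hHabs.mul hbL)
        rwa [zero_add, zero_add] at h1
      · filter_upwards [hyabs, hb] with m h1 h2
        exact abs_tA (by omega) (h1 c.1) c.2
    · refine fin η _ _ (fun m => (Fintype.card κ : ℝ) *
        ((A * b m) * ((L m : ℝ) * (|H m| * ((b m ^ L m : ℕ) : ℝ))))) ?_ ?_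
      · have h1 := (TB.Sz.const hU (Fintype.card κ : ℝ)).mul
          (((TB.Sz.const hU A).mul hSzb).mul (hSzL.mul (hHabs.mul hbL)))
        simpa only [zero_add, add_zero] using h1
      · filter_upwards [hyabs, hb, hev] with m h1 h2 h3
        exact abs_tE (by omega) (abs_nonneg _) h1 _ (h3 c.1) c.2
    · refine fin η _ _ (fun m => (L m : ℝ) * (((Fintype.card κ : ℝ) *
        (((R * L m : ℕ) : ℝ) * (|H m| * (A * b m)))) * ((b m ^ L m : ℕ) : ℝ))) ?_ ?_
      · have h1 := hSzL.mul (((TB.Sz.const hU (Fintype.card κ : ℝ)).mul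
          (hRL'.mul (hHabs.mul ((TB.Sz.const hU A).mul hSzb)))).mul hbL)
        simpa only [zero_add, add_zero] using h1
      · filter_upwards [hyabs, hb, hsb] with m h1 h2 h3
        exact abs_tG (by omega) (fun n => abs_rel (abs_nonneg _) h1 h3 n) c
    · refine fin (1 + R * η) _ _ (fun m => (Fintype.card κ : ℝ) *
        (((R * L m : ℕ) : ℝ) * (|H m| * (X * ((b m ^ (N m + R * L m) : ℕ) : ℝ))))) ?_ ?_
      · have h1 := (TB.Sz.const hU (Fintype.card κ : ℝ)).mul
          (hRL'.mul (hHabs.mul ((TB.Sz.const hU X).mul hbRL)))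
        simpa only [zero_add, add_zero] using h1
      · filter_upwards [hyabs, hb, hPabs] with m h1 h2 h3
        exact abs_tP (by omega) (abs_nonneg _) h1 hX0 h3
  -- the sum of the coordinates
  have hzero : ∀ᶠ m in U, ∀ i, i ∉ J → T m i = 0 := by
    rw [eventually_all]
    intro i
    rcases i with c | (c | c) | c
    · filter_upwards [h𝓒'] with m hm hc
      have hc' : c ∉ act m := by
        rw [hm]
        intro h
        exact hc (by simpa [J] using h)
      apply tA_zero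
      intro r hr
      by_contra h
      exact hc' (Finset.mem_filter.2 ⟨Finset.mem_univ _, r, hr, h⟩)
    · by_cases hcF : (Sum.inl c : (Fin E × Fin R) ⊕ Fin R') ∈ F
      · by_cases hcS : (Sum.inl c : (Fin E × Fin R) ⊕ Fin R') ∈ S
        · refine Eventually.of_forall fun m h => absurd ?_ h
          simp [J, hcS]
        · have h1 := hS2 _ hcF hcS
          -- the place is far to the right
          have h2 : Tendsto (fun m => (pl m c.1 : ℝ) / N m -
              ((M m + (c.2 * L m + L m) : ℕ) : ℝ) / N m) U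
              (𝓝 (p c.1 - (μ' + ((c.2 : ℕ) * η + η)))) := by
            refine (hp c.1).sub ?_
            have h3 := hM.add ((hL.const_mul ((c.2 : ℕ) : ℝ)).add hL)
            refine h3.congr fun m => ?_
            push_cast
            ring
          have h3 : 0 < p c.1 - (μ' + ((c.2 : ℕ) * η + η)) := by
            simp only [q, Sum.elim_inl] at h1
            linarith
          filter_upwards [(tendsto_order.1 h2).1 0 h3, hN1] with m a1 a2 _
          have hNm : (0 : ℝ) < N m := by exact_mod_cast a2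
          apply tE_zero'
          rw [← sub_div] at a1
          have h4 : 0 < (pl m c.1 : ℝ) - ((M m + (c.2 * L m + L m) : ℕ) : ℝ) := by
            by_contra h5
            push Not at h5
            exact absurd a1 (not_lt.2 (div_nonpos_of_nonpos_of_nonneg h5 hNm.le))
          have h5 : ((M m + (c.2 * L m + L m) : ℕ) : ℝ) < (pl m c.1 : ℝ) := by linarith
          exact_mod_cast h5
      · filter_upwards [h𝓒'] with m hm _
        apply tE_zero
        intro i r hr
        by_contra h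
        apply hcF
        simp only [F, Finset.inl_mem_disjSum]
        refine Finset.mem_product.2 ⟨Finset.mem_univ _, Finset.mem_image.2 ⟨(i, c.2), ?_, rfl⟩⟩
        rw [← hm]
        exact Finset.mem_filter.2 ⟨Finset.mem_univ _, r, hr, h⟩
    · by_cases hcF : (Sum.inr c : (Fin E × Fin R) ⊕ Fin R') ∈ F
      · by_cases hcS : (Sum.inr c : (Fin E × Fin R) ⊕ Fin R') ∈ S
        · refine Eventually.of_forall fun m h => absurd ?_ h
          simp [J, hcS]
        · have h1 := hS2 _ hcF hcS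
          have h2 : Tendsto (fun m => ((c : ℕ) : ℝ) * ((L m : ℝ) / N m) - (M m : ℝ) / N m) U
              (𝓝 (((c : ℕ) : ℝ) * η - μ')) := (hL.const_mul _).sub hM
          have h3 : 0 < ((c : ℕ) : ℝ) * η - μ' := by
            simp only [q, Sum.elim_inr] at h1
            linarith
          filter_upwards [(tendsto_order.1 h2).1 0 h3, hN1] with m a1 a2 _
          have hNm : (0 : ℝ) < N m := by exact_mod_cast a2
          apply tG_zero
          intro r hr _ h5
          exfalso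
          rw [← mul_div_assoc, ← sub_div] at a1
          have h4 : 0 < ((c : ℕ) : ℝ) * (L m : ℝ) - (M m : ℝ) := by
            by_contra h5
            push Not at h5
            exact absurd a1 (not_lt.2 (div_nonpos_of_nonpos_of_nonneg h5 hNm.le))
          have h6 : ((M m : ℕ) : ℝ) < (((c : ℕ) * L m : ℕ) : ℝ) := by push_cast; linarith
          have h7 : M m < (c : ℕ) * L m := by exact_mod_cast h6
          omega
      · filter_upwards [h𝓖'] with m hm _
        apply tG_zero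
        intro r hr h5 h6
        by_contra h
        apply hcF
        simp only [F, Finset.inr_mem_disjSum]
        rw [← hm]
        refine Finset.mem_filter.2 ⟨Finset.mem_univ _, r, hr, h5, ?_, h⟩
        have h7 : (((c : ℕ) * L m + r : ℕ) : ℝ) ≤ M m := by exact_mod_cast h6
        exact h7.trans (hMle' m)
    · refine Eventually.of_forall fun m h => absurd ?_ h
      simp [J]
  have hsum : ∀ᶠ m in U, ∑ i ∈ J, ν i * (T m i : ℝ) =
      ∑ i, ∑ j ∈ range (R * L m), (y m i j : ℝ) *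
        (x i * (b m : ℝ) ^ (M m + j) - P m i (M m + j)) := by
    filter_upwards [hzero, hs, hMR] with m h1 h2 h3
    have h4 : ∑ i ∈ J, ν i * (T m i : ℝ) = ∑ i, ν i * (T m i : ℝ) := by
      apply Finset.sum_subset (Finset.subset_univ _)
      intro i _ hi
      rw [h1 i hi]
      simp
    rw [h4, Fintype.sum_sum_type, Fintype.sum_sum_type, Fintype.sum_sum_type]
    have hMN : M m = N m + (M m - N m) := by have := hNM m; omega
    have h5 := identity_blocks (R := R) (R' := R') (b m) (N m) (M m - N m) (L m)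
      (by rw [← hMN]; exact h3) x (y m) (P m) (s m) (pl m) (ev m) h2
    rw [← hMN] at h5
    rw [← h5]
    simp only [ν, T, Sum.elim_inl, Sum.elim_inr, one_mul]
    congr 2
    simp
  have hform : TB.Sz U (fun m => ∑ i ∈ J, ν i * (T m i : ℝ)) 0 := by
    have h1 := (TB.Sz.const hU (Fintype.card κ : ℝ)).mul
      (hRL'.mul (hHabs.mul (TB.Sz.const hU A₀)))
    simp only [add_zero] at h1
    refine h1.of_le ?_
    filter_upwards [hsum, hyabs, hP] with m a1 a2 a3
    rw [a1]
    refine (abs_form (abs_nonneg _) a2 a3).trans (le_abs_self _)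
  have hν : ∀ i, IsAlgebraic ℚ (ν i) := by
    intro i
    rcases i with c | c
    · exact hx c.1
    · exact isAlgebraic_one
  have hgain := gain (C := 1 + R * η) hη 𝓒 S (fun c : κ × Fin R => ((c.2 : ℕ) : ℝ) * η)
    (fun c => by positivity) q dE
    (by
      intro c hc
      have h1 := hS1 c hc
      rcases c with c | c
      · simp only [q, Sum.elim_inl] at h1
        simp only [dE, q, Sum.elim_inl]
        rw [max_eq_left (by linarith)]
        ring
      · simp only [q, Sum.elim_inr] at h1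
        simp only [dE, q, Sum.elim_inr]
        rw [max_eq_left (by linarith)]) hS3 hS4
  have hex := TB.exact_zero U hU hB (κ₀ * Q) T D hD hdiv φ d hT hd 0 J hgain ν hν hform
  -- the end
  filter_upwards [hex, hb, hzero] with m h1 h2 hz
  have hrat : ∑ i ∈ J, ν i * (T m i : ℝ) = ∑ i, x i * ((∑ c : Fin R,
      tA (b m) (M m) (L m) (y m i) c : ℤ) : ℝ) +
      ((∑ c : ((Fin E × Fin R) ⊕ Fin R') ⊕ Unit, T m (Sum.inr c) : ℤ) : ℝ) := by
    have h4 : ∑ i ∈ J, ν i * (T m i : ℝ) = ∑ i, ν i * (T m i : ℝ) := by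
      apply Finset.sum_subset (Finset.subset_univ _)
      intro i _ hi
      rw [hz i hi]
      simp
    rw [h4, Fintype.sum_sum_type, Fintype.sum_prod_type]
    push_cast
    congr 1
    · refine Finset.sum_congr rfl fun i _ => ?_
      rw [Finset.mul_sum]
      rfl
    · refine Finset.sum_congr rfl fun c _ => ?_
      simp only [ν, Sum.elim_inr, one_mul]
  rw [hrat] at h1
  have h5 := hlin (fun i => ∑ c : Fin R, tA (b m) (M m) (L m) (y m i) c)
    (-(∑ c : ((Fin E × Fin R) ⊕ Fin R') ⊕ Unit, T m (Sum.inr c))) (by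
      push_cast at h1 ⊢
      linarith)
  intro i
  have h6 := h5 i
  have h7 : ∑ c : Fin R, tA (b m) (M m) (L m) (y m i) c =
      (b m : ℤ) ^ M m * ∑ j ∈ range (R * L m), y m i j * (b m : ℤ) ^ j := by
    rw [range_blocks, ← Fin.sum_univ_eq_sum_range (fun c => ∑ r ∈ range (L m),
      y m i (c * L m + r) * (b m : ℤ) ^ (c * L m + r)), Finset.mul_sum]
    refine Finset.sum_congr rfl fun c _ => ?_
    unfold tA
    rw [Finset.mul_sum]
    refine Finset.sum_congr rfl fun r _ => ?_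
    rw [pow_add]
    ring
  rw [h7] at h6
  exact (mul_eq_zero.1 h6).resolve_left (pow_ne_zero _ (by
    have : (0 : ℤ) < b m := by exact_mod_cast (by omega : 0 < b m)
    exact this.ne'))

end Pool.Agent.V5helper55.DM
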