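import Mathlib

/-!
# Unions of intervals and blocks
-/

set_option autoImplicit false

open Finset

namespace Pool.Agent.V5helper55.DM

/-- the pairs `(ic c, j)` with `lo c ≤ j < hi c` for some `c` -/
def cols {κ : Type} [DecidableEq κ] {K : ℕ} (ic : Fin K → κ) (lo hi : Fin K → ℕ) :
    Finset (κ × ℕ) :=
  univ.biUnion fun c => (Finset.Ico (lo c) (hi c)).image fun j => (ic c, j)

lemma mem_cols {κ : Type} [DecidableEq κ] {K : ℕ} {ic : Fin K → κ} {lo hi : Fin K → ℕ} {i : κ}
    {j : ℕ} : (i, j) ∈ cols ic lo hi ↔ ∃ c, ic c = i ∧ lo c ≤ j ∧ j < hi c := by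
  unfold cols
  simp only [mem_biUnion, mem_univ, true_and, mem_image, mem_Ico, Prod.mk.injEq]
  constructor
  · rintro ⟨c, j', ⟨h1, h2⟩, h3, rfl⟩
    exact ⟨c, h3, h1, h2⟩
  · rintro ⟨c, h3, h1, h2⟩
    exact ⟨c, j, ⟨h1, h2⟩, h3, rfl⟩

lemma card_cols_thick {κ : Type} [DecidableEq κ] {K : ℕ} (ic : Fin K → κ) (lo hi : Fin K → ℕ)
    (u T : ℕ) : (cols ic (fun c => lo c - u) (fun c => hi c + T)).card ≤
      (cols ic lo hi).card + K * (u + T) := by
  have h1 : cols ic (fun c => lo c - u) (fun c => hi c + T) ⊆ cols ic lo hi ∪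
      univ.biUnion fun c => ((Finset.Ico (lo c - u) (lo c)) ∪ Finset.Ico (hi c) (hi c + T)).image
        fun j => (ic c, j) := by
    rintro ⟨i, j⟩ h
    obtain ⟨c, rfl, h1, h2⟩ := mem_cols.1 h
    rw [mem_union]
    by_cases h3 : lo c ≤ j ∧ j < hi c
    · exact Or.inl (mem_cols.2 ⟨c, rfl, h3.1, h3.2⟩)
    · refine Or.inr (mem_biUnion.2 ⟨c, mem_univ _, mem_image.2 ⟨j, ?_, rfl⟩⟩)
      rw [mem_union, mem_Ico, mem_Ico]
      omega
  refine (card_le_card h1).trans ((card_union_le _ _).trans (Nat.add_le_add_left ?_ _))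
  refine card_biUnion_le.trans ?_
  calc ∑ c : Fin K, (((Finset.Ico (lo c - u) (lo c)) ∪ Finset.Ico (hi c) (hi c + T)).image
        fun j => (ic c, j)).card ≤ ∑ _c : Fin K, (u + T) := by
        refine sum_le_sum fun c _ => ?_
        refine card_image_le.trans ((card_union_le _ _).trans ?_)
        rw [Nat.card_Ico, Nat.card_Ico]
        omega
    _ = K * (u + T) := by rw [sum_const, card_univ, Fintype.card_fin, smul_eq_mul]

/-- the number of blocks which meet a union of intervals -/
lemma count_blocks {κ : Type} [Fintype κ] [DecidableEq κ] {K R L : ℕ} (hL : 1 ≤ L)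
    (ic : Fin K → κ) (lo hi : Fin K → ℕ) (y : κ → ℕ → ℤ)
    (hy : ∀ i j, y i j ≠ 0 → (i, j) ∈ cols ic lo hi) :
    ((univ : Finset (κ × Fin R)).filter fun p => ∃ r < L, y p.1 (p.2 * L + r) ≠ 0).card * L ≤
      (cols ic lo hi).card + 2 * K * L := by
  classical
  set Act := (univ : Finset (κ × Fin R)).filter fun p => ∃ r < L, y p.1 (p.2 * L + r) ≠ 0 with hAct
  let Full := Act.filter fun p => ∀ r < L, (p.1, (p.2 : ℕ) * L + r) ∈ cols ic lo hi
  let Part := Act.filter fun p => ¬ ∀ r < L, (p.1, (p.2 : ℕ) * L + r) ∈ cols ic lo hi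
  have hsplit : Full.card + Part.card = Act.card := card_filter_add_card_filter_not _
  have hFull : Full.card * L ≤ (cols ic lo hi).card := by
    have h1 : (Full ×ˢ range L).card = Full.card * L := by rw [card_product, card_range]
    rw [← h1]
    apply card_le_card_of_injOn (fun p => (p.1.1, (p.1.2 : ℕ) * L + p.2))
    · rintro ⟨p, r⟩ hp
      rw [mem_coe, mem_product] at hp
      exact (mem_filter.1 hp.1).2 r (mem_range.1 hp.2)
    · rintro ⟨⟨i, c⟩, r⟩ hp ⟨⟨i', c'⟩, r'⟩ hp' h
      rw [mem_coe, mem_product] at hp hp'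
      have hr := mem_range.1 hp.2
      have hr' := mem_range.1 hp'.2
      simp only at hr hr'
      simp only [Prod.mk.injEq] at h
      obtain ⟨h1, h2⟩ := h
      have h3 : (c : ℕ) = c' := by
        have a1 : ((c : ℕ) * L + r) / L = c := by
          rw [mul_comm, Nat.mul_add_div (by omega), Nat.div_eq_of_lt hr, add_zero]
        have a2 : ((c' : ℕ) * L + r') / L = c' := by
          rw [mul_comm, Nat.mul_add_div (by omega), Nat.div_eq_of_lt hr', add_zero]
        rw [← a1, h2, a2]
      have h4 : r = r' := by rw [h3] at h2; omega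
      have h5 : c = c' := Fin.ext h3
      rw [h1, h4, h5]
  have hPart : Part.card ≤ 2 * K := by
    have h1 : Part.image (fun p => (p.1, (p.2 : ℕ))) ⊆
        (univ : Finset (Fin K)).image (fun c => (ic c, lo c / L)) ∪
        (univ : Finset (Fin K)).image (fun c => (ic c, hi c / L)) := by
      rintro ⟨i, v⟩ hv
      obtain ⟨p, hp, hpe⟩ := mem_image.1 hv
      simp only [Prod.mk.injEq] at hpe
      obtain ⟨rfl, rfl⟩ := hpe
      obtain ⟨hpA, hpn⟩ := mem_filter.1 hp
      obtain ⟨_, r, hr, hyr⟩ := mem_filter.1 hpA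
      obtain ⟨c, hc1, hc2, hc3⟩ := mem_cols.1 (hy _ _ hyr)
      push Not at hpn
      obtain ⟨r', hr', hn'⟩ := hpn
      rw [mem_cols] at hn'
      push Not at hn'
      have h2 := hn' c hc1
      rw [mem_union]
      by_cases h3 : lo c ≤ (p.2 : ℕ) * L + r'
      · right
        have h4 := h2 h3
        refine mem_image.2 ⟨c, mem_univ _, ?_⟩
        rw [hc1]
        congr 1
        -- hi c / L
        have h5 : hi c = L * (p.2 : ℕ) + (hi c - (p.2 : ℕ) * L) := by
          have : L * (p.2 : ℕ) = (p.2 : ℕ) * L := mul_comm _ _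
          omega
        rw [h5, Nat.mul_add_div (by omega), Nat.div_eq_of_lt (by omega), add_zero]
      · left
        refine mem_image.2 ⟨c, mem_univ _, ?_⟩
        rw [hc1]
        congr 1
        have h5 : lo c = L * (p.2 : ℕ) + (lo c - (p.2 : ℕ) * L) := by
          have : L * (p.2 : ℕ) = (p.2 : ℕ) * L := mul_comm _ _
          omega
        rw [h5, Nat.mul_add_div (by omega), Nat.div_eq_of_lt (by omega), add_zero]
    have h2 : (Part.image (fun p => (p.1, (p.2 : ℕ)))).card = Part.card := by
      apply card_image_of_injective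
      rintro ⟨i, c⟩ ⟨i', c'⟩ h
      simp only [Prod.mk.injEq] at h
      rw [h.1, Fin.ext h.2]
    rw [← h2]
    refine (card_le_card h1).trans ((card_union_le _ _).trans ?_)
    have h3 : ((univ : Finset (Fin K)).image (fun c => (ic c, lo c / L))).card ≤ K := by
      refine card_image_le.trans ?_
      rw [card_univ, Fintype.card_fin]
    have h4 : ((univ : Finset (Fin K)).image (fun c => (ic c, hi c / L))).card ≤ K := by
      refine card_image_le.trans ?_
      rw [card_univ, Fintype.card_fin]
    omega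
  calc Act.card * L = Full.card * L + Part.card * L := by rw [← hsplit, add_mul]
    _ ≤ (cols ic lo hi).card + 2 * K * L := Nat.add_le_add hFull (Nat.mul_le_mul_right _ hPart)

/-- the union of the intervals `[u c, v c)` -/
def ints {K : ℕ} (u v : Fin K → ℕ) : Finset ℕ := univ.biUnion fun c => Finset.Ico (u c) (v c)

lemma mem_ints {K : ℕ} {u v : Fin K → ℕ} {n : ℕ} : n ∈ ints u v ↔ ∃ c, u c ≤ n ∧ n < v c := by
  unfold ints
  simp only [mem_biUnion, mem_univ, true_and, mem_Ico]

lemma card_ints_shrink {K : ℕ} (u v : Fin K → ℕ) (D : ℕ) :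
    (ints u v).card ≤ (ints u (fun c => v c - D)).card + K * D := by
  have h1 : ints u v ⊆ ints u (fun c => v c - D) ∪
      univ.biUnion fun c => Finset.Ico (v c - D) (v c) := by
    intro n h
    obtain ⟨c, h1, h2⟩ := mem_ints.1 h
    rw [mem_union]
    by_cases h3 : n < v c - D
    · exact Or.inl (mem_ints.2 ⟨c, h1, h3⟩)
    · refine Or.inr (mem_biUnion.2 ⟨c, mem_univ _, mem_Ico.2 ⟨by omega, h2⟩⟩)
  refine (card_le_card h1).trans ((card_union_le _ _).trans (Nat.add_le_add_left ?_ _))
  refine card_biUnion_le.trans ?_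
  calc ∑ c : Fin K, (Finset.Ico (v c - D) (v c)).card ≤ ∑ _c : Fin K, D := by
        refine sum_le_sum fun c _ => ?_
        rw [Nat.card_Ico]
        omega
    _ = K * D := by rw [sum_const, card_univ, Fintype.card_fin, smul_eq_mul]

/-- the number of blocks outside a union of intervals -/
lemma count_gaps {K R L N M D : ℕ} (hL : 1 ≤ L) (hNM : N ≤ M) (u v : Fin K → ℕ) (f : ℕ → ℤ)
    (hf : ∀ c n, u c ≤ n → n + D < v c → f n = 0) (hR : M < R * L)
    (huv : ∀ c, N < u c ∧ v c ≤ M + 1) :
    ((univ : Finset (Fin R)).filter fun β : Fin R => ∃ r < L, N < (β : ℕ) * L + r ∧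
      (β : ℕ) * L + r ≤ M ∧ f ((β : ℕ) * L + r) ≠ 0).card * L + (ints u v).card ≤
      (M - N) + 2 * L + 2 * K * L + K * D := by
  classical
  set I' := ints u (fun c => v c - D) with hI'
  have hfI : ∀ n ∈ I', f n = 0 := by
    intro n hn
    obtain ⟨c, h1, h2⟩ := mem_ints.1 hn
    exact hf c n h1 (by omega)
  have hIN : ∀ n ∈ I', N < n ∧ n ≤ M := by
    intro n hn
    obtain ⟨c, h1, h2⟩ := mem_ints.1 hn
    have := huv c
    omega
  set Act := (univ : Finset (Fin R)).filter fun β : Fin R => ∃ r < L, N < (β : ℕ) * L + r ∧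
      (β : ℕ) * L + r ≤ M ∧ f ((β : ℕ) * L + r) ≠ 0 with hAct
  let Full := (univ : Finset (Fin R)).filter fun β : Fin R => ∀ r < L, (β : ℕ) * L + r ∈ I'
  let Part := (univ : Finset (Fin R)).filter fun β : Fin R => (∃ r < L, (β : ℕ) * L + r ∈ I') ∧
    ¬ ∀ r < L, (β : ℕ) * L + r ∈ I'
  let Meet := (univ : Finset (Fin R)).filter fun β : Fin R => ∃ r < L, N < (β : ℕ) * L + r ∧
      (β : ℕ) * L + r ≤ M
  have hdisj : Disjoint Act Full := by
    rw [Finset.disjoint_left]
    intro β h1 h2
    obtain ⟨_, r, hr, _, _, h3⟩ := mem_filter.1 h1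
    exact h3 (hfI _ ((mem_filter.1 h2).2 r hr))
  have hMeet : Act.card + Full.card ≤ Meet.card := by
    rw [← card_union_of_disjoint hdisj]
    apply card_le_card
    intro β hβ
    rcases mem_union.1 hβ with h | h
    · obtain ⟨_, r, hr, h1, h2, _⟩ := mem_filter.1 h
      exact mem_filter.2 ⟨mem_univ _, r, hr, h1, h2⟩
    · have h1 := (mem_filter.1 h).2 0 (by omega)
      have h2 := hIN _ h1
      exact mem_filter.2 ⟨mem_univ _, 0, by omega, h2.1, h2.2⟩
  have hinj : ∀ (β β' : Fin R) (r r' : ℕ), r < L → r' < L →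
      (β : ℕ) * L + r = (β' : ℕ) * L + r' → β = β' ∧ r = r' := by
    intro β β' r r' hr hr' h
    have h3 : (β : ℕ) = β' := by
      have a1 : ((β : ℕ) * L + r) / L = β := by
        rw [mul_comm, Nat.mul_add_div (by omega), Nat.div_eq_of_lt hr, add_zero]
      have a2 : ((β' : ℕ) * L + r') / L = β' := by
        rw [mul_comm, Nat.mul_add_div (by omega), Nat.div_eq_of_lt hr', add_zero]
      rw [← a1, h, a2]
    refine ⟨Fin.ext h3, ?_⟩
    rw [h3] at h
    omega
  have hMeetL : Meet.card * L ≤ (M - N) + 2 * L := by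
    have h1 : (Meet ×ˢ range L).card = Meet.card * L := by rw [card_product, card_range]
    have h2 : (Finset.Ico (N + 1 - L) (M + L)).card ≤ (M - N) + 2 * L := by
      rw [Nat.card_Ico]
      omega
    rw [← h1]
    refine le_trans ?_ h2
    apply card_le_card_of_injOn (fun p => (p.1 : ℕ) * L + p.2)
    · rintro ⟨β, r⟩ hp
      rw [mem_coe, mem_product] at hp
      obtain ⟨_, r', hr', h3, h4⟩ := mem_filter.1 hp.1
      have hr := mem_range.1 hp.2
      simp only at h3 h4 hr
      rw [mem_coe, mem_Ico]
      simp only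
      omega
    · rintro ⟨β, r⟩ hp ⟨β', r'⟩ hp' h
      rw [mem_coe, mem_product] at hp hp'
      have := hinj β β' r r' (mem_range.1 hp.2) (mem_range.1 hp'.2) h
      rw [this.1, this.2]
  have hPart : Part.card ≤ 2 * K := by
    have h1 : Part.image (fun β : Fin R => (β : ℕ)) ⊆
        (univ : Finset (Fin K)).image (fun c => u c / L) ∪
        (univ : Finset (Fin K)).image (fun c => (v c - D) / L) := by
      intro w hw
      obtain ⟨β, hβ, rfl⟩ := mem_image.1 hw
      obtain ⟨_, ⟨r, hr, hrI⟩, hpn⟩ := mem_filter.1 hβ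
      obtain ⟨c, hc2, hc3⟩ := mem_ints.1 hrI
      push Not at hpn
      obtain ⟨r', hr', hn'⟩ := hpn
      rw [mem_ints] at hn'
      push Not at hn'
      rw [mem_union]
      by_cases h3 : u c ≤ (β : ℕ) * L + r'
      · right
        have h4 := hn' c h3
        refine mem_image.2 ⟨c, mem_univ _, ?_⟩
        have h5 : v c - D = L * (β : ℕ) + (v c - D - (β : ℕ) * L) := by
          have : L * (β : ℕ) = (β : ℕ) * L := mul_comm _ _
          omega
        rw [h5, Nat.mul_add_div (by omega), Nat.div_eq_of_lt (by omega), add_zero]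
      · left
        refine mem_image.2 ⟨c, mem_univ _, ?_⟩
        have h5 : u c = L * (β : ℕ) + (u c - (β : ℕ) * L) := by
          have : L * (β : ℕ) = (β : ℕ) * L := mul_comm _ _
          omega
        rw [h5, Nat.mul_add_div (by omega), Nat.div_eq_of_lt (by omega), add_zero]
    have h2 : (Part.image (fun β : Fin R => (β : ℕ))).card = Part.card := by
      apply card_image_of_injective
      exact Fin.val_injective
    rw [← h2]
    refine (card_le_card h1).trans ((card_union_le _ _).trans ?_)
    have h3 : ((univ : Finset (Fin K)).image (fun c => u c / L)).card ≤ K := by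
      refine card_image_le.trans ?_
      rw [card_univ, Fintype.card_fin]
    have h4 : ((univ : Finset (Fin K)).image (fun c => (v c - D) / L)).card ≤ K := by
      refine card_image_le.trans ?_
      rw [card_univ, Fintype.card_fin]
    omega
  have hI'card : I'.card ≤ (Full.card + Part.card) * L := by
    have h1 : I' ⊆ ((Full ∪ Part) ×ˢ range L).image (fun p => (p.1 : ℕ) * L + p.2) := by
      intro n hn
      have h2 := hIN n hn
      have h3 : n / L < R := by
        rw [Nat.div_lt_iff_lt_mul (by omega)]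
        omega
      have h4 : n / L * L + n % L = n := Nat.div_add_mod' n L
      refine mem_image.2 ⟨(⟨n / L, h3⟩, n % L), mem_product.2 ⟨?_, mem_range.2
        (Nat.mod_lt _ (by omega))⟩, h4⟩
      rw [mem_union]
      by_cases h5 : ∀ r < L, n / L * L + r ∈ I'
      · exact Or.inl (mem_filter.2 ⟨mem_univ _, h5⟩)
      · refine Or.inr (mem_filter.2 ⟨mem_univ _, ⟨n % L, Nat.mod_lt _ (by omega), ?_⟩, h5⟩)
        simp only
        rw [h4]
        exact hn
    refine (card_le_card h1).trans (card_image_le.trans ?_)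
    rw [card_product, card_range]
    exact Nat.mul_le_mul_right _ (card_union_le _ _)
  have hshr : (ints u v).card ≤ I'.card + K * D := card_ints_shrink u v D
  have h1 : (Act.card + Full.card) * L ≤ Meet.card * L := Nat.mul_le_mul_right _ hMeet
  have h2 : Part.card * L ≤ 2 * K * L := Nat.mul_le_mul_right _ hPart
  rw [add_mul] at h1 hI'card
  omega

/-- a union of intervals contains unions of intervals of all smaller cardinalities -/
lemma exists_trim {κ : Type} [DecidableEq κ] {K : ℕ} (ic : Fin K → κ) (lo : Fin K → ℕ) (z : ℕ) :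
    ∀ (s : ℕ) (hi : Fin K → ℕ), ∑ c, hi c = s → z ≤ (cols ic lo hi).card →
    ∃ hi' : Fin K → ℕ, (∀ c, hi' c ≤ hi c) ∧ (cols ic lo hi').card = z := by
  intro s
  induction s using Nat.strong_induction_on with
  | _ s ih =>
    intro hi hs hz
    rcases Nat.eq_or_lt_of_le hz with h | h
    · exact ⟨hi, fun _ => le_refl _, h.symm⟩
    · -- remove one element
      have hne : (cols ic lo hi).Nonempty := card_pos.1 (by omega)
      obtain ⟨⟨i, j⟩, hij⟩ := hne
      obtain ⟨c, h1, h2, h3⟩ := mem_cols.1 hij
      have hle : ∀ c', Function.update hi c (hi c - 1) c' ≤ hi c' := by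
        intro c'
        by_cases hc : c' = c
        · rw [hc, Function.update_self]; omega
        · rw [Function.update_of_ne hc]
      have hsum : ∑ c', Function.update hi c (hi c - 1) c' < s := by
        rw [← hs]
        refine sum_lt_sum (fun c' _ => hle c') ⟨c, mem_univ _, ?_⟩
        rw [Function.update_self]
        omega
      have hcard : (cols ic lo hi).card ≤
          (cols ic lo (Function.update hi c (hi c - 1))).card + 1 := by
        have h4 : cols ic lo hi ⊆ insert (ic c, hi c - 1)
            (cols ic lo (Function.update hi c (hi c - 1))) := by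
          rintro ⟨i', j'⟩ hij'
          obtain ⟨c', g1, g2, g3⟩ := mem_cols.1 hij'
          rw [mem_insert]
          by_cases hc : c' = c
          · subst hc
            by_cases hj : j' = hi c' - 1
            · exact Or.inl (by rw [g1, hj])
            · refine Or.inr (mem_cols.2 ⟨c', g1, g2, ?_⟩)
              rw [Function.update_self]
              omega
          · refine Or.inr (mem_cols.2 ⟨c', g1, g2, ?_⟩)
            rw [Function.update_of_ne hc]
            exact g3
        exact (card_le_card h4).trans (card_insert_le _ _)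
      obtain ⟨hi', g1, g2⟩ := ih _ hsum _ rfl (by omega)
      exact ⟨hi', fun c' => (g1 c').trans (hle c'), g2⟩

end Pool.Agent.V5helper55.DM
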