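import Mathlib
import Pool.Agent.V5helper55.TB.Rec

/-!
# Division of relations by `X - b`
-/

set_option autoImplicit false

open Filter Topology Finset Polynomial

namespace Pool.Agent.V5helper55.DM

open Pool.Agent.V5helper55.TB (rel rel_eq rel_step height_div height_div_pow tc_bound)

/-- the relation with the family of polynomials `Z` applied to the sequences `s i` at `n` -/
noncomputable def relF {κ : Type} [Fintype κ] (s : κ → ℕ → ℤ) (Z : κ → ℤ[X]) (n : ℕ) : ℤ :=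
  ∑ i, rel (s i) (Z i) n

lemma relF_step {κ : Type} [Fintype κ] (s : κ → ℕ → ℤ) (b : ℤ) (Z : κ → ℤ[X]) (n : ℕ) :
    relF s (fun i => (X - C b) * Z i) n = relF s Z (n + 1) - b * relF s Z n := by
  unfold relF
  rw [Finset.mul_sum, ← Finset.sum_sub_distrib]
  exact Finset.sum_congr rfl fun i _ => rel_step _ _ _ _

lemma relF_bound {κ : Type} [Fintype κ] (s : κ → ℕ → ℤ) (G : ℕ) (hs : ∀ i n, |s i n| ≤ G)
    (Z : κ → ℤ[X]) (H : ℕ) (B : ℤ) (hH : ∀ i, (Z i).natDegree ≤ H)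
    (hZ : ∀ i j, |(Z i).coeff j| ≤ B) (n : ℕ) :
    |relF s Z n| ≤ Fintype.card κ * ((H + 1) * (B * G)) := by
  unfold relF
  calc |∑ i, rel (s i) (Z i) n| ≤ ∑ i, |rel (s i) (Z i) n| := Finset.abs_sum_le_sum_abs _ _
    _ ≤ ∑ _i : κ, (H + 1) * (B * (G : ℤ)) := by
        refine Finset.sum_le_sum fun i _ => ?_
        rw [rel_eq (s i) (Z i) n H (hH i)]
        calc |∑ j ∈ Finset.range (H + 1), (Z i).coeff j * s i (n + j)|
            ≤ ∑ j ∈ Finset.range (H + 1), |(Z i).coeff j * s i (n + j)| :=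
              Finset.abs_sum_le_sum_abs _ _
          _ ≤ ∑ _j ∈ Finset.range (H + 1), B * (G : ℤ) := by
              refine Finset.sum_le_sum fun j _ => ?_
              rw [abs_mul]
              exact mul_le_mul (hZ i j) (hs _ _) (abs_nonneg _) ((abs_nonneg _).trans (hZ i j))
          _ = (H + 1) * (B * (G : ℤ)) := by
              rw [Finset.sum_const, Finset.card_range, nsmul_eq_mul]; push_cast; ring
    _ = Fintype.card κ * ((H + 1) * (B * G)) := by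
        rw [Finset.sum_const, Finset.card_univ, nsmul_eq_mul]

/-- one division: the relation -/
lemma relF_div {κ : Type} [Fintype κ] {b : ℕ} (hb : 2 ≤ b) (s : κ → ℕ → ℤ) (G : ℕ)
    (hs : ∀ i n, |s i n| ≤ G) (Z : κ → ℤ[X]) (H : ℕ) (B : ℤ) (hH : ∀ i, (Z i).natDegree ≤ H)
    (hZ : ∀ i j, |(Z i).coeff j| ≤ B) (ℓ : ℕ)
    (hℓ : Fintype.card κ * ((H + 1) * (B * G)) < (b : ℤ) ^ ℓ) {c c' : ℕ}
    (h : ∀ n, c < n → n ≤ c' → relF s (fun i => (X - C (b : ℤ)) * Z i) n = 0) :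
    ∀ n, c < n → n + ℓ ≤ c' + 1 → relF s Z n = 0 := by
  intro n hcn hn
  have h1 : ∀ i, i ≤ ℓ → relF s Z (n + i) = (b : ℤ) ^ i * relF s Z n := by
    intro i
    induction i with
    | zero => intro _; simp
    | succ i ih =>
      intro hi
      have h2 := h (n + i) (by omega) (by omega)
      rw [relF_step] at h2
      rw [← add_assoc, pow_succ]
      have h3 := ih (by omega)
      rw [h3] at h2
      linarith
  have h2 := h1 ℓ (le_refl _)
  have h3 := relF_bound s G hs Z H B hH hZ (n + ℓ)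
  rw [h2, abs_mul, abs_of_nonneg (by positivity : (0 : ℤ) ≤ (b : ℤ) ^ ℓ)] at h3
  by_contra h4
  have h5 : 1 ≤ |relF s Z n| := Int.one_le_abs h4
  have h6 : (b : ℤ) ^ ℓ ≤ (b : ℤ) ^ ℓ * |relF s Z n| := le_mul_of_one_le_right (by positivity) h5
  linarith

/-- one division: the support -/
lemma supp_div {b : ℕ} (hb : 2 ≤ b) {G : ℤ[X]} {B : ℤ} (hG : ∀ j, |G.coeff j| ≤ B) {ℓ : ℕ}
    (hℓ : B < (b : ℤ) ^ ℓ) (j : ℕ) (hj : G.coeff j ≠ 0) :
    ∃ u, j ≤ u ∧ u ≤ j + ℓ ∧ ((X - C (b : ℤ)) * G).coeff u ≠ 0 := by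
  by_contra hcon
  push Not at hcon
  have h1 : ∀ i, i ≤ ℓ → G.coeff j = (b : ℤ) ^ i * G.coeff (j + i) := by
    intro i
    induction i with
    | zero => intro _; simp
    | succ i ih =>
      intro hi
      have h2 := hcon (j + i + 1) (by omega) (by omega)
      rw [sub_mul, Polynomial.coeff_sub, Polynomial.coeff_X_mul, Polynomial.coeff_C_mul] at h2
      rw [ih (by omega), ← add_assoc, pow_succ]
      have h3 : G.coeff (j + i) = b * G.coeff (j + i + 1) := by linarith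
      rw [h3]
      ring
  have h2 := h1 ℓ (le_refl _)
  have h3 : G.coeff (j + ℓ) ≠ 0 := by
    intro h
    rw [h, mul_zero] at h2
    exact hj h2
  have h4 : 1 ≤ |G.coeff (j + ℓ)| := Int.one_le_abs h3
  have h5 := hG j
  rw [h2, abs_mul, abs_of_nonneg (by positivity : (0 : ℤ) ≤ (b : ℤ) ^ ℓ)] at h5
  have h6 : (b : ℤ) ^ ℓ ≤ (b : ℤ) ^ ℓ * |G.coeff (j + ℓ)| :=
    le_mul_of_one_le_right (by positivity) h4
  linarith

lemma supp_div_pow {b : ℕ} (hb : 2 ≤ b) {B : ℤ} {ℓ : ℕ} (hℓ : B < (b : ℤ) ^ ℓ) (t : ℕ) :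
    ∀ {G : ℤ[X]}, (∀ j, |((X - C (b : ℤ)) ^ t * G).coeff j| ≤ B) → ∀ j, G.coeff j ≠ 0 →
    ∃ u, j ≤ u ∧ u ≤ j + t * ℓ ∧ ((X - C (b : ℤ)) ^ t * G).coeff u ≠ 0 := by
  induction t with
  | zero =>
    intro G _ j hj
    exact ⟨j, le_refl _, by omega, by simpa using hj⟩
  | succ t ih =>
    intro G h j hj
    obtain ⟨u, h1, h2, h3⟩ := supp_div hb (height_div_pow hb (t + 1) h) hℓ j hj
    obtain ⟨u', h4, h5, h6⟩ := ih (G := (X - C (b : ℤ)) * G) (fun j => by
      rw [← mul_assoc, ← pow_succ]; exact h j) u h3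
    refine ⟨u', by omega, by rw [Nat.succ_mul]; omega, ?_⟩
    rwa [← mul_assoc, ← pow_succ] at h6

lemma relF_div_pow {κ : Type} [Fintype κ] {b : ℕ} (hb : 2 ≤ b) (s : κ → ℕ → ℤ) (G : ℕ)
    (hs : ∀ i n, |s i n| ≤ G) (H : ℕ) (B : ℤ) (ℓ : ℕ)
    (hℓ : Fintype.card κ * ((H + 1) * (B * G)) < (b : ℤ) ^ ℓ) {c : ℕ} (t : ℕ) :
    ∀ {Z : κ → ℤ[X]} {c' : ℕ}, (∀ i, ((X - C (b : ℤ)) ^ t * Z i).natDegree ≤ H) →
    (∀ i j, |((X - C (b : ℤ)) ^ t * Z i).coeff j| ≤ B) →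
    (∀ n, c < n → n ≤ c' → relF s (fun i => (X - C (b : ℤ)) ^ t * Z i) n = 0) →
    ∀ n, c < n → n + t * ℓ ≤ c' → relF s Z n = 0 := by
  induction t with
  | zero =>
    intro Z c' _ _ h n h1 h2
    have := h n h1 (by omega)
    simpa using this
  | succ t ih =>
    intro Z c' hdeg hB h n h1 h2
    have hXb : (X - C (b : ℤ)) ≠ 0 := Polynomial.X_sub_C_ne_zero _
    have hdegG : ∀ i, (Z i).natDegree ≤ H := by
      intro i
      by_cases hG0 : Z i = 0
      · rw [hG0]; simp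
      refine le_trans ?_ (hdeg i)
      rw [Polynomial.natDegree_mul (pow_ne_zero _ hXb) hG0]
      omega
    have h3 : ∀ n, c < n → n ≤ c' - t * ℓ → relF s (fun i => (X - C (b : ℤ)) * Z i) n = 0 := by
      intro m hm1 hm2
      by_cases hm3 : m + t * ℓ ≤ c'
      · refine ih (Z := fun i => (X - C (b : ℤ)) * Z i) (c' := c') ?_ ?_ ?_ m hm1 hm3
        · intro i
          rw [← mul_assoc, ← pow_succ]
          exact hdeg i
        · intro i j
          rw [← mul_assoc, ← pow_succ]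
          exact hB i j
        · intro n h4 h5
          have h6 := h n h4 h5
          simp only [pow_succ, mul_assoc] at h6
          exact h6
      · omega
    refine relF_div hb s G hs Z H B hdegG (fun i => height_div_pow hb (t + 1) (hB i)) ℓ hℓ h3 n h1 ?_
    rw [Nat.succ_mul] at h2
    omega

/-- **Relations which do not vanish at `b`.** -/
theorem divide {κ : Type} [Fintype κ] {b : ℕ} (hb : 2 ≤ b) (s : κ → ℕ → ℤ) (G : ℕ) (hG : 1 ≤ G)
    (hs : ∀ i n, |s i n| ≤ G) (Z : κ → ℤ[X]) (hZ : ∃ i, Z i ≠ 0) (H : ℕ) (B : ℤ)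
    (hH : ∀ i, (Z i).natDegree ≤ H) (hB : ∀ i j, |(Z i).coeff j| ≤ B) (ℓ : ℕ)
    (hℓ : Fintype.card κ * ((H + 1) * (B * G)) < (b : ℤ) ^ ℓ) :
    ∃ Y : κ → ℤ[X], ∃ t : ℕ, (∃ i, (Y i).eval (b : ℤ) ≠ 0) ∧ (b : ℤ) ^ t ≤ B ∧
      (∀ i j, |(Y i).coeff j| ≤ B) ∧
      (∀ i j, (Y i).coeff j ≠ 0 → ∃ u, j ≤ u ∧ u ≤ j + t * ℓ ∧ (Z i).coeff u ≠ 0) ∧
      ∀ c c' : ℕ, (∀ n, c < n → n ≤ c' → relF s Z n = 0) →
        ∀ n, c < n → n + t * ℓ ≤ c' → relF s Y n = 0 := by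
  classical
  have hXb : (X - C (b : ℤ)) ≠ 0 := Polynomial.X_sub_C_ne_zero _
  obtain ⟨i0, hi0⟩ := hZ
  -- the least multiplicity
  obtain ⟨i1, hi1, hmin⟩ := Finset.exists_min_image (Finset.univ.filter fun i => Z i ≠ 0)
    (fun i => (Z i).rootMultiplicity (b : ℤ)) ⟨i0, by simp [hi0]⟩
  have hi1' : Z i1 ≠ 0 := by simpa using hi1
  set t := (Z i1).rootMultiplicity (b : ℤ) with ht
  have hdvd : ∀ i, (X - C (b : ℤ)) ^ t ∣ Z i := by
    intro i
    by_cases h0 : Z i = 0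
    · rw [h0]; exact dvd_zero _
    · exact (Polynomial.le_rootMultiplicity_iff h0).1 (hmin i (by simp [h0]))
  choose Y hY using hdvd
  have hB0 : 0 ≤ B := (abs_nonneg _).trans (hB i0 0)
  have hκ : (1 : ℤ) ≤ Fintype.card κ := by
    have : 0 < Fintype.card κ := Fintype.card_pos_iff.2 ⟨i0⟩
    exact_mod_cast this
  have hGZ : (1 : ℤ) ≤ G := by exact_mod_cast hG
  have hBℓ : B < (b : ℤ) ^ ℓ := by
    refine lt_of_le_of_lt ?_ hℓ
    have h1 : B ≤ B * G := le_mul_of_one_le_right hB0 hGZ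
    have h2 : B * G ≤ (H + 1) * (B * G) :=
      le_mul_of_one_le_left (by positivity) (by
        have : (0 : ℤ) ≤ H := by positivity
        linarith)
    have h3 : (H + 1) * (B * G) ≤ Fintype.card κ * ((H + 1) * (B * G)) :=
      le_mul_of_one_le_left (by positivity) hκ
    linarith
  have hB' : ∀ i j, |((X - C (b : ℤ)) ^ t * Y i).coeff j| ≤ B := by
    intro i j
    rw [← hY i]; exact hB i j
  refine ⟨Y, t, ⟨i1, ?_⟩, ?_, fun i => height_div_pow hb t (hB' i), ?_, ?_⟩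
  · intro h0
    have h1 : (X - C (b : ℤ)) ^ (t + 1) ∣ Z i1 := by
      have h2 : (X - C (b : ℤ)) ∣ Y i1 := Polynomial.dvd_iff_isRoot.2 h0
      rw [hY i1, pow_succ]
      exact mul_dvd_mul_left _ h2
    have h2 := (Polynomial.le_rootMultiplicity_iff hi1').2 h1
    omega
  · have hY1 : Y i1 ≠ 0 := by
      intro h0
      apply hi1'
      rw [hY i1, h0, mul_zero]
    have h1 := tc_bound _ _ (hB' i1)
    rw [Polynomial.trailingCoeff_mul] at h1
    have h2 : ((X - C (b : ℤ)) ^ t).trailingCoeff = (-(b : ℤ)) ^ t := by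
      have h3 : ((X - C (b : ℤ)) ^ t).coeff 0 = (-(b : ℤ)) ^ t := by
        rw [Polynomial.coeff_zero_eq_eval_zero]
        simp
      have h4 : ((X - C (b : ℤ)) ^ t).coeff 0 ≠ 0 := by
        rw [h3]
        exact pow_ne_zero _ (by simp; omega)
      rw [Polynomial.trailingCoeff_eq_coeff_zero h4, h3]
    rw [h2, abs_mul, abs_pow, abs_neg, Nat.abs_cast] at h1
    have h3 : 1 ≤ |(Y i1).trailingCoeff| :=
      Int.one_le_abs (by rwa [Ne, Polynomial.trailingCoeff_eq_zero])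
    exact le_trans (le_mul_of_one_le_right (by positivity) h3) h1
  · intro i j hj
    obtain ⟨u, h1, h2, h3⟩ := supp_div_pow hb hBℓ t (hB' i) j hj
    refine ⟨u, h1, h2, ?_⟩
    rwa [← hY i] at h3
  · intro c c' h
    refine relF_div_pow hb s G hs H B ℓ hℓ t (Z := Y) ?_ hB' ?_
    · intro i
      rw [← hY i]; exact hH i
    · intro n h1 h2
      have h3 := h n h1 h2
      have h4 : (fun i => (X - C (b : ℤ)) ^ t * Y i) = Z := by
        funext i; rw [← hY i]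
      rw [h4]; exact h3

end Pool.Agent.V5helper55.DM
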