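import Mathlib

/-!
# Siegel's lemma for integral matrices of small rank
-/

set_option autoImplicit false

open Filter Topology Finset

attribute [local instance] Matrix.seminormedAddCommGroup

namespace Pool.Agent.V5helper55.DM

/-- Siegel's lemma for a matrix whose kernel contains `T + 1` independent real vectors -/
theorem siegel_rank {α β : Type} [Fintype α] [Fintype β] [DecidableEq β] (A : Matrix α β ℤ)
    (G : ℕ) (hG : 1 ≤ G) (hA : ∀ i j, |A i j| ≤ G) (T : ℕ) (v : Fin (T + 1) → β → ℝ)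
    (hv : LinearIndependent ℝ v) (hAv : ∀ t i, ∑ j, (A i j : ℝ) * v t j = 0) :
    ∃ z : β → ℤ, z ≠ 0 ∧ (∀ i, ∑ j, A i j * z j = 0) ∧
      ∀ j, (|z j| : ℝ) ≤ ((Fintype.card β : ℝ) * G) ^ ((Fintype.card β : ℝ) / (T + 1)) := by
  classical
  let M : Matrix α β ℝ := A.map (fun a : ℤ => (a : ℝ))
  let r : α → β → ℝ := fun i j => (A i j : ℝ)
  have hker : T + 1 ≤ Module.finrank ℝ (LinearMap.ker M.mulVecLin) := by
    have h1 : Submodule.span ℝ (Set.range v) ≤ LinearMap.ker M.mulVecLin := by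
      rw [Submodule.span_le]
      rintro _ ⟨t, rfl⟩
      rw [SetLike.mem_coe, LinearMap.mem_ker, Matrix.mulVecLin_apply]
      funext i
      exact hAv t i
    have h2 := Submodule.finrank_mono h1
    rw [finrank_span_eq_card hv, Fintype.card_fin] at h2
    exact h2
  have hrn : Module.finrank ℝ (LinearMap.range M.mulVecLin) +
      Module.finrank ℝ (LinearMap.ker M.mulVecLin) = Fintype.card β := by
    rw [LinearMap.finrank_range_add_finrank_ker, Module.finrank_fintype_fun_eq_card]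
  have hrank : Module.finrank ℝ (Submodule.span ℝ (Set.range r)) + (T + 1) ≤ Fintype.card β := by
    have h1 : Module.finrank ℝ (Submodule.span ℝ (Set.range r)) =
        Module.finrank ℝ (LinearMap.range M.mulVecLin) := by
      have h2 := M.rank_eq_finrank_span_row
      have h3 : M.row = r := rfl
      rw [h3] at h2
      rw [← h2]
      rfl
    omega
  obtain ⟨κ, a, ha, hspan, hli⟩ := exists_linearIndependent' (K := ℝ) r
  have : Finite κ := Finite.of_injective a ha
  have : Fintype κ := Fintype.ofFinite κ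
  have hκ : Fintype.card κ + (T + 1) ≤ Fintype.card β := by
    rw [← hspan, finrank_span_eq_card hli] at hrank
    exact hrank
  have hβ : (1 : ℝ) ≤ Fintype.card β := by exact_mod_cast (by omega : 1 ≤ Fintype.card β)
  have hGR : (1 : ℝ) ≤ G := by exact_mod_cast hG
  have hbase : (1 : ℝ) ≤ (Fintype.card β : ℝ) * G := by nlinarith
  -- from independent rows to all rows
  have hall : ∀ z : β → ℤ, (∀ q : κ, ∑ j, A (a q) j * z j = 0) → ∀ i, ∑ j, A i j * z j = 0 := by
    intro z hz i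
    let f : (β → ℝ) →ₗ[ℝ] ℝ := ∑ j, (z j : ℝ) • LinearMap.proj j
    have hf : ∀ w : β → ℝ, f w = ∑ j, (z j : ℝ) * w j := by
      intro w
      simp [f]
    have h1 : Submodule.span ℝ (Set.range (r ∘ a)) ≤ LinearMap.ker f := by
      rw [Submodule.span_le]
      rintro _ ⟨q, rfl⟩
      rw [SetLike.mem_coe, LinearMap.mem_ker, hf]
      have h2 : ((∑ j, A (a q) j * z j : ℤ) : ℝ) = 0 := by rw [hz q]; simp
      push_cast at h2
      rw [← h2]
      exact Finset.sum_congr rfl fun j _ => by simp only [Function.comp, r]; ring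
    have h2 : r i ∈ LinearMap.ker f := by
      apply h1
      rw [hspan]
      exact Submodule.subset_span ⟨i, rfl⟩
    rw [LinearMap.mem_ker, hf] at h2
    have h3 : ((∑ j, A i j * z j : ℤ) : ℝ) = 0 := by
      push_cast
      rw [← h2]
      exact Finset.sum_congr rfl fun j _ => by simp only [r]; ring
    exact_mod_cast h3
  by_cases h0 : Fintype.card κ = 0
  · have : IsEmpty κ := Fintype.card_eq_zero_iff.1 h0
    have : Nonempty β := Fintype.card_pos_iff.1 (by omega)
    obtain ⟨j0⟩ := (inferInstance : Nonempty β)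
    refine ⟨Pi.single j0 1, ?_, hall _ (fun q => isEmptyElim q), ?_⟩
    · intro h
      have := congrFun h j0
      simp at this
    · intro j
      have h1 : (|(Pi.single j0 (1 : ℤ) : β → ℤ) j| : ℝ) ≤ 1 := by
        rw [Pi.single_apply]
        split_ifs <;> simp
      exact h1.trans (Real.one_le_rpow hbase (by positivity))
  · obtain ⟨t, ht0, htA, htn⟩ := Int.Matrix.exists_ne_zero_int_vec_norm_le (A.submatrix a id)
      (by omega) (by omega)
    refine ⟨t, ht0, hall t ?_, ?_⟩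
    · intro q
      have := congrFun htA q
      simpa [Matrix.mulVec, dotProduct] using this
    · intro j
      have h1 : (|t j| : ℝ) ≤ ‖t‖ := by
        have := norm_le_pi_norm t j
        rwa [Int.norm_eq_abs] at this
      refine h1.trans (htn.trans ?_)
      have hn : ‖A.submatrix a id‖ ≤ G := by
        rw [Matrix.norm_le_iff (by positivity)]
        intro i j
        rw [Matrix.submatrix_apply, Int.norm_eq_abs, ← Int.cast_abs]
        exact_mod_cast hA _ _
      have hmax : max 1 ‖A.submatrix a id‖ ≤ (G : ℝ) := max_le hGR hn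
      have hmax1 : (1 : ℝ) ≤ max 1 ‖A.submatrix a id‖ := le_max_left _ _
      have hb1 : (1 : ℝ) ≤ (Fintype.card β : ℝ) * max 1 ‖A.submatrix a id‖ := by nlinarith
      have hκR : (Fintype.card κ : ℝ) + (T + 1) ≤ Fintype.card β := by exact_mod_cast hκ
      have hT0 : (0 : ℝ) < (T : ℝ) + 1 := by positivity
      have hexp : (Fintype.card κ : ℝ) / (Fintype.card β - Fintype.card κ) ≤
          (Fintype.card β : ℝ) / (T + 1) := by
        apply div_le_div₀ (by positivity) (by linarith) hT0 (by linarith)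
      calc ((Fintype.card β : ℝ) * max 1 ‖A.submatrix a id‖) ^
            ((Fintype.card κ : ℝ) / (Fintype.card β - Fintype.card κ))
          ≤ ((Fintype.card β : ℝ) * max 1 ‖A.submatrix a id‖) ^ ((Fintype.card β : ℝ) / (T + 1)) :=
            Real.rpow_le_rpow_of_exponent_le hb1 hexp
        _ ≤ ((Fintype.card β : ℝ) * G) ^ ((Fintype.card β : ℝ) / (T + 1)) :=
            Real.rpow_le_rpow (by linarith) (by nlinarith) (by positivity)

/-- the shifts of a vector are independent -/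
theorem shift_indep {κ : Type} [DecidableEq κ] (J J' : Finset (κ × ℕ)) (T : ℕ)
    (hJ' : ∀ i j t, (i, j) ∈ J → t ≤ T → (i, j + t) ∈ J')
    (a : κ → ℕ → ℝ) (ha : ∀ i j, a i j ≠ 0 → (i, j) ∈ J) (ha0 : ∃ i j, a i j ≠ 0) :
    LinearIndependent ℝ (fun (t : Fin (T + 1)) (p : J') =>
      if t.1 ≤ p.1.2 then a p.1.1 (p.1.2 - t.1) else 0) := by
  classical
  obtain ⟨i0, j0, hij⟩ := ha0
  -- the least index
  have hex : ∃ j, a i0 j ≠ 0 := ⟨j0, hij⟩
  set j1 := Nat.find hex with hj1
  have hj1a : a i0 j1 ≠ 0 := Nat.find_spec hex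
  have hj1m : ∀ j, j < j1 → a i0 j = 0 := fun j hj => by
    by_contra h
    exact Nat.find_min hex hj h
  rw [Fintype.linearIndependent_iff]
  intro g hg
  by_contra hne
  push Not at hne
  obtain ⟨t0, ht0⟩ := hne
  -- the least t with g t nonzero
  have hexg : ∃ t : ℕ, ∃ h : t < T + 1, g ⟨t, h⟩ ≠ 0 := ⟨t0.1, t0.2, ht0⟩
  obtain ⟨h1, h2⟩ := Nat.find_spec hexg
  set t1 := Nat.find hexg with ht1
  have hmin : ∀ t : Fin (T + 1), t.1 < t1 → g t = 0 := by
    intro t ht
    by_contra h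
    exact Nat.find_min hexg ht ⟨t.2, h⟩
  have hmem : (i0, j1 + t1) ∈ J' := hJ' i0 j1 t1 (ha _ _ hj1a) (by omega)
  have h3 := congrFun hg ⟨(i0, j1 + t1), hmem⟩
  simp only [Finset.sum_apply, Pi.smul_apply, smul_eq_mul, Pi.zero_apply] at h3
  rw [Finset.sum_eq_single ⟨t1, h1⟩] at h3
  · dsimp only at h3
    rw [if_pos (by omega), Nat.add_sub_cancel] at h3
    rcases mul_eq_zero.1 h3 with h4 | h4
    · exact h2 h4
    · exact hj1a h4
  · intro t _ htne
    rcases lt_trichotomy t.1 t1 with h4 | h4 | h4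
    · rw [hmin t h4, zero_mul]
    · exact absurd (Fin.ext h4) htne
    · split_ifs with h5
      · rw [hj1m _ (by omega), mul_zero]
      · rw [mul_zero]
  · intro h
    exact absurd (Finset.mem_univ _) h

/-- the shifts of a relation are relations -/
lemma shift_rel {κ : Type} [DecidableEq κ] (s : κ → ℕ → ℝ)
    (J J' : Finset (κ × ℕ)) (T : ℕ) (hJ' : ∀ i j t, (i, j) ∈ J → t ≤ T → (i, j + t) ∈ J')
    (a : κ → ℕ → ℝ) (ha : ∀ i j, a i j ≠ 0 → (i, j) ∈ J) (t : ℕ) (ht : t ≤ T) (n : ℕ)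
    (hrel : ∑ p ∈ J, a p.1 p.2 * s p.1 (n + t + p.2) = 0) :
    ∑ p ∈ J', s p.1 (n + p.2) * (if t ≤ p.2 then a p.1 (p.2 - t) else 0) = 0 := by
  classical
  have h2 : ∑ p ∈ J', s p.1 (n + p.2) * (if t ≤ p.2 then a p.1 (p.2 - t) else 0) =
      ∑ p ∈ J.image (fun p => (p.1, p.2 + t)),
        s p.1 (n + p.2) * (if t ≤ p.2 then a p.1 (p.2 - t) else 0) := by
    symm
    apply Finset.sum_subset
    · intro p hp
      obtain ⟨q, hq, rfl⟩ := Finset.mem_image.1 hp
      exact hJ' q.1 q.2 t hq ht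
    · intro p _ hp
      split_ifs with h3
      · have h4 : a p.1 (p.2 - t) = 0 := by
          by_contra h5
          apply hp
          rw [Finset.mem_image]
          refine ⟨(p.1, p.2 - t), ha _ _ h5, ?_⟩
          simp only
          rw [Nat.sub_add_cancel h3]
        rw [h4, mul_zero]
      · rw [mul_zero]
  rw [h2, Finset.sum_image]
  · rw [← hrel]
    refine Finset.sum_congr rfl fun p _ => ?_
    simp only
    rw [if_pos (by omega), Nat.add_sub_cancel, mul_comm]
    rw [show n + (p.2 + t) = n + t + p.2 by ring]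
  · intro p _ q _ hpq
    simp only [Prod.mk.injEq] at hpq
    exact Prod.ext hpq.1 (by omega)

/-- the number of equations lost -/
theorem siegel_shift {κ : Type} [Fintype κ] [DecidableEq κ] (s : κ → ℕ → ℤ) (G : ℕ) (hG : 1 ≤ G)
    (hs : ∀ i n, |s i n| ≤ G) (J J' : Finset (κ × ℕ)) (T : ℕ)
    (hJ' : ∀ i j t, (i, j) ∈ J → t ≤ T → (i, j + t) ∈ J')
    (a : κ → ℕ → ℝ) (ha : ∀ i j, a i j ≠ 0 → (i, j) ∈ J) (ha0 : ∃ i j, a i j ≠ 0) (I : Finset ℕ)
    (hrel : ∀ n ∈ I, ∑ p ∈ J, a p.1 p.2 * (s p.1 (n + p.2) : ℝ) = 0) :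
    ∃ z : κ → ℕ → ℤ, (∃ i j, z i j ≠ 0) ∧ (∀ i j, z i j ≠ 0 → (i, j) ∈ J') ∧
      (∀ i j, (|z i j| : ℝ) ≤ ((J'.card : ℝ) * G) ^ ((J'.card : ℝ) / (T + 1))) ∧
      ∀ n, (∀ t ≤ T, n + t ∈ I) → ∑ p ∈ J', z p.1 p.2 * s p.1 (n + p.2) = 0 := by
  classical
  -- the matrix
  let rows : Finset ℕ := I.filter fun n => ∀ t ≤ T, n + t ∈ I
  let A : Matrix rows J' ℤ := fun n p => s p.1.1 (n.1 + p.1.2)
  let v : Fin (T + 1) → J' → ℝ := fun t p => if t.1 ≤ p.1.2 then a p.1.1 (p.1.2 - t.1) else 0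
  have hv : LinearIndependent ℝ v := shift_indep J J' T hJ' a ha ha0
  have hAv : ∀ t i, ∑ j, (A i j : ℝ) * v t j = 0 := by
    intro t n
    have hn := (Finset.mem_filter.1 n.2).2
    have h1 : ∑ p : J', (A n p : ℝ) * v t p =
        ∑ p ∈ J', (s p.1 (n.1 + p.2) : ℝ) * (if t.1 ≤ p.2 then a p.1 (p.2 - t.1) else 0) :=
      Finset.sum_coe_sort J' (fun p => (s p.1 (n.1 + p.2) : ℝ) *
        (if t.1 ≤ p.2 then a p.1 (p.2 - t.1) else 0))
    rw [h1]
    exact shift_rel (fun i n => (s i n : ℝ)) J J' T hJ' a ha t.1 (by have := t.2; omega) n.1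
      (hrel _ (hn t.1 (by have := t.2; omega)))
  obtain ⟨z, hz0, hz1, hz2⟩ := siegel_rank A G hG (fun n p => hs _ _) T v hv hAv
  let Z : κ → ℕ → ℤ := fun i j => if h : (i, j) ∈ J' then z ⟨(i, j), h⟩ else 0
  refine ⟨Z, ?_, ?_, ?_, ?_⟩
  · obtain ⟨p, hp⟩ := Function.ne_iff.1 hz0
    refine ⟨p.1.1, p.1.2, ?_⟩
    simp only [Z]
    rw [dif_pos p.2]
    exact hp
  · intro i j h
    by_contra h1
    apply h
    simp only [Z]
    rw [dif_neg h1]
  · intro i j
    simp only [Z]
    split_ifs with h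
    · have := hz2 ⟨(i, j), h⟩
      rwa [Fintype.card_coe] at this
    · simp only [Int.cast_zero, abs_zero]
      positivity
  · intro n h1
    have h3 := hz1 ⟨n, Finset.mem_filter.2 ⟨by simpa using h1 0 (Nat.zero_le _), h1⟩⟩
    rw [← h3]
    rw [← Finset.sum_coe_sort J' (fun p => Z p.1 p.2 * s p.1 (n + p.2))]
    refine Finset.sum_congr rfl fun p _ => ?_
    simp only [Z, A]
    rw [dif_pos p.2, mul_comm]

end Pool.Agent.V5helper55.DM
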