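import Mathlib
import Pool.Agent.V5helper55.DM.Siegel
import Pool.Agent.V5helper55.DM.Div
import Pool.Agent.V5helper55.DM.Count

/-!
# From a relation to a small relation which does not vanish at `b`
-/

set_option autoImplicit false

open Finset Polynomial

namespace Pool.Agent.V5helper55.DM

open Pool.Agent.V5helper55.TB (rel rel_eq)

/-- the bound for the multiplicities -/
def lam (c ρ N : ℕ) : ℕ := (Nat.log 2 (c * N) + 2) * (ρ + 1)

lemma pow_bound {b c ρ N : ℕ} (hb : 2 ≤ b) :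
    (c * N * b) ^ ρ ≤ b ^ ((Nat.log 2 (c * N) + 2) * ρ) := by
  rw [pow_mul]
  apply Nat.pow_le_pow_left
  have h1 : c * N < 2 ^ (Nat.log 2 (c * N) + 1) := Nat.lt_pow_succ_log_self (by norm_num) _
  have h2 : 2 ^ (Nat.log 2 (c * N) + 1) ≤ b ^ (Nat.log 2 (c * N) + 1) := Nat.pow_le_pow_left hb _
  calc c * N * b ≤ b ^ (Nat.log 2 (c * N) + 1) * b := Nat.mul_le_mul_right _ (h1.le.trans h2)
    _ = b ^ (Nat.log 2 (c * N) + 2) := by rw [← pow_succ]

/-- one window -/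
theorem step {κ : Type} [Fintype κ] [DecidableEq κ] {K K' b : ℕ} (hb : 2 ≤ b) {B₀ : ℕ}
    (hB₀ : 1 ≤ B₀) (s : κ → ℕ → ℤ)
    (hs : ∀ i n, |s i n| ≤ ((B₀ * b : ℕ) : ℤ)) (ic : Fin K → κ) (lo hi : Fin K → ℕ)
    (u v : Fin K' → ℕ) (T N c ρ W : ℕ) (hu : ∀ k, N < u k)
    (hW : ∀ k, hi k + T ≤ W + 1)
    (hJ : (cols ic lo (fun k => hi k + T)).card * B₀ ≤ c * N)
    (hκW : Fintype.card κ * (W + 1) * B₀ ≤ c * N) (hρ : c * N ≤ ρ * (T + 1))
    (a : κ → ℕ → ℝ) (ha : ∀ i j, a i j ≠ 0 → (i, j) ∈ cols ic lo hi) (ha0 : ∃ i j, a i j ≠ 0)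
    (hrel : ∀ n ∈ ints u v, ∑ p ∈ cols ic lo hi, a p.1 p.2 * (s p.1 (n + p.2) : ℝ) = 0) :
    ∃ y : κ → ℕ → ℤ, (∃ i, ∑ j ∈ range (W + 1), y i j * (b : ℤ) ^ j ≠ 0) ∧
      (∀ i j, |y i j| ≤ (((c * N * b) ^ ρ : ℕ) : ℤ)) ∧
      (∀ i j, y i j ≠ 0 → (i, j) ∈ cols ic (fun k => lo k - lam c ρ N ^ 2) (fun k => hi k + T)) ∧
      ∀ k n, u k ≤ n → n + (T + lam c ρ N ^ 2) < v k →
        ∑ i, ∑ j ∈ range (W + 1), y i j * s i (n + j) = 0 := by
  classical
  have hG : 1 ≤ B₀ * b := Nat.mul_pos hB₀ (by omega)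
  set J' := cols ic lo (fun k => hi k + T) with hJ'
  obtain ⟨z, hz0, hz1, hz2, hz3⟩ := siegel_shift s (B₀ * b) hG hs (cols ic lo hi) J' T
    (by
      intro i j t hij ht
      obtain ⟨k, h1, h2, h3⟩ := mem_cols.1 hij
      exact mem_cols.2 ⟨k, h1, by omega, by omega⟩) a ha ha0 (ints u v) hrel
  have hz1' : ∀ i j, z i j ≠ 0 → j < W + 1 := by
    intro i j h
    obtain ⟨k, h1, h2, h3⟩ := mem_cols.1 (hz1 i j h)
    have := hW k
    omega
  obtain ⟨i0, j0, hij0⟩ := hz0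
  have hJ'pos : 1 ≤ J'.card := card_pos.2 ⟨_, hz1 i0 j0 hij0⟩
  have hJJ : J'.card ≤ J'.card * B₀ := Nat.le_mul_of_pos_right _ hB₀
  have hcN : 1 ≤ c * N := (hJ'pos.trans hJJ).trans hJ
  -- the height
  have hB : ∀ i j, |z i j| ≤ (((c * N * b) ^ ρ : ℕ) : ℤ) := by
    intro i j
    have h1 := hz2 i j
    have hbR : (2 : ℝ) ≤ b := by exact_mod_cast hb
    have hBR : (1 : ℝ) ≤ B₀ := by exact_mod_cast hB₀
    have hJR : (1 : ℝ) ≤ J'.card := by exact_mod_cast hJ'pos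
    have hJR2 : (J'.card : ℝ) * B₀ ≤ c * N := by exact_mod_cast hJ
    have h2 : (1 : ℝ) ≤ (J'.card : ℝ) * ((B₀ * b : ℕ) : ℝ) := by
      push_cast
      nlinarith [mul_le_mul hBR hbR (by norm_num) (by linarith)]
    have h3 : (J'.card : ℝ) * ((B₀ * b : ℕ) : ℝ) ≤ c * N * b := by
      push_cast
      rw [← mul_assoc]
      exact mul_le_mul_of_nonneg_right hJR2 (by linarith)
    have h4 : (J'.card : ℝ) / (T + 1) ≤ ρ := by
      rw [div_le_iff₀ (by positivity)]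
      have h5 : ((c * N : ℕ) : ℝ) ≤ ((ρ * (T + 1) : ℕ) : ℝ) := by exact_mod_cast hρ
      have h6 : (J'.card : ℝ) ≤ ((J'.card * B₀ : ℕ) : ℝ) := by exact_mod_cast hJJ
      push_cast at h5 h6
      linarith
    have h5 : (|z i j| : ℝ) ≤ (c * N * b : ℝ) ^ ρ := by
      calc (|z i j| : ℝ) ≤ ((J'.card : ℝ) * ((B₀ * b : ℕ) : ℝ)) ^ ((J'.card : ℝ) / (T + 1)) := h1
        _ ≤ ((J'.card : ℝ) * ((B₀ * b : ℕ) : ℝ)) ^ (ρ : ℝ) :=
            Real.rpow_le_rpow_of_exponent_le h2 h4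
        _ ≤ (c * N * b : ℝ) ^ (ρ : ℝ) := Real.rpow_le_rpow (by linarith) h3 (by positivity)
        _ = (c * N * b : ℝ) ^ ρ := Real.rpow_natCast _ _
    exact_mod_cast h5
  -- the polynomials
  let Z : κ → ℤ[X] := fun i => ∑ j ∈ range (W + 1), monomial j (z i j)
  have hcoef : ∀ i j, (Z i).coeff j = z i j := by
    intro i j
    simp only [Z, Polynomial.finsetSum_coeff, Polynomial.coeff_monomial]
    rw [Finset.sum_ite_eq' (range (W + 1)) j (z i)]
    split_ifs with h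
    · rfl
    · by_contra h1
      exact h (mem_range.2 (hz1' i j (Ne.symm h1)))
  have hdeg : ∀ i, (Z i).natDegree ≤ W := by
    intro i
    rw [Polynomial.natDegree_le_iff_coeff_eq_zero]
    intro n hn
    rw [hcoef]
    by_contra h
    have := hz1' i n h
    omega
  have hrelZ : ∀ n, (∀ t ≤ T, n + t ∈ ints u v) → relF s Z n = 0 := by
    intro n h1
    rw [← hz3 n h1]
    unfold relF
    have h3 : ∀ i ∈ (univ : Finset κ), rel (s i) (Z i) n =
        ∑ j ∈ range (W + 1), z i j * s i (n + j) := by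
      intro i _
      rw [rel_eq (s i) (Z i) n W (hdeg i)]
      exact sum_congr rfl fun j _ => by rw [hcoef]
    rw [sum_congr rfl h3, ← sum_product' (univ : Finset κ) (range (W + 1))
      (fun i j => z i j * s i (n + j))]
    symm
    apply sum_subset
    · rintro ⟨i, j⟩ h
      obtain ⟨k, h4, h5, h6⟩ := mem_cols.1 h
      rw [mem_product, mem_range]
      have := hW k
      exact ⟨mem_univ _, by simp only; omega⟩
    · rintro ⟨i, j⟩ _ h
      have h4 : z i j = 0 := by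
        by_contra h5
        exact h (hz1 i j h5)
      simp only [h4, zero_mul]
  have hlam : Fintype.card κ * ((W + 1) * ((((c * N * b) ^ ρ : ℕ) : ℤ) * ((B₀ * b : ℕ) : ℤ))) <
      (b : ℤ) ^ lam c ρ N := by
    have h1 : Fintype.card κ * (W + 1) * B₀ < b ^ (Nat.log 2 (c * N) + 1) :=
      (hκW.trans_lt (Nat.lt_pow_succ_log_self (by norm_num) _)).trans_le (Nat.pow_le_pow_left hb _)
    have h2 := pow_bound (c := c) (ρ := ρ) (N := N) hb
    have h3 : Fintype.card κ * ((W + 1) * ((c * N * b) ^ ρ * (B₀ * b))) < b ^ lam c ρ N := by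
      calc Fintype.card κ * ((W + 1) * ((c * N * b) ^ ρ * (B₀ * b)))
          = (Fintype.card κ * (W + 1) * B₀) * ((c * N * b) ^ ρ * b) := by ring
        _ < b ^ (Nat.log 2 (c * N) + 1) * ((c * N * b) ^ ρ * b) := by
            apply Nat.mul_lt_mul_of_pos_right h1
            positivity
        _ ≤ b ^ (Nat.log 2 (c * N) + 1) * (b ^ ((Nat.log 2 (c * N) + 2) * ρ) * b) := by
            apply Nat.mul_le_mul_left
            exact Nat.mul_le_mul_right _ h2
        _ = b ^ lam c ρ N := by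
            unfold lam
            rw [mul_comm (b ^ ((Nat.log 2 (c * N) + 2) * ρ)) b, ← mul_assoc, ← pow_succ, ← pow_add]
            congr 1
            ring
    exact_mod_cast h3
  obtain ⟨Y, t, hY1, hY2, hY3, hY4, hY5⟩ := divide hb s (B₀ * b) hG hs Z
    ⟨i0, fun h => hij0 (by rw [← hcoef, h, Polynomial.coeff_zero])⟩ W
    (((c * N * b) ^ ρ : ℕ) : ℤ) hdeg (fun i j => by rw [hcoef]; exact hB i j) (lam c ρ N) hlam
  have ht : t ≤ lam c ρ N := by
    have h1 : b ^ t ≤ (c * N * b) ^ ρ := by exact_mod_cast hY2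
    have h2 := h1.trans (pow_bound hb)
    have h3 := (Nat.pow_le_pow_iff_right (by omega : 1 < b)).1 h2
    refine h3.trans ?_
    unfold lam
    exact Nat.mul_le_mul_left _ (by omega)
  have htl : t * lam c ρ N ≤ lam c ρ N ^ 2 := by
    rw [pow_two]
    exact Nat.mul_le_mul_right _ ht
  have hsupp : ∀ i j, (Y i).coeff j ≠ 0 →
      (i, j) ∈ cols ic (fun k => lo k - lam c ρ N ^ 2) (fun k => hi k + T) := by
    intro i j h
    obtain ⟨u, h1, h2, h3⟩ := hY4 i j h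
    rw [hcoef] at h3
    obtain ⟨k, h4, h5, h6⟩ := mem_cols.1 (hz1 i u h3)
    exact mem_cols.2 ⟨k, h4, by omega, by omega⟩
  have hYdeg : ∀ i, (Y i).natDegree < W + 1 := by
    intro i
    rw [Nat.lt_succ_iff, Polynomial.natDegree_le_iff_coeff_eq_zero]
    intro n hn
    by_contra h
    obtain ⟨k, h4, h5, h6⟩ := mem_cols.1 (hsupp i n h)
    have := hW k
    omega
  refine ⟨fun i j => (Y i).coeff j, ?_, hY3, hsupp, ?_⟩
  · obtain ⟨i, hi⟩ := hY1
    refine ⟨i, ?_⟩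
    rwa [Polynomial.eval_eq_sum_range' (hYdeg i)] at hi
  · intro k n h1 h2
    have h0 := hu k
    have h3 := hY5 (u k - 1) (v k - T - 1) (by
      intro n' g1 g2
      refine hrelZ n' fun t ht => mem_ints.2 ⟨k, by omega, by omega⟩) n (by omega) (by omega)
    rw [← h3]
    unfold relF
    refine sum_congr rfl fun i _ => ?_
    rw [rel_eq (s i) (Y i) n W (by have := hYdeg i; omega)]

end Pool.Agent.V5helper55.DM
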