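import Mathlib
import Pool.Agent.V5helper55.DM.Core
import Pool.Agent.V5helper55.DM.Step

/-!
# The extraction of an ultrafilter
-/

set_option autoImplicit false

open Filter Topology Finset

namespace Pool.Agent.V5helper55.DM

/-- an ultrafilter along which `N log b` is asymptotic to the index -/
lemma exists_ultra (N b : ℕ → ℕ) (hN : ∀ j, j ≤ N j) (hb : ∀ j, 2 ≤ b j) :
    ∃ (U : Ultrafilter ℕ) (idx : ℕ → ℕ), (U : Filter ℕ) ≤ atTop ∧
      Tendsto (fun m => N (idx m)) U atTop ∧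
      Tendsto (fun m : ℕ => (N (idx m) : ℝ) * Real.log (b (idx m)) / m) U (𝓝 1) := by
  have hl2 : 0 < Real.log 2 := Real.log_pos (by norm_num)
  let v : ℕ → ℝ := fun j => (N j : ℝ) * Real.log (b j)
  have hv : Tendsto v atTop atTop := by
    have h1 : Tendsto (fun j : ℕ => (j : ℝ) * Real.log 2) atTop atTop :=
      (tendsto_natCast_atTop_atTop (R := ℝ)).atTop_mul_const hl2
    refine tendsto_atTop_mono (fun j => ?_) h1
    have h2 : (j : ℝ) ≤ N j := by exact_mod_cast hN j
    have h3 : Real.log 2 ≤ Real.log (b j) := Real.log_le_log (by norm_num) (by exact_mod_cast hb j)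
    exact mul_le_mul h2 h3 hl2.le (Nat.cast_nonneg _)
  have hf : Tendsto (fun j => ⌈v j⌉₊) atTop atTop := tendsto_nat_ceil_atTop.comp hv
  obtain ⟨φ, hφ, hg⟩ := strictMono_subseq_of_tendsto_atTop hf
  set g : ℕ → ℕ := (fun j => ⌈v j⌉₊) ∘ φ with hgdef
  have hinv : ∀ j, Function.invFun g (g j) = j := Function.leftInverse_invFun hg.injective
  refine ⟨(hyperfilter ℕ).map g, fun m => φ (Function.invFun g m), ?_, ?_, ?_⟩
  · have h1 : Tendsto g (hyperfilter ℕ : Filter ℕ) atTop :=
      hg.tendsto_atTop.mono_left Nat.hyperfilter_le_atTop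
    exact h1
  · change Tendsto (fun m => N (φ (Function.invFun g m))) (Filter.map g (hyperfilter ℕ : Filter ℕ)) atTop
    rw [tendsto_map'_iff]
    refine Tendsto.mono_left (tendsto_atTop_mono (fun j => ?_) tendsto_id) Nat.hyperfilter_le_atTop
    simp only [Function.comp, id]
    rw [hinv]
    exact (hφ.id_le j).trans (hN _)
  · change Tendsto (fun m : ℕ => (N (φ (Function.invFun g m)) : ℝ) *
      Real.log (b (φ (Function.invFun g m))) / m) (Filter.map g (hyperfilter ℕ : Filter ℕ)) (𝓝 1)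
    rw [tendsto_map'_iff]
    have h1 : Tendsto (fun j => (⌈v (φ j)⌉₊ : ℝ) / v (φ j)) atTop (𝓝 1) :=
      (tendsto_nat_ceil_div_atTop (R := ℝ)).comp (hv.comp hφ.tendsto_atTop)
    have h2 : Tendsto (fun j => ((⌈v (φ j)⌉₊ : ℝ) / v (φ j))⁻¹) atTop (𝓝 1) := by
      have := h1.inv₀ one_ne_zero
      rwa [inv_one] at this
    refine (h2.mono_left Nat.hyperfilter_le_atTop).congr fun j => ?_
    simp only [Function.comp]
    rw [show Function.invFun g (g j) = j from hinv j, inv_div]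
    rfl

lemma dvd_pow_log {b B : ℕ} (hb : 1 ≤ b) (hB : 1 ≤ B) (h : ∀ p : ℕ, p.Prime → p ∣ b → p ∣ B) :
    b ∣ B ^ Nat.log 2 b := by
  rw [← Nat.factorization_le_iff_dvd (by omega) (pow_ne_zero _ (by omega))]
  intro p
  rw [Nat.factorization_pow, Finsupp.smul_apply, smul_eq_mul]
  by_cases hp : p.Prime
  · by_cases hpb : p ∣ b
    · have h1 : 1 ≤ B.factorization p := (hp.dvd_iff_one_le_factorization (by omega)).1 (h p hp hpb)
      have h2 : b.factorization p ≤ Nat.log 2 b := by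
        apply Nat.le_log_of_pow_le (by norm_num)
        calc 2 ^ b.factorization p ≤ p ^ b.factorization p := Nat.pow_le_pow_left hp.two_le _
          _ ≤ b := Nat.le_of_dvd (by omega) (Nat.ordProj_dvd b p)
      calc b.factorization p ≤ Nat.log 2 b * 1 := by omega
        _ ≤ Nat.log 2 b * B.factorization p := Nat.mul_le_mul_left _ h1
    · rw [Nat.factorization_eq_zero_of_not_dvd hpb]
      exact Nat.zero_le _
  · rw [Nat.factorization_eq_zero_of_not_prime _ hp]
    exact Nat.zero_le _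

lemma base_dvd {U : Ultrafilter ℕ} (hU : (U : Filter ℕ) ≤ atTop) {N b : ℕ → ℕ} {B : ℕ}
    (hB : 1 ≤ B) (hb : ∀ m, 2 ≤ b m) (hbB : ∀ m, ∀ p : ℕ, p.Prime → p ∣ b m → p ∣ B)
    (hlog : Tendsto (fun m : ℕ => (N m : ℝ) * Real.log (b m) / m) U (𝓝 1)) :
    ∀ᶠ m in U, b m ^ N m ∣ B ^ (2 * m) := by
  filter_upwards [(tendsto_order.1 hlog).2 (13 / 10) (by norm_num), TB.ev_ge hU 1] with m a1 a2
  have hm : (0 : ℝ) < m := by linarith
  rw [div_lt_iff₀ hm] at a1
  have hl2 : (0.69 : ℝ) < Real.log 2 := by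
    have := Real.log_two_gt_d9
    linarith
  have h1 : (Nat.log 2 (b m) : ℝ) * Real.log 2 ≤ Real.log (b m) := by
    rw [← Real.log_pow]
    apply Real.log_le_log (by positivity)
    have h2 : 2 ^ Nat.log 2 (b m) ≤ b m := Nat.pow_log_le_self 2 (by have := hb m; omega)
    exact_mod_cast h2
  have h2 : (N m : ℝ) * (Nat.log 2 (b m) * Real.log 2) ≤ 13 / 10 * m :=
    (mul_le_mul_of_nonneg_left h1 (Nat.cast_nonneg _)).trans a1.le
  have h3 : Nat.log 2 (b m) * N m ≤ 2 * m := by
    by_contra h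
    push Not at h
    have h4 : (2 * m : ℝ) ≤ (Nat.log 2 (b m) : ℝ) * N m := by exact_mod_cast h.le
    have h5 : (2 * m : ℝ) * 0.69 ≤ (Nat.log 2 (b m) : ℝ) * N m * Real.log 2 :=
      mul_le_mul h4 hl2.le (by norm_num) (by positivity)
    nlinarith
  calc b m ^ N m ∣ (B ^ Nat.log 2 (b m)) ^ N m :=
        pow_dvd_pow_of_dvd (dvd_pow_log (by have := hb m; omega) hB (hbB m)) _
    _ = B ^ (Nat.log 2 (b m) * N m) := by rw [← pow_mul]
    _ ∣ B ^ (2 * m) := pow_dvd_pow _ h3

lemma lam_small (c ρ : ℕ) : Tendsto (fun n : ℕ => ((lam c ρ n ^ 2 : ℕ) : ℝ) / n) atTop (𝓝 0) := by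
  have hl2 : (0.69 : ℝ) < Real.log 2 := by
    have := Real.log_two_gt_d9
    linarith
  -- the logarithm
  have h1 : ∀ n : ℕ, 1 ≤ n → (Nat.log 2 (c * n) : ℝ) ≤ 2 * (Real.log c + Real.log n) := by
    intro n hn
    have hnR : (1 : ℝ) ≤ n := by exact_mod_cast hn
    rcases Nat.eq_zero_or_pos c with rfl | hc
    · have := Real.log_nonneg hnR
      simp only [zero_mul, Nat.log_zero_right, Nat.cast_zero, Real.log_zero, zero_add]
      linarith
    · have hcR : (1 : ℝ) ≤ c := by exact_mod_cast hc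
      have h2 : (Nat.log 2 (c * n) : ℝ) * Real.log 2 ≤ Real.log c + Real.log n := by
        rw [← Real.log_mul (by positivity) (by positivity), ← Real.log_pow]
        apply Real.log_le_log (by positivity)
        have h2 : 2 ^ Nat.log 2 (c * n) ≤ c * n := Nat.pow_log_le_self 2 (by positivity)
        exact_mod_cast h2
      have h3 : (0 : ℝ) ≤ Nat.log 2 (c * n) := Nat.cast_nonneg _
      nlinarith
  have h2 : ∀ n : ℕ, 1 ≤ n → ((lam c ρ n ^ 2 : ℕ) : ℝ) / n ≤
      (8 * (ρ + 1 : ℝ) ^ 2) * (Real.log n ^ 2 / n) +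
      (2 * ((2 * Real.log c + 2) * (ρ + 1)) ^ 2) * (1 / n) := by
    intro n hn
    have hnR : (0 : ℝ) < n := by exact_mod_cast hn
    rw [mul_div_assoc', mul_div_assoc', ← add_div]
    refine div_le_div_of_nonneg_right ?_ hnR.le
    have h3 : (lam c ρ n : ℝ) ≤ 2 * (ρ + 1) * Real.log n + (2 * Real.log c + 2) * (ρ + 1) := by
      unfold lam
      push_cast
      have h4 := h1 n hn
      have h5 : (0 : ℝ) ≤ (ρ : ℝ) + 1 := by positivity
      nlinarith
    have h4 : (0 : ℝ) ≤ lam c ρ n := Nat.cast_nonneg _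
    push_cast
    calc (lam c ρ n : ℝ) ^ 2 ≤ (2 * (ρ + 1) * Real.log n + (2 * Real.log c + 2) * (ρ + 1)) ^ 2 :=
          pow_le_pow_left₀ h4 h3 2
      _ ≤ 8 * (ρ + 1 : ℝ) ^ 2 * Real.log n ^ 2 + 2 * ((2 * Real.log c + 2) * (ρ + 1)) ^ 2 * 1 := by
          nlinarith [sq_nonneg (2 * (ρ + 1) * Real.log n - (2 * Real.log c + 2) * (ρ + 1))]
  have h3 : Tendsto (fun n : ℕ => Real.log n ^ 2 / (n : ℝ)) atTop (𝓝 0) := by
    have h4 := (Real.isLittleO_pow_log_id_atTop (n := 2)).tendsto_div_nhds_zero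
    exact h4.comp (tendsto_natCast_atTop_atTop (R := ℝ))
  have h4 : Tendsto (fun n : ℕ => 1 / (n : ℝ)) atTop (𝓝 0) := tendsto_one_div_atTop_nhds_zero_nat
  have h5 := (h3.const_mul (8 * (ρ + 1 : ℝ) ^ 2)).add
    (h4.const_mul (2 * ((2 * Real.log c + 2) * (ρ + 1)) ^ 2))
  rw [mul_zero, mul_zero, add_zero] at h5
  refine squeeze_zero' (Eventually.of_forall fun n => by positivity) ?_ h5
  filter_upwards [eventually_ge_atTop 1] with n hn
  exact h2 n hn

/-- the enumeration of the changed places -/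
lemma enum_err {κ : Type} (E : ℕ) (F : Finset ℕ) (hF : F.card ≤ E) (e : κ → ℕ → ℤ)
    (he : ∀ i n, e i n ≠ 0 → n ∈ F) {A : ℤ} (hA : 0 ≤ A) (heA : ∀ i n, |e i n| ≤ A) :
    ∃ (pl : Fin E → ℕ) (ev : Fin E → κ → ℤ), (∀ i n, e i n = ∑ l, if n = pl l then ev l i else 0) ∧
      (∀ l, pl l ∈ F ∨ pl l = 0) ∧ ∀ l i, |ev l i| ≤ A := by
  classical
  let eq := F.equivFin
  let pl : Fin E → ℕ := fun l => if h : l.1 < F.card then (eq.symm ⟨l.1, h⟩ : ℕ) else 0
  let ev : Fin E → κ → ℤ := fun l i =>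
    if h : l.1 < F.card then e i (eq.symm ⟨l.1, h⟩ : ℕ) else 0
  refine ⟨pl, ev, ?_, ?_, ?_⟩
  · intro i n
    by_cases hn : n ∈ F
    · have h1 : (eq ⟨n, hn⟩).1 < E := lt_of_lt_of_le (eq ⟨n, hn⟩).2 hF
      rw [Finset.sum_eq_single ⟨(eq ⟨n, hn⟩).1, h1⟩]
      · simp only [pl, ev]
        rw [dif_pos (eq ⟨n, hn⟩).2, dif_pos (eq ⟨n, hn⟩).2]
        simp
      · intro l _ hl
        split_ifs with h2
        · simp only [ev]
          split_ifs with h3
          · exfalso
            apply hl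
            simp only [pl] at h2
            rw [dif_pos h3] at h2
            apply Fin.ext
            have h4 : (⟨n, hn⟩ : F) = eq.symm ⟨l.1, h3⟩ := Subtype.ext h2
            simp only
            rw [h4]
            simp
          · rfl
        · rfl
      · intro h
        exact absurd (Finset.mem_univ _) h
    · have h0 : e i n = 0 := by
        by_contra h
        exact hn (he i n h)
      rw [h0]
      symm
      refine Finset.sum_eq_zero fun l _ => ?_
      split_ifs with h2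
      · simp only [ev]
        split_ifs with h3
        · exfalso
          apply hn
          rw [h2]
          simp only [pl]
          rw [dif_pos h3]
          exact (eq.symm ⟨l.1, h3⟩).2
        · rfl
      · rfl
  · intro l
    simp only [pl]
    split_ifs with h
    · exact Or.inl (eq.symm ⟨l.1, h⟩).2
    · exact Or.inr rfl
  · intro l i
    simp only [ev]
    split_ifs with h
    · exact heA _ _
    · rw [abs_zero]; exact hA

end Pool.Agent.V5helper55.DM
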