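import Mathlib
import Pool.Agent.V5helper55.DM.Ext

/-!
# The matrices of digits of algebraic numbers
-/

set_option autoImplicit false

open Filter Topology Finset

namespace Pool.Agent.V5helper55.DM

/-- data for which the columns are dependent -/
structure Bad {κ : Type} [Fintype κ] [DecidableEq κ] (x : κ → ℝ) (S : Finset ℕ) (K E B₀ : ℕ)
    (C ε : ℝ) (j N b : ℕ) (P s : κ → ℕ → ℤ) (pl : Fin E → ℕ) (ev : Fin E → κ → ℤ)
    (ic : Fin K → κ) (lo hi u v : Fin K → ℕ) (a : κ → ℕ → ℝ) : Prop where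
  hN : j ≤ N
  hN1 : 1 ≤ N
  hb : 2 ≤ b
  hbS : ∀ p : ℕ, p.Prime → p ∣ b → p ∈ S
  hP : ∀ i n, |x i * (b : ℝ) ^ n - (P i n : ℝ)| ≤ 2 * B₀
  hs : ∀ i n, |s i n| ≤ ((B₀ * b : ℕ) : ℤ)
  hse : ∀ i n, s i (n + 1) = P i (n + 1) - b * P i n + ∑ l, if n + 1 = pl l then ev l i else 0
  hev : ∀ l i, |ev l i| ≤ ((2 * B₀ * b : ℕ) : ℤ)
  hpl : ∀ l, (pl l : ℝ) ≤ 2 * |C| * N
  hhi : ∀ c, (hi c : ℝ) ≤ C * N
  hu : ∀ c, N < u c
  hv : ∀ c, (v c : ℝ) ≤ C * N
  hcard : ((E : ℝ) + 1) * (cols ic lo hi).card + ε * N ≤ (ints u v).card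
  ha : ∀ i j, a i j ≠ 0 → (i, j) ∈ cols ic lo hi
  ha0 : ∃ i j, a i j ≠ 0
  hrel : ∀ n ∈ ints u v, ∑ p ∈ cols ic lo hi, a p.1 p.2 * (s p.1 (n + p.2) : ℝ) = 0

lemma sz_pow {U : Ultrafilter ℕ} (hU : (U : Filter ℕ) ≤ atTop) {z : ℕ → ℝ} (hz : TB.Sz U z 0)
    (n : ℕ) : TB.Sz U (fun m => z m ^ n) 0 := by
  induction n with
  | zero => simpa using TB.Sz.const hU 1
  | succ n ih =>
    have := ih.mul hz
    rw [add_zero] at this
    simpa only [pow_succ] using this

/-- there is no sequence of bad data -/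
theorem no_seq {κ : Type} [Fintype κ] [DecidableEq κ] (x : κ → ℝ) (hx : ∀ i, IsAlgebraic ℚ (x i))
    (hlin : ∀ (c : κ → ℤ) (z : ℤ), ∑ i, x i * (c i : ℝ) = z → ∀ i, c i = 0)
    (S : Finset ℕ) (hS : ∀ p ∈ S, p.Prime) (K E B₀ : ℕ) (hB₀ : 1 ≤ B₀) (C ε : ℝ) (hε : 0 < ε)
    (h : ∀ j : ℕ, ∃ (N b : ℕ) (P s : κ → ℕ → ℤ) (pl : Fin E → ℕ) (ev : Fin E → κ → ℤ)
      (ic : Fin K → κ) (lo hi u v : Fin K → ℕ) (a : κ → ℕ → ℝ),
      Bad x S K E B₀ C ε j N b P s pl ev ic lo hi u v a) : False := by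
  classical
  choose N₁ b₁ P₁ s₁ pl₁ ev₁ ic₁ lo₁ hi₁ u₁ v₁ a₁ hbad using h
  obtain ⟨U, idx, hU, hNt, hlog⟩ := exists_ultra N₁ b₁ (fun j => (hbad j).hN) (fun j => (hbad j).hb)
  -- the constants
  have hE1 : (0 : ℝ) < (E : ℝ) + 1 := by positivity
  have hK1 : (0 : ℝ) < (K : ℝ) + 1 := by positivity
  have hB₀R : (1 : ℝ) ≤ B₀ := by exact_mod_cast hB₀
  have hC1 : 1 < C := by
    have h1 := (hbad 0).hcard
    have h2 : (1 : ℝ) ≤ N₁ 0 := by exact_mod_cast (hbad 0).hN1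
    have h3 : (0 : ℝ) < (ints (u₁ 0) (v₁ 0)).card := by
      refine lt_of_lt_of_le ?_ h1
      positivity
    have h4 : 0 < (ints (u₁ 0) (v₁ 0)).card := by exact_mod_cast h3
    obtain ⟨n, hn⟩ := card_pos.1 h4
    obtain ⟨c, g1, g2⟩ := mem_ints.1 hn
    have g3 := (hbad 0).hu c
    have g4 := (hbad 0).hv c
    have g5 : (N₁ 0 : ℝ) < v₁ 0 c := by exact_mod_cast (by omega : N₁ 0 < v₁ 0 c)
    by_contra g6
    push Not at g6
    nlinarith
  have hC0 : 0 < C := by linarith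
  obtain ⟨η, hηdef⟩ : ∃ η : ℝ, η = ε / (8 * ((E : ℝ) + 2) * (K + 1)) := ⟨_, rfl⟩
  have hη : 0 < η := by rw [hηdef]; positivity
  have hηε : 8 * ((E : ℝ) + 2) * (K + 1) * η = ε := by rw [hηdef]; field_simp
  let N : ℕ → ℕ := fun m => N₁ (idx m)
  let b : ℕ → ℕ := fun m => b₁ (idx m)
  have hD : ∀ m, Bad x S K E B₀ C ε (idx m) (N m) (b m) (P₁ (idx m)) (s₁ (idx m)) (pl₁ (idx m))
    (ev₁ (idx m)) (ic₁ (idx m)) (lo₁ (idx m)) (hi₁ (idx m)) (u₁ (idx m)) (v₁ (idx m))
    (a₁ (idx m)) := fun m => hbad (idx m)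
  let cc : ℕ → ℕ := fun m => (cols (ic₁ (idx m)) (lo₁ (idx m)) (hi₁ (idx m))).card
  let ii : ℕ → ℕ := fun m => (ints (u₁ (idx m)) (v₁ (idx m))).card
  have hN1 : ∀ m, 1 ≤ N m := fun m => (hD m).hN1
  have hNpos : ∀ m, (0 : ℝ) < N m := fun m => by exact_mod_cast hN1 m
  have hNR1 : ∀ m, (1 : ℝ) ≤ N m := fun m => by exact_mod_cast hN1 m
  have hNR : Tendsto (fun m => (N m : ℝ)) U atTop :=
    (tendsto_natCast_atTop_atTop (R := ℝ)).comp hNt
  let M : ℕ → ℕ := fun m => ⌊C * (N m : ℝ)⌋₊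
  have hMC : ∀ m, (M m : ℝ) ≤ C * N m := fun m => Nat.floor_le (by have := hNpos m; positivity)
  have hvM : ∀ m c, v₁ (idx m) c ≤ M m := fun m c => Nat.le_floor ((hD m).hv c)
  have hNM : ∀ m, N m ≤ M m := by
    intro m
    apply Nat.le_floor
    have := hNpos m
    nlinarith
  have hii : ∀ m, (ii m : ℝ) ≤ C * N m := by
    intro m
    have h1 : ii m ≤ M m := by
      have h2 : ints (u₁ (idx m)) (v₁ (idx m)) ⊆ range (M m) := by
        intro n hn
        obtain ⟨c, g1, g2⟩ := mem_ints.1 hn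
        exact mem_range.2 (lt_of_lt_of_le g2 (hvM m c))
      have h3 := card_le_card h2
      rwa [card_range] at h3
    have h2 : (ii m : ℝ) ≤ M m := by exact_mod_cast h1
    exact h2.trans (hMC m)
  have hcc : ∀ m, ((E : ℝ) + 1) * cc m + ε * N m ≤ ii m := fun m => (hD m).hcard
  have hccC : ∀ m, (cc m : ℝ) ≤ C * N m := by
    intro m
    have h1 := hcc m
    have h2 : (0 : ℝ) ≤ cc m := Nat.cast_nonneg _
    have h3 : (0 : ℝ) ≤ E := Nat.cast_nonneg _
    have h4 := hii m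
    have h5 : 0 ≤ ε * N m := by have := hNpos m; positivity
    nlinarith
  obtain ⟨ω, hω⟩ := exists_lim_ratio (U := U) (u := cc) (N := N) (C := C) (Eventually.of_forall hN1)
    (Eventually.of_forall hccC)
  obtain ⟨ι, hι⟩ := exists_lim_ratio (U := U) (u := ii) (N := N) (C := C) (Eventually.of_forall hN1)
    (Eventually.of_forall hii)
  have hωι : ((E : ℝ) + 1) * ω + ε ≤ ι := by
    refine le_of_tendsto_of_tendsto' ((hω.const_mul ((E : ℝ) + 1)).add tendsto_const_nhds) hι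
      (fun m => ?_)
    have h1 := hcc m
    rw [le_div_iff₀ (hNpos m)]
    have h2 : (((E : ℝ) + 1) * ((cc m : ℝ) / N m) + ε) * N m = ((E : ℝ) + 1) * cc m + ε * N m := by
      have := (hNpos m).ne'
      field_simp
    rw [h2]
    exact h1
  let L : ℕ → ℕ := fun m => ⌈η * (N m : ℝ)⌉₊
  have hL : Tendsto (fun m => (L m : ℝ) / N m) U (𝓝 η) :=
    (tendsto_nat_ceil_mul_div_atTop (R := ℝ) hη.le).comp hNR
  have hLge : ∀ m, η * N m ≤ L m := fun m => Nat.le_ceil _
  have hL1 : ∀ m, 1 ≤ L m := by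
    intro m
    apply Nat.ceil_pos.2
    have := hNpos m
    positivity
  have hLle : ∀ m, (L m : ℝ) ≤ (η + 1) * N m := by
    intro m
    have h1 : (L m : ℝ) < η * N m + 1 := Nat.ceil_lt_add_one (by have := hNpos m; positivity)
    have := hNR1 m
    nlinarith
  let R : ℕ := ⌈C / η⌉₊ + 1
  have hRη : C < (R : ℝ) * η := by
    have h1 : C / η ≤ ⌈C / η⌉₊ := Nat.le_ceil _
    rw [div_le_iff₀ hη] at h1
    simp only [R]
    push_cast
    linarith
  have hRL : ∀ m, C * N m + L m ≤ ((R * L m : ℕ) : ℝ) := by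
    intro m
    have h1 : C / η ≤ ⌈C / η⌉₊ := Nat.le_ceil _
    have h2 : C / η * (η * N m) ≤ (⌈C / η⌉₊ : ℝ) * L m :=
      mul_le_mul h1 (hLge m) (by have := hNpos m; positivity) (Nat.cast_nonneg _)
    have h3 : C / η * (η * N m) = C * N m := by field_simp
    simp only [R]
    push_cast
    rw [h3] at h2
    linarith
  have hMRL : ∀ m, M m < R * L m := by
    intro m
    have h1 := hRL m
    have h2 := hMC m
    have h3 : (1 : ℝ) ≤ L m := by exact_mod_cast hL1 m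
    have h4 : (M m : ℝ) < ((R * L m : ℕ) : ℝ) := by linarith
    exact_mod_cast h4
  let W : ℕ → ℕ := fun m => R * L m - 1
  have hW1 : ∀ m, W m + 1 = R * L m := by
    intro m
    have : 1 ≤ R * L m := Nat.mul_pos (by simp [R]) (hL1 m)
    simp only [W]
    omega
  let c : ℕ := ⌈(C + K * (η + 1) + Fintype.card κ * R * (η + 1)) * B₀⌉₊
  have hc : (C + K * (η + 1) + Fintype.card κ * R * (η + 1)) * B₀ ≤ c := Nat.le_ceil _
  let ρ : ℕ := ⌈(c : ℝ) / η⌉₊
  have hρ : ∀ m, c * N m ≤ ρ * (L m + 1) := by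
    intro m
    have h1 : (c : ℝ) / η ≤ ρ := Nat.le_ceil _
    have h2 : (c : ℝ) / η * (η * N m) ≤ (ρ : ℝ) * L m :=
      mul_le_mul h1 (hLge m) (by have := hNpos m; positivity) (Nat.cast_nonneg _)
    have h3 : (c : ℝ) / η * (η * N m) = c * N m := by field_simp
    rw [h3] at h2
    have h4 : c * N m ≤ ρ * L m := by exact_mod_cast h2
    refine h4.trans (Nat.mul_le_mul_left _ (by omega))
  have hJ : ∀ m, (cols (ic₁ (idx m)) (lo₁ (idx m)) (fun k => hi₁ (idx m) k + L m)).card * B₀ ≤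
      c * N m := by
    intro m
    have h1 : (cols (ic₁ (idx m)) (lo₁ (idx m)) (fun k => hi₁ (idx m) k + L m)).card ≤
      cc m + K * (0 + L m) := card_cols_thick _ _ _ 0 (L m)
    have h2 : ((cols (ic₁ (idx m)) (lo₁ (idx m)) (fun k => hi₁ (idx m) k + L m)).card : ℝ) ≤
      cc m + K * (0 + L m) := by exact_mod_cast h1
    have h3 := hccC m
    have h6 : (K : ℝ) * (0 + L m) ≤ K * ((η + 1) * N m) := by
      rw [zero_add]
      exact mul_le_mul_of_nonneg_left (hLle m) (Nat.cast_nonneg _)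
    have h7 : ((C + K * (η + 1)) * B₀) * N m ≤ c * N m := by
      refine mul_le_mul_of_nonneg_right (le_trans ?_ hc) (hNpos m).le
      refine mul_le_mul_of_nonneg_right ?_ (by linarith)
      have : 0 ≤ (Fintype.card κ : ℝ) * R * (η + 1) := by positivity
      linarith
    have h8 : (((cols (ic₁ (idx m)) (lo₁ (idx m)) (fun k => hi₁ (idx m) k + L m)).card * B₀ : ℕ) : ℝ)
        ≤ ((c * N m : ℕ) : ℝ) := by
      push_cast
      have h9 : ((cols (ic₁ (idx m)) (lo₁ (idx m)) (fun k => hi₁ (idx m) k + L m)).card : ℝ) ≤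
        (C + K * (η + 1)) * N m := by linarith
      have h10 := mul_le_mul_of_nonneg_right h9 (by linarith : (0 : ℝ) ≤ B₀)
      linarith
    exact_mod_cast h8
  have hκW : ∀ m, Fintype.card κ * (W m + 1) * B₀ ≤ c * N m := by
    intro m
    rw [hW1]
    have h1 : (Fintype.card κ : ℝ) * (R * L m) ≤ Fintype.card κ * (R * ((η + 1) * N m)) := by
      refine mul_le_mul_of_nonneg_left (mul_le_mul_of_nonneg_left (hLle m) (Nat.cast_nonneg _))
        (Nat.cast_nonneg _)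
    have h2 : ((Fintype.card κ * R * (η + 1)) * B₀) * N m ≤ c * N m := by
      refine mul_le_mul_of_nonneg_right (le_trans ?_ hc) (hNpos m).le
      refine mul_le_mul_of_nonneg_right ?_ (by linarith)
      have : 0 ≤ (K : ℝ) * (η + 1) := by positivity
      linarith
    have h3 : ((Fintype.card κ * (R * L m) * B₀ : ℕ) : ℝ) ≤ ((c * N m : ℕ) : ℝ) := by
      push_cast
      have h10 := mul_le_mul_of_nonneg_right h1 (by linarith : (0 : ℝ) ≤ B₀)
      linarith
    exact_mod_cast h3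
  -- the small relations
  have hstep := fun m => step (hD m).hb hB₀ (s₁ (idx m)) (hD m).hs (ic₁ (idx m)) (lo₁ (idx m))
    (hi₁ (idx m)) (u₁ (idx m)) (v₁ (idx m)) (L m) (N m) c ρ (W m) (hD m).hu
    (by
      intro k
      rw [hW1]
      have h1 := (hD m).hhi k
      have h2 := hRL m
      have h3 : ((hi₁ (idx m) k + L m : ℕ) : ℝ) ≤ ((R * L m : ℕ) : ℝ) := by
        push_cast at h2 ⊢
        linarith
      exact_mod_cast h3)
    (hJ m) (hκW m) (hρ m) (a₁ (idx m)) (hD m).ha (hD m).ha0 (hD m).hrel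
  choose y hy1 hy2 hy3 hy4 using hstep
  have hlamU : Tendsto (fun m => ((lam c ρ (N m) ^ 2 : ℕ) : ℝ) / N m) U (𝓝 0) :=
    (lam_small c ρ).comp hNt
  -- the core
  have hcore := core (κ := κ) (E := E) (R := R) (R' := R) hU x hx hlin b N
    (Eventually.of_forall fun m => (hD m).hb) hNt hlog
    (B := 2 * ∏ p ∈ S, p) (κ₀ := 2)
    (by
      have : 1 ≤ ∏ p ∈ S, p := Finset.one_le_prod' (fun p hp => (hS p hp).one_lt.le)
      omega)
    (base_dvd hU (by
      have : 1 ≤ ∏ p ∈ S, p := Finset.one_le_prod' (fun p hp => (hS p hp).one_lt.le)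
      omega) (fun m => (hD m).hb)
      (fun m p hp hpb => Dvd.dvd.mul_left (Finset.dvd_prod_of_mem _ ((hD m).hbS p hp hpb)) 2) hlog)
    (fun m => P₁ (idx m)) (fun m => s₁ (idx m)) (A₀ := 2 * B₀)
    (Eventually.of_forall fun m => (hD m).hP)
    (fun m => pl₁ (idx m)) (fun m => ev₁ (idx m))
    (Eventually.of_forall fun m => (hD m).hse) (A := 2 * B₀)
    (Eventually.of_forall fun m l i => by
      have h1 := (hD m).hev l i
      have h2 : ((|ev₁ (idx m) l i| : ℤ) : ℝ) ≤ ((2 * B₀ * b m : ℕ) : ℝ) := by exact_mod_cast h1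
      push_cast at h2
      exact h2)
    (Eventually.of_forall fun m i n => by
      have h1 := (hD m).hs i n
      have h2 : ((|s₁ (idx m) i n| : ℤ) : ℝ) ≤ ((B₀ * b m : ℕ) : ℝ) := by exact_mod_cast h1
      push_cast at h2
      have h3 : 0 ≤ (B₀ : ℝ) * b m := by positivity
      linarith)
    (C₁ := 2 * |C|) (Eventually.of_forall fun m => (hD m).hpl)
    y (fun m => (((c * N m * b m) ^ ρ : ℕ) : ℝ))
    (by
      have h1 := ((TB.Sz.const hU (c : ℝ)).mul (sz_N hU (b := b)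
        (Eventually.of_forall fun m => (hD m).hb) hlog)).mul
        (sz_b hU (Eventually.of_forall fun m => (hD m).hb) hNt hlog)
      rw [add_zero, add_zero] at h1
      have h2 := sz_pow hU h1 ρ
      push_cast
      exact h2)
    (Eventually.of_forall fun m i j => by
      have := hy2 m i j
      exact_mod_cast this)
    hη L hL (μ := C) (w := ω + 4 * (K + 1) * η) (gg := C - 1 - ι + 4 * (K + 1) * η) hRη
    (by
      have h1 : Tendsto (fun m => (C - 1) - (ii m : ℝ) / N m + ((2 + 3 * K) * ((L m : ℝ) / N m) +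
          (K : ℝ) * (((lam c ρ (N m) ^ 2 : ℕ) : ℝ) / N m))) U
          (𝓝 ((C - 1) - ι + ((2 + 3 * K) * η + (K : ℝ) * 0))) :=
        (tendsto_const_nhds.sub hι).add ((hL.const_mul _).add (hlamU.const_mul _))
      filter_upwards [(tendsto_order.1 h1).2 (C - 1 - ι + 4 * (K + 1) * η) (by
        have : (0 : ℝ) ≤ K := Nat.cast_nonneg _
        nlinarith)] with m hm
      have h2 := count_gaps (R := R) (hL1 m) (hNM m) (u₁ (idx m)) (v₁ (idx m))
        (fun n => ∑ i, ∑ j ∈ range (R * L m), y m i j * s₁ (idx m) i (n + j))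
        (D := L m + lam c ρ (N m) ^ 2) (by
          intro k n g1 g2
          have g3 := hy4 m k n g1 g2
          rw [hW1] at g3
          exact g3) (hMRL m) (fun k => ⟨(hD m).hu k, (hvM m k).trans (Nat.le_succ _)⟩)
      set G := ((univ : Finset (Fin R)).filter fun c : Fin R =>
        ∃ r < L m, N m < (c : ℕ) * L m + r ∧ (((c : ℕ) * L m + r : ℕ) : ℝ) ≤ C * N m ∧
        ∑ i, ∑ j ∈ range (R * L m), y m i j * s₁ (idx m) i ((c : ℕ) * L m + r + j) ≠ 0) with hG
      have h3 : G.card * L m + ii m ≤ M m - N m + 2 * L m + 2 * K * L m +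
          K * (L m + lam c ρ (N m) ^ 2) := by
        refine le_trans (Nat.add_le_add_right (Nat.mul_le_mul_right _ (card_le_card ?_)) _) h2
        intro β hβ
        obtain ⟨_, r, g1, g2, g3, g4⟩ := mem_filter.1 hβ
        exact mem_filter.2 ⟨mem_univ _, r, g1, g2, Nat.le_floor g3, g4⟩
      have h4 : (G.card : ℝ) * L m + ii m ≤ (M m - N m) + 2 * L m + 2 * K * L m +
          K * (L m + ((lam c ρ (N m) ^ 2 : ℕ) : ℝ)) := by
        have h5 : ((G.card * L m + ii m : ℕ) : ℝ) ≤ ((M m - N m + 2 * L m + 2 * K * L m +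
          K * (L m + lam c ρ (N m) ^ 2) : ℕ) : ℝ) := by exact_mod_cast h3
        have h6 := hNM m
        push_cast [Nat.cast_sub h6] at h5 ⊢
        exact h5
      have h6 : (G.card : ℝ) * (η * N m) ≤ (G.card : ℝ) * L m :=
        mul_le_mul_of_nonneg_left (hLge m) (Nat.cast_nonneg _)
      have h7 := hMC m
      have h8 : ((C - 1) - (ii m : ℝ) / N m + ((2 + 3 * K) * ((L m : ℝ) / N m) +
          (K : ℝ) * (((lam c ρ (N m) ^ 2 : ℕ) : ℝ) / N m))) * N m =
          (C - 1) * N m - ii m + ((2 + 3 * K) * L m + K * ((lam c ρ (N m) ^ 2 : ℕ) : ℝ)) := by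
        have := (hNpos m).ne'
        field_simp
      have h9 := mul_lt_mul_of_pos_right hm (hNpos m)
      rw [h8] at h9
      have h10 : (G.card : ℝ) * η * N m ≤ (C - 1 - ι + 4 * (K + 1) * η) * N m := by
        linarith
      exact le_of_mul_le_mul_right h10 (hNpos m))
    (by
      have h1 : Tendsto (fun m => (cc m : ℝ) / N m + ((K : ℝ) *
          (((lam c ρ (N m) ^ 2 : ℕ) : ℝ) / N m) +
          3 * K * ((L m : ℝ) / N m))) U (𝓝 (ω + ((K : ℝ) * 0 + 3 * K * η))) :=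
        hω.add ((hlamU.const_mul _).add (hL.const_mul _))
      filter_upwards [(tendsto_order.1 h1).2 (ω + 4 * (K + 1) * η) (by
        have : (0 : ℝ) ≤ K := Nat.cast_nonneg _
        nlinarith)] with m hm
      have h2 := count_blocks (R := R) (hL1 m) (ic₁ (idx m))
        (fun k => lo₁ (idx m) k - lam c ρ (N m) ^ 2) (fun k => hi₁ (idx m) k + L m) (y m) (hy3 m)
      have h3 := card_cols_thick (ic₁ (idx m)) (lo₁ (idx m)) (hi₁ (idx m)) (lam c ρ (N m) ^ 2)
        (L m)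
      have h4 := h2.trans (Nat.add_le_add_right h3 _)
      set A := ((univ : Finset (κ × Fin R)).filter fun p =>
        ∃ r < L m, y m p.1 (p.2 * L m + r) ≠ 0).card with hA
      have h5 : (A : ℝ) * L m ≤ (cc m : ℝ) +
          K * (((lam c ρ (N m) ^ 2 : ℕ) : ℝ) + L m) + 2 * K * L m := by exact_mod_cast h4
      have h6 : (A : ℝ) * (η * N m) ≤ (A : ℝ) * L m :=
        mul_le_mul_of_nonneg_left (hLge m) (Nat.cast_nonneg _)
      have h8 : ((cc m : ℝ) / N m + ((K : ℝ) * (((lam c ρ (N m) ^ 2 : ℕ) : ℝ) / N m) +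
          3 * K * ((L m : ℝ) / N m))) * N m = cc m + ((K : ℝ) * ((lam c ρ (N m) ^ 2 : ℕ) : ℝ) +
          3 * K * L m) := by
        have := (hNpos m).ne'
        field_simp
      have h9 := mul_lt_mul_of_pos_right hm (hNpos m)
      rw [h8] at h9
      have h10 : (A : ℝ) * η * N m ≤ (ω + 4 * (K + 1) * η) * N m := by
        linarith
      exact le_of_mul_le_mul_right h10 (hNpos m))
    (by
      have h3 : 0 < ((E : ℝ) + 2) * (K + 1) * η := by positivity
      nlinarith)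
  obtain ⟨m, hm⟩ := hcore.exists
  obtain ⟨i, hi⟩ := hy1 m
  rw [hW1] at hi
  exact hi (hm i)

end Pool.Agent.V5helper55.DM
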