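import Mathlib
import Pool.Agent.V5helper55.DM.Main

/-!
# Independence of columns: rows in unions of intervals, changed digits
-/

set_option autoImplicit false

open Filter Topology Finset

namespace Pool.Agent.V5helper55.DM

/-- the truncations of an expansion -/
def trn (b : ℕ) (g : ℕ → ℤ) (n : ℕ) : ℤ := ∑ l ∈ range (n + 1), g l * (b : ℤ) ^ (n - l)

lemma trn_succ (b : ℕ) (g : ℕ → ℤ) (n : ℕ) : trn b g (n + 1) = b * trn b g n + g (n + 1) := by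
  unfold trn
  rw [Finset.sum_range_succ, Nat.sub_self, pow_zero, mul_one]
  congr 1
  rw [Finset.mul_sum]
  refine Finset.sum_congr rfl fun l hl => ?_
  have := Finset.mem_range.1 hl
  rw [show n + 1 - l = (n - l) + 1 by omega, pow_succ]
  ring

lemma trn_bound {b B₀ : ℕ} (hb : 2 ≤ b) {g : ℕ → ℤ} (hg : ∀ n, |g (n + 1)| ≤ ((B₀ * b : ℕ) : ℤ))
    {x : ℝ} (hx : HasSum (fun n : ℕ => (g n : ℝ) / (b : ℝ) ^ n) x) (n : ℕ) :
    |x * (b : ℝ) ^ n - (trn b g n : ℝ)| ≤ 2 * B₀ := by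
  have hbR : (2 : ℝ) ≤ b := by exact_mod_cast hb
  have hb0 : (0 : ℝ) < b := by linarith
  have h1 := (hasSum_nat_add_iff' (n + 1)).2 hx
  have hinv : (b : ℝ)⁻¹ ≤ 1 / 2 := by
    rw [inv_le_comm₀ hb0 (by norm_num)]
    linarith
  have h2 : HasSum (fun l : ℕ => (B₀ : ℝ) / (b : ℝ) ^ n * ((b : ℝ)⁻¹) ^ l)
      ((B₀ : ℝ) / (b : ℝ) ^ n * (1 - (b : ℝ)⁻¹)⁻¹) :=
    (hasSum_geometric_of_lt_one (by positivity) (by linarith)).mul_left _
  have h3 : ‖x - ∑ i ∈ range (n + 1), (g i : ℝ) / (b : ℝ) ^ i‖ ≤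
      (B₀ : ℝ) / (b : ℝ) ^ n * (1 - (b : ℝ)⁻¹)⁻¹ := by
    refine HasSum.norm_le_of_bounded h1 h2 fun l => ?_
    have h4 := hg (l + n)
    have h5 : ((|g (l + n + 1)| : ℤ) : ℝ) ≤ ((B₀ * b : ℕ) : ℝ) := by exact_mod_cast h4
    push_cast at h5
    rw [Real.norm_eq_abs, abs_div, abs_of_pos (by positivity : (0 : ℝ) < (b : ℝ) ^ (l + (n + 1))),
      ← add_assoc, div_le_iff₀ (by positivity)]
    have h6 : (B₀ : ℝ) / (b : ℝ) ^ n * ((b : ℝ)⁻¹) ^ l * (b : ℝ) ^ (l + n + 1) = B₀ * b := by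
      rw [pow_succ, pow_add, inv_pow]
      field_simp
    rw [h6]
    exact h5
  have h4 : (x - ∑ i ∈ range (n + 1), (g i : ℝ) / (b : ℝ) ^ i) * (b : ℝ) ^ n =
      x * (b : ℝ) ^ n - (trn b g n : ℝ) := by
    rw [sub_mul]
    congr 1
    unfold trn
    push_cast
    rw [Finset.sum_mul]
    refine Finset.sum_congr rfl fun l hl => ?_
    have hl' := Finset.mem_range.1 hl
    have h5 : (b : ℝ) ^ n = (b : ℝ) ^ l * (b : ℝ) ^ (n - l) := by
      rw [← pow_add]; congr 1; omega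
    rw [h5]
    field_simp
  rw [← h4, abs_mul, abs_of_pos (by positivity : (0 : ℝ) < (b : ℝ) ^ n), ← Real.norm_eq_abs]
  have h5 : (1 - (b : ℝ)⁻¹)⁻¹ ≤ 2 := by
    rw [inv_le_comm₀ (by linarith) (by norm_num)]
    linarith
  calc ‖x - ∑ i ∈ range (n + 1), (g i : ℝ) / (b : ℝ) ^ i‖ * (b : ℝ) ^ n
      ≤ (B₀ : ℝ) / (b : ℝ) ^ n * (1 - (b : ℝ)⁻¹)⁻¹ * (b : ℝ) ^ n :=
        mul_le_mul_of_nonneg_right h3 (by positivity)
    _ = B₀ * (1 - (b : ℝ)⁻¹)⁻¹ := by field_simp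
    _ ≤ B₀ * 2 := mul_le_mul_of_nonneg_left h5 (Nat.cast_nonneg _)
    _ = 2 * B₀ := mul_comm _ _

/-- **Independence of the columns.** -/
theorem mainI {κ : Type} [Fintype κ] [DecidableEq κ] (x : κ → ℝ) (hx : ∀ i, IsAlgebraic ℚ (x i))
    (hlin : ∀ (c : κ → ℤ) (z : ℤ), ∑ i, x i * (c i : ℝ) = z → ∀ i, c i = 0)
    (S : Finset ℕ) (hS : ∀ p ∈ S, p.Prime) (K E B₀ : ℕ) (hB₀ : 1 ≤ B₀) (C ε : ℝ) (hε : 0 < ε) :
    ∃ N₀ : ℕ, ∀ N : ℕ, N₀ ≤ N → ∀ b : ℕ, 2 ≤ b → (∀ p : ℕ, p.Prime → p ∣ b → p ∈ S) →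
    ∀ g : κ → ℕ → ℤ, (∀ i n, |g i (n + 1)| ≤ ((B₀ * b : ℕ) : ℤ)) →
    (∀ i, HasSum (fun n : ℕ => (g i n : ℝ) / (b : ℝ) ^ n) (x i)) →
    ∀ s : κ → ℕ → ℤ, (∀ i n, |s i (n + 1)| ≤ ((B₀ * b : ℕ) : ℤ)) →
    {n : ℕ | N < n ∧ (n : ℝ) ≤ 2 * C * N ∧ ∃ i, s i n ≠ g i n}.ncard ≤ E →
    ∀ (ic : Fin K → κ) (lo hi u v : Fin K → ℕ), (∀ c, (hi c : ℝ) ≤ C * N) →
    (∀ c, N < u c ∧ (v c : ℝ) ≤ C * N) →
    ((E : ℝ) + 1) * (cols ic lo hi).card + ε * N ≤ (ints u v).card →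
    ∀ a : κ → ℕ → ℝ, (∀ n ∈ ints u v,
      ∑ p ∈ cols ic lo hi, a p.1 p.2 * (s p.1 (n + p.2) : ℝ) = 0) →
    ∀ p ∈ cols ic lo hi, a p.1 p.2 = 0 := by
  classical
  by_contra hcon
  push Not at hcon
  refine no_seq x hx hlin S hS K E B₀ hB₀ C ε hε ?_
  intro j
  obtain ⟨N, hN, b, hb, hbS, g, hg, hgx, s, hs, herr, ic, lo, hi, u, v, hhi, huv, hcard, a, hrel,
    p, hp, hap⟩ := hcon (j + 1)
  have hNpos : (0 : ℝ) < N := by exact_mod_cast (by omega : 0 < N)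
  -- the corrected sequences
  let s' : κ → ℕ → ℤ := fun i n =>
    if n = 0 then 0 else if N < n ∧ (n : ℝ) ≤ 2 * C * N then s i n else g i n
  let e : κ → ℕ → ℤ := fun i n => if n = 0 then 0 else s' i n - g i n
  let F : Set ℕ := {n : ℕ | N < n ∧ (n : ℝ) ≤ 2 * C * N ∧ ∃ i, s i n ≠ g i n}
  have hFfin : F.Finite := by
    refine (Set.finite_Iic ⌊2 * C * (N : ℝ)⌋₊).subset ?_
    intro n hn
    exact Nat.le_floor hn.2.1
  have hFcard : hFfin.toFinset.card ≤ E := by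
    rw [← Set.ncard_eq_toFinset_card F hFfin]
    exact herr
  have hs' : ∀ i n, |s' i n| ≤ ((B₀ * b : ℕ) : ℤ) := by
    intro i n
    simp only [s']
    rcases Nat.eq_zero_or_pos n with h0 | h0
    · rw [if_pos h0, abs_zero]
      positivity
    · rw [if_neg (by omega)]
      obtain ⟨n', rfl⟩ : ∃ n', n = n' + 1 := ⟨n - 1, by omega⟩
      split_ifs
      · exact hs i n'
      · exact hg i n'
  obtain ⟨pl, ev, hpe, hpl, hev⟩ := enum_err E hFfin.toFinset hFcard e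
    (by
      intro i n h
      rw [Set.Finite.mem_toFinset]
      simp only [e, s'] at h
      by_cases h0 : n = 0
      · rw [if_pos h0] at h
        exact absurd rfl h
      · rw [if_neg h0, if_neg h0] at h
        split_ifs at h with h1
        · exact ⟨h1.1, h1.2, i, fun h2 => h (by rw [h2, sub_self])⟩
        · exact absurd (sub_self _) h) (A := ((2 * B₀ * b : ℕ) : ℤ)) (by positivity)
    (by
      intro i n
      simp only [e]
      rcases Nat.eq_zero_or_pos n with h0 | h0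
      · rw [if_pos h0, abs_zero]
        positivity
      · rw [if_neg (by omega)]
        obtain ⟨n', rfl⟩ : ∃ n', n = n' + 1 := ⟨n - 1, by omega⟩
        calc |s' i (n' + 1) - g i (n' + 1)| ≤ |s' i (n' + 1)| + |g i (n' + 1)| := abs_sub _ _
          _ ≤ ((B₀ * b : ℕ) : ℤ) + ((B₀ * b : ℕ) : ℤ) := add_le_add (hs' i _) (hg i n')
          _ = ((2 * B₀ * b : ℕ) : ℤ) := by push_cast; ring)
  have hC0 : 0 ≤ C := by
    obtain ⟨c, h1, h2, h3⟩ := mem_cols.1 (show (p.1, p.2) ∈ cols ic lo hi from hp)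
    have h4 := hhi c
    have h5 : (0 : ℝ) ≤ hi c := Nat.cast_nonneg _
    by_contra h7
    push Not at h7
    nlinarith
  refine ⟨N, b, fun i => trn b (g i), s', pl, ev, ic, lo, hi, u, v,
    fun i j => if (i, j) ∈ cols ic lo hi then a i j else 0,
    ⟨by omega, by omega, hb, hbS, fun i n => trn_bound hb (hg i) (hgx i) n, hs', ?_, hev, ?_, hhi,
      fun c => (huv c).1, fun c => (huv c).2, hcard, ?_, ?_, ?_⟩⟩
  · intro i n
    rw [← hpe i (n + 1), trn_succ]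
    simp only [e]
    rw [if_neg (Nat.succ_ne_zero n)]
    ring
  · intro l
    rcases hpl l with h1 | h1
    · rw [Set.Finite.mem_toFinset] at h1
      rw [abs_of_nonneg hC0]
      exact h1.2.1
    · rw [h1]
      push_cast
      positivity
  · intro i j h
    by_contra h1
    exact h (if_neg h1)
  · refine ⟨p.1, p.2, ?_⟩
    rw [if_pos (show (p.1, p.2) ∈ cols ic lo hi from hp)]
    exact hap
  · intro n hn
    obtain ⟨k, hn1, hn2⟩ := mem_ints.1 hn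
    have hn3 := huv k
    rw [← hrel n hn]
    refine Finset.sum_congr rfl fun q hq => ?_
    rw [if_pos (show (q.1, q.2) ∈ cols ic lo hi from hq)]
    have h1 : s' q.1 (n + q.2) = s q.1 (n + q.2) := by
      simp only [s']
      rw [if_neg (by omega), if_pos]
      obtain ⟨c, h1, h2, h3⟩ := mem_cols.1 (show (q.1, q.2) ∈ cols ic lo hi from hq)
      refine ⟨by omega, ?_⟩
      have h4 := hhi c
      have h5 : ((q.2 : ℕ) : ℝ) ≤ hi c := by exact_mod_cast h3.le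
      have h6 : (n : ℝ) ≤ v k := by exact_mod_cast hn2.le
      push_cast
      linarith [hn3.2]
    rw [h1]

end Pool.Agent.V5helper55.DM
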