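import Mathlib
import Pool.Agent.V5helper55.DM.MainI

/-!
# Full rank
-/

set_option autoImplicit false

open Finset

namespace Pool.Agent.V5helper55.DM

section aux

variable {κ : Type} [DecidableEq κ] {K : ℕ}

/-- the shift of the second coordinate -/
def shiftE (κ : Type) (N : ℕ) : κ × ℕ ↪ κ × ℕ :=
  ⟨fun p => (p.1, p.2 + N), fun p q h => by
    simp only [Prod.mk.injEq] at h
    exact Prod.ext h.1 (by omega)⟩

lemma cols_shift (ic : Fin K → κ) (lo hi : Fin K → ℕ) (N : ℕ) (h : ∀ c, N ≤ lo c) :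
    cols ic lo hi = (cols ic (fun c => lo c - N) (fun c => hi c - N)).map (shiftE κ N) := by
  ext ⟨i, j⟩
  rw [mem_map, mem_cols]
  constructor
  · rintro ⟨c, h1, h2, h3⟩
    have h4 := h c
    refine ⟨(i, j - N), mem_cols.2 ⟨c, h1, by omega, by omega⟩, ?_⟩
    simp only [shiftE, Function.Embedding.coeFn_mk, Prod.mk.injEq, true_and]
    omega
  · rintro ⟨⟨i', j'⟩, h1, h2⟩
    obtain ⟨c, h3, h4, h5⟩ := mem_cols.1 h1
    simp only [shiftE, Function.Embedding.coeFn_mk, Prod.mk.injEq] at h2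
    exact ⟨c, h3.trans h2.1, by omega, by omega⟩

/-- natural numbers as pairs -/
def unitE : ℕ ↪ Unit × ℕ := ⟨fun j => ((), j), fun p q h => by
  simpa using h⟩

lemma cols_unit (u v : Fin K → ℕ) :
    cols (fun _ : Fin K => ()) u v = (ints u v).map unitE := by
  ext ⟨i, j⟩
  rw [mem_map, mem_cols]
  constructor
  · rintro ⟨c, h1, h2, h3⟩
    exact ⟨j, mem_ints.2 ⟨c, h2, h3⟩, rfl⟩
  · rintro ⟨j', h1, h2⟩
    obtain ⟨c, h4, h5⟩ := mem_ints.1 h1
    simp only [unitE, Function.Embedding.coeFn_mk, Prod.mk.injEq, true_and] at h2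
    exact ⟨c, rfl, by omega, by omega⟩

lemma ints_shift (u v : Fin K → ℕ) (N : ℕ) :
    (ints (fun c => u c + N) (fun c => v c + N)).card = (ints u v).card := by
  have h1 : ints (fun c => u c + N) (fun c => v c + N) = (ints u v).map (addRightEmbedding N) := by
    ext n
    rw [mem_map, mem_ints]
    constructor
    · rintro ⟨c, h2, h3⟩
      exact ⟨n - N, mem_ints.2 ⟨c, by omega, by omega⟩, by
        simp only [addRightEmbedding_apply]; omega⟩
    · rintro ⟨j', h1, h2⟩
      obtain ⟨c, h4, h5⟩ := mem_ints.1 h1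
      simp only [addRightEmbedding_apply] at h2
      exact ⟨c, by omega, by omega⟩
  rw [h1, card_map]

lemma card_cols_shrink (ic : Fin K → κ) (lo hi : Fin K → ℕ) (D : ℕ) :
    (cols ic lo hi).card ≤ (cols ic lo (fun c => hi c - D)).card + K * D := by
  have h1 : cols ic lo hi ⊆ cols ic lo (fun c => hi c - D) ∪
      univ.biUnion fun c => (Finset.Ico (hi c - D) (hi c)).image fun j => (ic c, j) := by
    rintro ⟨i, j⟩ h
    obtain ⟨c, rfl, h1, h2⟩ := mem_cols.1 h
    rw [mem_union]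
    by_cases h3 : j < hi c - D
    · exact Or.inl (mem_cols.2 ⟨c, rfl, h1, h3⟩)
    · refine Or.inr (mem_biUnion.2 ⟨c, mem_univ _, mem_image.2 ⟨j, mem_Ico.2 ⟨by omega, h2⟩, rfl⟩⟩)
  refine (card_le_card h1).trans ((card_union_le _ _).trans (Nat.add_le_add_left ?_ _))
  refine card_biUnion_le.trans ?_
  calc ∑ c : Fin K, ((Finset.Ico (hi c - D) (hi c)).image fun j => (ic c, j)).card
      ≤ ∑ _c : Fin K, D := by
        refine sum_le_sum fun c _ => ?_
        refine card_image_le.trans ?_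
        rw [Nat.card_Ico]
        omega
    _ = K * D := by rw [sum_const, card_univ, Fintype.card_fin, smul_eq_mul]

end aux

/-- **Independence of the rows**, with changed digits -/
theorem rows_indep {κ : Type} [Fintype κ] [DecidableEq κ] (x : κ → ℝ)
    (hx : ∀ i, IsAlgebraic ℚ (x i))
    (hlin : ∀ (c : κ → ℤ) (z : ℤ), ∑ i, x i * (c i : ℝ) = z → ∀ i, c i = 0)
    (S : Finset ℕ) (hS : ∀ p ∈ S, p.Prime) (K E B₀ : ℕ) (hB₀ : 1 ≤ B₀) (C ε : ℝ) (hε : 0 < ε) :
    ∃ N₀ : ℕ, ∀ N : ℕ, N₀ ≤ N → ∀ b : ℕ, 2 ≤ b → (∀ p : ℕ, p.Prime → p ∣ b → p ∈ S) →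
    ∀ g : κ → ℕ → ℤ, (∀ i n, |g i (n + 1)| ≤ ((B₀ * b : ℕ) : ℤ)) →
    (∀ i, HasSum (fun n : ℕ => (g i n : ℝ) / (b : ℝ) ^ n) (x i)) →
    ∀ s : κ → ℕ → ℤ, (∀ i n, |s i (n + 1)| ≤ ((B₀ * b : ℕ) : ℤ)) →
    {n : ℕ | N < n ∧ (n : ℝ) ≤ 2 * C * N ∧ ∃ i, s i n ≠ g i n}.ncard ≤ E →
    ∀ (ic : Fin K → κ) (lo hi u v : Fin K → ℕ), (∀ c, N < lo c ∧ (hi c : ℝ) ≤ C * N) →
    (∀ c, (v c : ℝ) ≤ C * N) →
    ((E : ℝ) + 1) * (cols ic lo hi).card + ε * N ≤ (ints u v).card →
    ∀ α : κ → ℕ → ℝ, (∀ j ∈ ints u v,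
      ∑ q ∈ cols ic lo hi, α q.1 q.2 * (s q.1 (q.2 + j) : ℝ) = 0) →
    ∀ q ∈ cols ic lo hi, α q.1 q.2 = 0 := by
  classical
  obtain ⟨N₁, hN₁⟩ := mainI x hx hlin S hS K E B₀ hB₀ (2 * (|C| + 1)) ε hε
  refine ⟨N₁ + 2, ?_⟩
  intro N hN b hb hbS g hg hgx s hs herr ic lo hi u v hlohi hv hcard α hα q hq
  have hN2 : (2 : ℝ) ≤ N := by exact_mod_cast (by omega : 2 ≤ N)
  have hN1R : ((N - 1 : ℕ) : ℝ) = N - 1 := by
    rw [Nat.cast_sub (by omega)]; simp
  -- the sequences
  let s' : κ → ℕ → ℤ := fun i n => if N < n ∧ (n : ℝ) ≤ 2 * C * N then s i n else g i n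
  have hCC : C ≤ |C| := le_abs_self C
  have hC0 : 0 ≤ |C| := abs_nonneg C
  have hbig : ∀ t : ℝ, t ≤ C * N + N → t ≤ 2 * (|C| + 1) * ((N - 1 : ℕ) : ℝ) := by
    intro t ht
    rw [hN1R]
    have h1 : C * N ≤ |C| * N := mul_le_mul_of_nonneg_right hCC (by linarith)
    nlinarith
  have key := hN₁ (N - 1) (by omega) b hb hbS g hg hgx s'
    (by
      intro i n
      simp only [s']
      split_ifs
      · exact hs i n
      · exact hg i n)
    (by
      refine le_trans (Set.ncard_le_ncard ?_ ?_) herr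
      · rintro n ⟨h1, h2, i, h3⟩
        simp only [s'] at h3
        split_ifs at h3 with h4
        · exact ⟨h4.1, h4.2, i, h3⟩
        · exact absurd rfl h3
      · refine (Set.finite_Iic ⌊2 * C * (N : ℝ)⌋₊).subset ?_
        intro n hn
        exact Nat.le_floor hn.2.1)
    ic (fun c => lo c - N) (fun c => hi c - N) (fun c => u c + N) (fun c => v c + N)
    (by
      intro c
      apply hbig
      have h1 : ((hi c - N : ℕ) : ℝ) ≤ hi c := by exact_mod_cast Nat.sub_le _ _
      have h2 := (hlohi c).2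
      linarith)
    (by
      intro c
      refine ⟨by omega, ?_⟩
      apply hbig
      have h2 := hv c
      push_cast
      linarith)
    (by
      rw [ints_shift]
      have h1 : (cols ic (fun c => lo c - N) (fun c => hi c - N)).card = (cols ic lo hi).card := by
        rw [cols_shift ic lo hi N (fun c => (hlohi c).1.le), card_map]
      rw [h1]
      refine le_trans ?_ hcard
      have h2 : ε * ((N - 1 : ℕ) : ℝ) ≤ ε * N := by
        rw [hN1R]
        nlinarith
      linarith)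
    (fun i m => α i (m + N))
    (by
      intro n hn
      obtain ⟨c, h1, h2⟩ := mem_ints.1 hn
      have hj : n - N ∈ ints u v := mem_ints.2 ⟨c, by omega, by omega⟩
      have h3 := hα (n - N) hj
      rw [cols_shift ic lo hi N (fun c => (hlohi c).1.le), sum_map] at h3
      rw [← h3]
      refine sum_congr rfl fun p hp => ?_
      obtain ⟨c', g1, g2, g3⟩ := mem_cols.1 (show (p.1, p.2) ∈ cols ic (fun c => lo c - N)
        (fun c => hi c - N) from hp)
      simp only [shiftE, Function.Embedding.coeFn_mk]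
      rw [show n + p.2 = p.2 + N + (n - N) by omega]
      congr 2
      simp only [s']
      rw [if_pos]
      have g4 := hlohi c'
      have g5 := hv c
      refine ⟨by omega, ?_⟩
      have g6 : ((p.2 + N : ℕ) : ℝ) ≤ hi c' := by exact_mod_cast (by omega : p.2 + N ≤ hi c')
      have g7 : ((n - N : ℕ) : ℝ) ≤ v c := by exact_mod_cast (by omega : n - N ≤ v c)
      push_cast at g6 ⊢
      linarith [g4.2])
  rw [cols_shift ic lo hi N (fun c => (hlohi c).1.le), mem_map] at hq
  obtain ⟨p, hp, rfl⟩ := hq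
  exact key p hp

/-- **Independence of the columns.** -/
theorem cols_indep {κ : Type} [Fintype κ] [DecidableEq κ] (x : κ → ℝ)
    (hx : ∀ i, IsAlgebraic ℚ (x i))
    (hlin : ∀ (c : κ → ℤ) (z : ℤ), ∑ i, x i * (c i : ℝ) = z → ∀ i, c i = 0)
    (S : Finset ℕ) (hS : ∀ p ∈ S, p.Prime) (K B₀ : ℕ) (hB₀ : 1 ≤ B₀) (C ε : ℝ) (hε : 0 < ε) :
    ∃ N₀ : ℕ, ∀ N : ℕ, N₀ ≤ N → ∀ b : ℕ, 2 ≤ b → (∀ p : ℕ, p.Prime → p ∣ b → p ∈ S) →
    ∀ g : κ → ℕ → ℤ, (∀ i n, |g i (n + 1)| ≤ ((B₀ * b : ℕ) : ℤ)) →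
    (∀ i, HasSum (fun n : ℕ => (g i n : ℝ) / (b : ℝ) ^ n) (x i)) →
    ∀ (ic : Fin K → κ) (lo hi u v : Fin K → ℕ), (∀ c, N < lo c ∧ (hi c : ℝ) ≤ C * N) →
    (∀ c, (v c : ℝ) ≤ C * N) →
    ((ints u v).card : ℝ) + ε * N ≤ (cols ic lo hi).card →
    ∀ a : ℕ → ℝ, (∀ q ∈ cols ic lo hi, ∑ j ∈ ints u v, a j * (g q.1 (q.2 + j) : ℝ) = 0) →
    ∀ j ∈ ints u v, a j = 0 := by
  classical
  obtain ⟨η, hηdef⟩ : ∃ η : ℝ, η = ε / (4 * (K + 1)) := ⟨_, rfl⟩
  have hη : 0 < η := by rw [hηdef]; positivity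
  have hηε : 4 * (K + 1) * η = ε := by rw [hηdef]; field_simp
  obtain ⟨N₁, hN₁⟩ := rows_indep x hx hlin S hS K 0 B₀ hB₀ (|C| + η + 1) η hη
  refine ⟨N₁ + 1 + ⌈4 * (K : ℝ) / ε⌉₊, ?_⟩
  intro N hN b hb hbS g hg hgx ic lo hi u v hlohi hv hcard a ha
  by_contra hcon
  push Not at hcon
  obtain ⟨j0, hj0, haj0⟩ := hcon
  have hN1 : (1 : ℝ) ≤ N := by exact_mod_cast (by omega : 1 ≤ N)
  have hNK : 4 * (K : ℝ) ≤ ε * N := by
    have h1 : 4 * (K : ℝ) / ε ≤ ⌈4 * (K : ℝ) / ε⌉₊ := Nat.le_ceil _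
    have h2 : (⌈4 * (K : ℝ) / ε⌉₊ : ℝ) ≤ N := by
      exact_mod_cast (by omega : ⌈4 * (K : ℝ) / ε⌉₊ ≤ N)
    have h3 := h1.trans h2
    rw [div_le_iff₀ hε] at h3
    linarith
  set T : ℕ := ⌈η * (N : ℝ)⌉₊ with hT
  have hT1 : η * N ≤ T := Nat.le_ceil _
  have hT2 : (T : ℝ) < η * N + 1 := Nat.ceil_lt_add_one (by positivity)
  -- the columns
  have hJ : cols (fun _ : Fin K => ()) u v = (ints u v).map unitE := cols_unit u v
  have hJ' : cols (fun _ : Fin K => ()) u (fun c => v c + T) =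
      (ints u (fun c => v c + T)).map unitE := cols_unit _ _
  set Jp := cols (fun _ : Fin K => ()) u (fun c => v c + T) with hJp
  have hsh : ∀ (i : Unit) j t, (i, j) ∈ cols (fun _ : Fin K => ()) u v → t ≤ T →
      (i, j + t) ∈ Jp := by
    intro i j t hij ht
    obtain ⟨k, h1, h2, h3⟩ := mem_cols.1 hij
    exact mem_cols.2 ⟨k, h1, by omega, by omega⟩
  have hJcard : (cols (fun _ : Fin K => ()) u v).card = (ints u v).card := by rw [hJ, card_map]
  have hJpcard : Jp.card ≤ (ints u v).card + K * T := by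
    have h1 := card_cols_thick (fun _ : Fin K => ()) u v 0 T
    rw [hJcard, zero_add] at h1
    exact h1
  have hTJ : T + 1 ≤ Jp.card := by
    have hj0' : ((), j0) ∈ cols (fun _ : Fin K => ()) u v := by
      rw [hJ]
      exact mem_map.2 ⟨j0, hj0, rfl⟩
    have h1 : (range (T + 1)).image (fun t => ((), j0 + t)) ⊆ Jp := by
      intro p hp
      obtain ⟨t, ht, rfl⟩ := mem_image.1 hp
      exact hsh () j0 t hj0' (by have := mem_range.1 ht; omega)
    have h2 := card_le_card h1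
    rwa [card_image_of_injective, card_range] at h2
    intro t t' h
    simp only [Prod.mk.injEq, true_and] at h
    omega
  -- the rows
  have hshr := card_cols_shrink ic lo hi T
  have hz : Jp.card - T ≤ (cols ic lo (fun c => hi c - T)).card := by
    have h1 : ((Jp.card - T : ℕ) : ℝ) ≤ ((cols ic lo (fun c => hi c - T)).card : ℝ) := by
      rw [Nat.cast_sub (by omega)]
      have h2 : (Jp.card : ℝ) ≤ (ints u v).card + K * T := by exact_mod_cast hJpcard
      have h3 : ((cols ic lo hi).card : ℝ) ≤ (cols ic lo (fun c => hi c - T)).card + K * T := by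
        exact_mod_cast hshr
      have h4 : (0 : ℝ) ≤ T := Nat.cast_nonneg _
      have h5 : (0 : ℝ) ≤ K := Nat.cast_nonneg _
      have h6 : 2 * (K : ℝ) * T ≤ 2 * K * (η * N + 1) :=
        mul_le_mul_of_nonneg_left hT2.le (by positivity)
      have h7 : 2 * (K : ℝ) * (η * N + 1) ≤ ε * N := by
        have h8 : 4 * ((K : ℝ) + 1) * η * N = ε * N := by rw [hηε]
        have h9 : 0 ≤ η * N := by positivity
        nlinarith
      linarith
    exact_mod_cast h1
  obtain ⟨hi', hhi', hcard'⟩ := exists_trim ic lo (Jp.card - T) _ (fun c => hi c - T) rfl hz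
  set I' := cols ic lo hi' with hI'
  -- the matrix
  let A : Matrix I' Jp ℝ := fun q p => (g q.1.1 (q.1.2 + p.1.2) : ℝ)
  have hrow : LinearIndependent ℝ A.row := by
    rw [Fintype.linearIndependent_iff]
    intro w hw q
    have key := hN₁ N (by omega) b hb hbS g hg hgx g hg
      (by
        have h1 : {n : ℕ | N < n ∧ (n : ℝ) ≤ 2 * (|C| + η + 1) * N ∧ ∃ i, g i n ≠ g i n} = ∅ := by
          ext n
          simp
        rw [h1, Set.ncard_empty])
      ic lo hi' u (fun c => v c + T)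
      (by
        intro c
        refine ⟨(hlohi c).1, ?_⟩
        have h1 : ((hi' c : ℕ) : ℝ) ≤ hi c := by
          exact_mod_cast (hhi' c).trans (Nat.sub_le _ _)
        have h2 := (hlohi c).2
        have h3 : C * N ≤ |C| * N := mul_le_mul_of_nonneg_right (le_abs_self C) (by linarith)
        have h4 : 0 ≤ (η + 1) * N := by positivity
        nlinarith)
      (by
        intro c
        have h2 := hv c
        have h3 : C * N ≤ |C| * N := mul_le_mul_of_nonneg_right (le_abs_self C) (by linarith)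
        push_cast
        nlinarith)
      (by
        have h1 : (ints u (fun c => v c + T)).card = Jp.card := by rw [hJ', card_map]
        rw [h1, ← hI', hcard', Nat.cast_sub (by omega)]
        push_cast
        linarith)
      (fun i n => if h : (i, n) ∈ I' then w ⟨(i, n), h⟩ else 0)
      (by
        intro j hj
        have hjp : ((), j) ∈ Jp := by
          rw [hJ']
          exact mem_map.2 ⟨j, hj, rfl⟩
        have h1 := congrFun hw ⟨((), j), hjp⟩
        simp only [Finset.sum_apply, Pi.smul_apply, smul_eq_mul, Pi.zero_apply] at h1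
        rw [← h1]
        rw [← Finset.sum_coe_sort (cols ic lo hi')]
        refine sum_congr rfl fun q _ => ?_
        have hq : (q.1.1, q.1.2) ∈ I' := q.2
        rw [dif_pos hq]
        rfl)
      q.1 q.2
    have hq : (q.1.1, q.1.2) ∈ I' := q.2
    rw [dif_pos hq] at key
    exact key
  have hrank : A.rank = Jp.card - T := by
    have h1 := hrow.rank_matrix
    rw [h1, Fintype.card_coe, hcard']
  -- the kernel
  let a' : Unit → ℕ → ℝ := fun _ j => if j ∈ ints u v then a j else 0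
  have ha' : ∀ i j, a' i j ≠ 0 → (i, j) ∈ cols (fun _ : Fin K => ()) u v := by
    intro i j h
    simp only [a'] at h
    split_ifs at h with h1
    · rw [hJ]
      exact mem_map.2 ⟨j, h1, rfl⟩
    · exact absurd rfl h
  have hv' := shift_indep (cols (fun _ : Fin K => ()) u v) Jp T hsh a' ha'
    ⟨(), j0, by simp only [a']; rw [if_pos hj0]; exact haj0⟩
  have hker : T + 1 ≤ Module.finrank ℝ (LinearMap.ker A.mulVecLin) := by
    have h1 : Submodule.span ℝ (Set.range (fun (t : Fin (T + 1)) (p : Jp) =>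
        if t.1 ≤ p.1.2 then a' p.1.1 (p.1.2 - t.1) else 0)) ≤ LinearMap.ker A.mulVecLin := by
      rw [Submodule.span_le]
      rintro _ ⟨t, rfl⟩
      rw [SetLike.mem_coe, LinearMap.mem_ker, Matrix.mulVecLin_apply]
      funext q
      have h2 := shift_rel (fun (_ : Unit) n => (g q.1.1 n : ℝ)) (cols (fun _ : Fin K => ()) u v)
        Jp T hsh a' ha' t.1 (by have := t.2; omega) q.1.2
        (by
          rw [hJ, sum_map]
          have hq : (q.1.1, q.1.2) ∈ I' := q.2
          obtain ⟨c, g1, g2, g3⟩ := mem_cols.1 hq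
          have h3 : (q.1.1, q.1.2 + t.1) ∈ cols ic lo hi := by
            refine mem_cols.2 ⟨c, g1, by omega, ?_⟩
            have := hhi' c
            have := t.2
            omega
          have h4 := ha _ h3
          rw [← h4]
          refine sum_congr rfl fun j hj => ?_
          simp only [a', unitE, Function.Embedding.coeFn_mk]
          rw [if_pos hj])
      refine Eq.trans ?_ h2
      rw [← Finset.sum_coe_sort Jp]
      rfl
    have h2 := Submodule.finrank_mono h1
    rw [finrank_span_eq_card hv', Fintype.card_fin] at h2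
    exact h2
  have hrn : Module.finrank ℝ (LinearMap.range A.mulVecLin) +
      Module.finrank ℝ (LinearMap.ker A.mulVecLin) = Jp.card := by
    rw [LinearMap.finrank_range_add_finrank_ker, Module.finrank_fintype_fun_eq_card,
      Fintype.card_coe]
  have hr2 : Module.finrank ℝ (LinearMap.range A.mulVecLin) = Jp.card - T := hrank
  omega

end Pool.Agent.V5helper55.DM
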